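import Mathlib

/-!
AllGeometricGenera (MP_b8862a_ag), sharpness C6: the matrices of the creation and annihilation operators on the exterior
algebra.
-/

set_option linter.unusedSectionVars false

open Matrix

namespace C655

variable {κ : Type*} [Fintype κ] [LinearOrder κ] {R : Type*} [CommRing R]

/-- the sign of a pair -/
def sp (R : Type*) [CommRing R] (i j : κ) : R := if j < i then -1 else 1

theorem sp_sq (i j : κ) : sp R i j * sp R i j = 1 := by
  unfold sp
  split_ifs <;> simp

theorem sp_self (i : κ) : sp R i i = 1 := by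
  rw [sp, if_neg (lt_irrefl i)]

theorem sp_swap {i j : κ} (h : i ≠ j) : sp R i j = -sp R j i := by
  rcases lt_or_gt_of_ne h with h1 | h1
  · rw [sp, sp, if_neg (not_lt.2 h1.le), if_pos h1, neg_neg]
  · rw [sp, sp, if_pos h1, if_neg (not_lt.2 h1.le)]

/-- the sign of an element and a set -/
def sg (R : Type*) [CommRing R] (i : κ) (S : Finset κ) : R := ∏ j ∈ S, sp R i j

theorem sg_sq (i : κ) (S : Finset κ) : sg R i S * sg R i S = 1 := by
  rw [sg, ← Finset.prod_mul_distrib]
  exact Finset.prod_eq_one fun j _ => sp_sq i j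

theorem sg_insert {i j : κ} {S : Finset κ} (h : j ∉ S) : sg R i (insert j S) = sp R i j * sg R i S := by
  rw [sg, Finset.prod_insert h]
  rfl

theorem sg_erase {i j : κ} {S : Finset κ} (h : j ∈ S) : sg R i (S.erase j) = sp R i j * sg R i S := by
  conv_rhs => rw [← Finset.insert_erase h, sg_insert (Finset.notMem_erase j S), ← mul_assoc, sp_sq, one_mul]

/-- annihilation -/
def an (R : Type*) [CommRing R] (i : κ) : Matrix (Finset κ) (Finset κ) R :=
  fun T S => if i ∉ T ∧ S = insert i T then sg R i T else 0

/-- creation -/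
def cr (R : Type*) [CommRing R] (i : κ) : Matrix (Finset κ) (Finset κ) R := (an R i)ᵀ

theorem an_tr (i : κ) : (an R i)ᵀ = cr R i := rfl

theorem cr_tr (i : κ) : (cr R i)ᵀ = an R i := rfl

variable {n : Type*}

theorem an_mul (i : κ) (M : Matrix (Finset κ) n R) (T : Finset κ) (q : n) :
    (an R i * M) T q = if i ∉ T then sg R i T * M (insert i T) q else 0 := by
  rw [Matrix.mul_apply, Finset.sum_eq_single (insert i T)]
  · rw [an]
    by_cases h : i ∈ T
    · rw [if_neg (fun h' => h'.1 h), if_neg (not_not.2 h), zero_mul]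
    · rw [if_pos ⟨h, rfl⟩, if_pos h]
  · intro S _ hS
    rw [an, if_neg fun h => hS h.2, zero_mul]
  · intro h
    exact absurd (Finset.mem_univ _) h

theorem cr_apply (i : κ) (T S : Finset κ) : cr R i T S = if i ∈ T ∧ S = T.erase i then sg R i T else 0 := by
  rw [cr, Matrix.transpose_apply, an]
  by_cases h : i ∈ T ∧ S = T.erase i
  · obtain ⟨h1, rfl⟩ := h
    rw [if_pos (⟨h1, rfl⟩ : i ∈ T ∧ T.erase i = T.erase i), if_pos (⟨Finset.notMem_erase i T,
      (Finset.insert_erase h1).symm⟩ : i ∉ T.erase i ∧ T = insert i (T.erase i)), sg_erase h1, sp_self, one_mul]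
  · rw [if_neg h, if_neg]
    rintro ⟨h1, rfl⟩
    exact h ⟨Finset.mem_insert_self i S, (Finset.erase_insert h1).symm⟩

theorem cr_mul (i : κ) (M : Matrix (Finset κ) n R) (T : Finset κ) (q : n) :
    (cr R i * M) T q = if i ∈ T then sg R i T * M (T.erase i) q else 0 := by
  rw [Matrix.mul_apply, Finset.sum_eq_single (T.erase i)]
  · rw [cr_apply]
    by_cases h : i ∈ T
    · rw [if_pos ⟨h, rfl⟩, if_pos h]
    · rw [if_neg (fun h' => h h'.1), if_neg h, zero_mul]
  · intro S _ hS
    rw [cr_apply, if_neg fun h => hS h.2, zero_mul]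
  · intro h
    exact absurd (Finset.mem_univ _) h

theorem mul_cr (i : κ) (M : Matrix n (Finset κ) R) (T : Finset κ) (q : n) :
    (M * cr R i) q T = if i ∉ T then sg R i T * M q (insert i T) else 0 := by
  have h := an_mul i Mᵀ T q
  rw [← an_tr, ← Matrix.transpose_apply (M * (an R i)ᵀ), Matrix.transpose_mul, Matrix.transpose_transpose, h]
  rfl

theorem mul_an (i : κ) (M : Matrix n (Finset κ) R) (T : Finset κ) (q : n) :
    (M * an R i) q T = if i ∈ T then sg R i T * M q (T.erase i) else 0 := by
  have h := cr_mul i Mᵀ T q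
  rw [← cr_tr, ← Matrix.transpose_apply (M * (cr R i)ᵀ), Matrix.transpose_mul, Matrix.transpose_transpose, h]
  rfl

theorem an_an (i j : κ) (M : Matrix (Finset κ) n R) : an R i * (an R j * M) = -(an R j * (an R i * M)) := by
  ext T S
  rw [Matrix.neg_apply, an_mul i (an R j * M), an_mul j (an R i * M)]
  by_cases hij : i = j
  · subst hij
    by_cases h : i ∈ T
    · rw [if_neg (not_not.2 h), neg_zero]
    · rw [if_pos h, an_mul i M, if_neg (not_not.2 (Finset.mem_insert_self i T)), mul_zero, neg_zero]
  by_cases hi : i ∈ T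
  · rw [if_neg (not_not.2 hi)]
    by_cases hj : j ∈ T
    · rw [if_neg (not_not.2 hj), neg_zero]
    · rw [if_pos hj, an_mul i M, if_neg (not_not.2 (Finset.mem_insert_of_mem hi)), mul_zero, neg_zero]
  · rw [if_pos hi, an_mul j M]
    by_cases hj : j ∈ T
    · rw [if_neg (not_not.2 (Finset.mem_insert_of_mem hj)), if_neg (not_not.2 hj), mul_zero, neg_zero]
    · have h1 : j ∉ insert i T := by
        rw [Finset.mem_insert, not_or]
        exact ⟨fun h => hij h.symm, hj⟩
      have h2 : i ∉ insert j T := by
        rw [Finset.mem_insert, not_or]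
        exact ⟨hij, hi⟩
      rw [if_pos h1, if_pos hj, an_mul i M, if_pos h2, sg_insert hi, sg_insert hj, Finset.insert_comm j i, sp_swap hij]
      ring

theorem an_cr (i j : κ) (M : Matrix (Finset κ) n R) :
    an R i * (cr R j * M) = (if i = j then M else 0) - cr R j * (an R i * M) := by
  ext T S
  by_cases hij : i = j
  · subst hij
    rw [if_pos rfl, Matrix.sub_apply, an_mul i (cr R i * M), cr_mul i (an R i * M)]
    by_cases h : i ∈ T
    · rw [if_neg (not_not.2 h), if_pos h, an_mul i M, if_pos (Finset.notMem_erase i T), Finset.insert_erase h,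
        sg_erase h, sp_self, one_mul, ← mul_assoc, sg_sq, one_mul, sub_self]
    · rw [if_pos h, if_neg h, cr_mul i M, if_pos (Finset.mem_insert_self i T), Finset.erase_insert h, sg_insert h,
        sp_self, one_mul, ← mul_assoc, sg_sq, one_mul, sub_zero]
  · rw [if_neg hij, Matrix.sub_apply, Matrix.zero_apply, zero_sub, an_mul i (cr R j * M), cr_mul j (an R i * M)]
    have hji : ¬j = i := fun h => hij h.symm
    by_cases hi : i ∈ T
    · rw [if_neg (not_not.2 hi)]
      by_cases hj : j ∈ T
      · rw [if_pos hj, an_mul i M, if_neg (not_not.2 (Finset.mem_erase.2 ⟨hij, hi⟩)), mul_zero, neg_zero]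
      · rw [if_neg hj, neg_zero]
    · rw [if_pos hi, cr_mul j M]
      by_cases hj : j ∈ T
      · have h2 : i ∉ T.erase j := fun h => hi (Finset.mem_of_mem_erase h)
        rw [if_pos (Finset.mem_insert_of_mem hj), if_pos hj, an_mul i M, if_pos h2, sg_insert hi, sg_erase hj,
          Finset.erase_insert_of_ne hij, sp_swap hij]
        ring
      · have h1 : j ∉ insert i T := by
          rw [Finset.mem_insert, not_or]
          exact ⟨hji, hj⟩
        rw [if_neg h1, if_neg hj, mul_zero, neg_zero]

theorem cr_cr (i j : κ) (M : Matrix (Finset κ) n R) : cr R i * (cr R j * M) = -(cr R j * (cr R i * M)) := by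
  have h : cr R i * cr R j = -(cr R j * cr R i) := by
    have e := an_an (R := R) j i (1 : Matrix (Finset κ) (Finset κ) R)
    rw [Matrix.mul_one, Matrix.mul_one] at e
    have e2 := congrArg Matrix.transpose e
    rw [Matrix.transpose_neg, Matrix.transpose_mul, Matrix.transpose_mul, an_tr, an_tr] at e2
    exact e2
  rw [← Matrix.mul_assoc, h, Matrix.neg_mul, Matrix.mul_assoc]

theorem car (i j : κ) : an R i * cr R j = (if i = j then 1 else 0) - cr R j * an R i := by
  have e := an_cr (R := R) i j (1 : Matrix (Finset κ) (Finset κ) R)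
  rw [Matrix.mul_one, Matrix.mul_one] at e
  exact e

theorem an_an' (i j : κ) : an R i * an R j = -(an R j * an R i) := by
  have e := an_an (R := R) i j (1 : Matrix (Finset κ) (Finset κ) R)
  rw [Matrix.mul_one, Matrix.mul_one] at e
  exact e

theorem cr_cr' (i j : κ) : cr R i * cr R j = -(cr R j * cr R i) := by
  have e := cr_cr (R := R) i j (1 : Matrix (Finset κ) (Finset κ) R)
  rw [Matrix.mul_one, Matrix.mul_one] at e
  exact e

/-- the elements of the Lie algebra -/
def rr (R : Type*) [CommRing R] (i j : κ) : Matrix (Finset κ) (Finset κ) R := cr R i * an R j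

theorem rr_tr (i j : κ) : (rr R i j)ᵀ = rr R j i := by
  rw [rr, Matrix.transpose_mul, an_tr, cr_tr]
  rfl

/-- the commutators of the Lie algebra -/
theorem rr_comm (i j k l : κ) :
    rr R i j * rr R k l - rr R k l * rr R i j = (if j = k then rr R i l else 0) - if l = i then rr R k j else 0 := by
  have h1 : rr R i j * rr R k l = (if j = k then rr R i l else 0) - cr R i * (cr R k * (an R j * an R l)) := by
    rw [rr, rr, Matrix.mul_assoc, an_cr, Matrix.mul_sub]
    congr 1
    split_ifs
    · rfl
    · rw [Matrix.mul_zero]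
  have h2 : rr R k l * rr R i j = (if l = i then rr R k j else 0) - cr R k * (cr R i * (an R l * an R j)) := by
    rw [rr, rr, Matrix.mul_assoc, an_cr, Matrix.mul_sub]
    congr 1
    split_ifs
    · rfl
    · rw [Matrix.mul_zero]
  have h3 : cr R i * (cr R k * (an R j * an R l)) = cr R k * (cr R i * (an R l * an R j)) := by
    rw [cr_cr, an_an' j l, Matrix.mul_neg, Matrix.mul_neg, neg_neg]
  rw [h1, h2, h3]
  abel

/-- the number of elements -/
theorem sum_num (T S : Finset κ) : (∑ i, rr R i i) T S = if T = S then (T.card : R) else 0 := by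
  rw [Matrix.sum_apply]
  have h : ∀ i, rr R i i T S = if i ∈ T then (if T = S then 1 else 0) else 0 := by
    intro i
    rw [rr, cr_mul]
    by_cases hi : i ∈ T
    · rw [if_pos hi, if_pos hi, an]
      by_cases hS : T = S
      · subst hS
        rw [if_pos ⟨Finset.notMem_erase i T, (Finset.insert_erase hi).symm⟩, if_pos rfl, sg_erase hi, sp_self, one_mul,
          sg_sq]
      · rw [if_neg, if_neg hS, mul_zero]
        rintro ⟨-, h2⟩
        rw [Finset.insert_erase hi] at h2
        exact hS h2.symm
    · rw [if_neg hi, if_neg hi]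
  simp only [h]
  rw [← Finset.sum_filter, Finset.sum_const, nsmul_eq_mul]
  have h2 : (Finset.univ.filter fun i => i ∈ T) = T := by
    ext i
    simp
  rw [h2]
  split_ifs <;> simp

end C655
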