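import Pool.Agent.Helper55.C6.Car

/-!
AllGeometricGenera (MP_b8862a_ag), sharpness C6: the Cartan product of an exterior power and its dual is irreducible.
-/

set_option linter.unusedSectionVars false

open Matrix

namespace C655

variable {κ : Type*} [Fintype κ] [LinearOrder κ]

/-- exchange -/
theorem conn {a b : ℕ} (c : Finset κ → Finset κ → ℂ)
    (h1 : ∀ (A B : Finset κ) (i j : κ), A.card = a → B.card = b → Disjoint A B → j ∈ A → i ∉ A → i ∉ B →
      c (insert i (A.erase j)) B = c A B)
    (h2 : ∀ (A B : Finset κ) (i j : κ), A.card = a → B.card = b → Disjoint A B → i ∈ B → j ∉ B → j ∉ A →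
      c A (insert j (B.erase i)) = c A B)
    (h3 : ∀ (A B : Finset κ) (i j : κ), A.card = a → B.card = b → Disjoint A B → j ∈ A → i ∈ B →
      c (insert i (A.erase j)) (insert j (B.erase i)) = c A B) :
    ∀ (n : ℕ) (A B A' B' : Finset κ), Disjoint A B → Disjoint A' B' → A.card = a → B.card = b →
      A'.card = a → B'.card = b → (A \ A').card + (B \ B').card = n → c A B = c A' B' := by
  intro n
  induction n using Nat.strong_induction_on with
  | _ n ih =>
    intro A B A' B' hd hd' hAa hBb hAa' hBb' hn
    have hA : A.card = A'.card := by rw [hAa, hAa']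
    have hB : B.card = B'.card := by rw [hBb, hBb']
    by_cases hAA : A = A'
    · by_cases hBB : B = B'
      · rw [hAA, hBB]
      · -- a move in the second set
        subst hAA
        have n1 : (B \ B').Nonempty := by
          rw [Finset.sdiff_nonempty]
          intro h
          exact hBB (Finset.eq_of_subset_of_card_le h hB.ge)
        have n2 : (B' \ B).Nonempty := by
          rw [Finset.sdiff_nonempty]
          intro h
          exact hBB (Finset.eq_of_subset_of_card_le h hB.le).symm
        obtain ⟨i, hi⟩ := n1
        obtain ⟨j, hj⟩ := n2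
        rw [Finset.mem_sdiff] at hi hj
        have hjA : j ∉ A := fun h => (Finset.disjoint_left.1 hd') h hj.1
        rw [← h2 A B i j hAa hBb hd hi.1 hj.2 hjA]
        have e1 : insert j (B.erase i) \ B' = (B \ B').erase i := by
          ext x
          simp only [Finset.mem_sdiff, Finset.mem_insert, Finset.mem_erase]
          constructor
          · rintro ⟨rfl | hx, hx'⟩
            · exact absurd hj.1 hx'
            · exact ⟨hx.1, hx.2, hx'⟩
          · rintro ⟨hx, hx1, hx2⟩
            exact ⟨Or.inr ⟨hx, hx1⟩, hx2⟩
        have c1 : (insert j (B.erase i)).card = B'.card := by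
          rw [Finset.card_insert_of_notMem (fun h => hj.2 (Finset.mem_of_mem_erase h)), Finset.card_erase_of_mem hi.1, ← hB]
          have := Finset.card_pos.2 ⟨i, hi.1⟩
          omega
        have c2 : (insert j (B.erase i) \ B').card < (B \ B').card := by
          rw [e1]
          exact Finset.card_erase_lt_of_mem (Finset.mem_sdiff.2 hi)
        refine ih _ ?_ A _ A B' ?_ hd' hAa (by rw [c1, hBb']) hAa hBb' rfl
        · omega
        · rw [Finset.disjoint_insert_right]
          exact ⟨hjA, hd.mono_right (Finset.erase_subset _ _)⟩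
    · have n1 : (A \ A').Nonempty := by
        rw [Finset.sdiff_nonempty]
        intro h
        exact hAA (Finset.eq_of_subset_of_card_le h hA.ge)
      have n2 : (A' \ A).Nonempty := by
        rw [Finset.sdiff_nonempty]
        intro h
        exact hAA (Finset.eq_of_subset_of_card_le h hA.le).symm
      obtain ⟨j, hj⟩ := n1
      obtain ⟨i, hi⟩ := n2
      rw [Finset.mem_sdiff] at hi hj
      have hjB : j ∉ B := fun h => (Finset.disjoint_left.1 hd) hj.1 h
      have hiB' : i ∉ B' := fun h => (Finset.disjoint_left.1 hd') hi.1 h
      have e1 : insert i (A.erase j) \ A' = (A \ A').erase j := by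
        ext x
        simp only [Finset.mem_sdiff, Finset.mem_insert, Finset.mem_erase]
        constructor
        · rintro ⟨rfl | hx, hx'⟩
          · exact absurd hi.1 hx'
          · exact ⟨hx.1, hx.2, hx'⟩
        · rintro ⟨hx, hx1, hx2⟩
          exact ⟨Or.inr ⟨hx, hx1⟩, hx2⟩
      have c1 : (insert i (A.erase j)).card = A'.card := by
        rw [Finset.card_insert_of_notMem (fun h => hi.2 (Finset.mem_of_mem_erase h)), Finset.card_erase_of_mem hj.1, ← hA]
        have := Finset.card_pos.2 ⟨j, hj.1⟩
        omega
      have c2 : (insert i (A.erase j) \ A').card < (A \ A').card := by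
        rw [e1]
        exact Finset.card_erase_lt_of_mem (Finset.mem_sdiff.2 hj)
      by_cases hiB : i ∈ B
      · rw [← h3 A B i j hAa hBb hd hj.1 hiB]
        have c3 : (insert j (B.erase i)).card = B'.card := by
          rw [Finset.card_insert_of_notMem (fun h => hjB (Finset.mem_of_mem_erase h)), Finset.card_erase_of_mem hiB, ← hB]
          have := Finset.card_pos.2 ⟨i, hiB⟩
          omega
        have c4 : (insert j (B.erase i) \ B').card ≤ (B \ B').card := by
          have e2 : insert j (B.erase i) \ B' ⊆ insert j ((B \ B').erase i) := by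
            intro x
            simp only [Finset.mem_sdiff, Finset.mem_insert, Finset.mem_erase]
            tauto
          have e3 : i ∈ B \ B' := Finset.mem_sdiff.2 ⟨hiB, hiB'⟩
          have e4 := Finset.card_pos.2 ⟨i, e3⟩
          calc (insert j (B.erase i) \ B').card ≤ (insert j ((B \ B').erase i)).card := Finset.card_le_card e2
            _ ≤ ((B \ B').erase i).card + 1 := Finset.card_insert_le _ _
            _ = (B \ B').card := by rw [Finset.card_erase_of_mem e3]; omega
        refine ih _ ?_ _ _ A' B' ?_ hd' (by rw [c1, hAa']) (by rw [c3, hBb']) hAa' hBb' rfl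
        · omega
        · rw [Finset.disjoint_insert_left, Finset.disjoint_insert_right, Finset.mem_insert, not_or]
          refine ⟨⟨?_, Finset.notMem_erase i B⟩, Finset.notMem_erase j A,
            hd.mono (Finset.erase_subset _ _) (Finset.erase_subset _ _)⟩
          rintro rfl
          exact hi.2 hj.1
      · rw [← h1 A B i j hAa hBb hd hj.1 hi.2 hiB]
        refine ih _ ?_ _ _ A' B' ?_ hd' (by rw [c1, hAa']) hBb hAa' hBb' rfl
        · omega
        · rw [Finset.disjoint_insert_left]
          exact ⟨hiB, hd.mono_left (Finset.erase_subset _ _)⟩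

/-! ### the operators and the matrix units -/

section units
variable {R : Type*} [CommRing R]

theorem an_single {j : κ} {S T : Finset κ} (h : j ∈ S) (c : R) :
    an R j * Matrix.single S T c = Matrix.single (S.erase j) T (sg R j (S.erase j) * c) := by
  ext U q
  rw [an_mul, Matrix.single_apply, Matrix.single_apply]
  by_cases hj : j ∈ U
  · rw [if_neg (not_not.2 hj), if_neg]
    rintro ⟨rfl, -⟩
    exact Finset.notMem_erase j S hj
  · rw [if_pos hj]
    by_cases hU : S = insert j U
    · subst hU
      rw [Finset.erase_insert hj]
      by_cases hq : T = q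
      · rw [if_pos ⟨rfl, hq⟩, if_pos ⟨rfl, hq⟩]
      · rw [if_neg (fun h => hq h.2), if_neg (fun h => hq h.2), mul_zero]
    · rw [if_neg (fun h => hU h.1), if_neg, mul_zero]
      rintro ⟨rfl, -⟩
      exact hU (Finset.insert_erase h).symm

theorem an_single0 {j : κ} {S T : Finset κ} (h : j ∉ S) (c : R) : an R j * Matrix.single S T c = 0 := by
  ext U q
  rw [an_mul, Matrix.single_apply, Matrix.zero_apply]
  by_cases hj : j ∈ U
  · rw [if_neg (not_not.2 hj)]
  · rw [if_pos hj, if_neg, mul_zero]
    rintro ⟨rfl, -⟩
    exact h (Finset.mem_insert_self j U)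

theorem cr_single {i : κ} {S T : Finset κ} (h : i ∉ S) (c : R) :
    cr R i * Matrix.single S T c = Matrix.single (insert i S) T (sg R i S * c) := by
  ext U q
  rw [cr_mul, Matrix.single_apply, Matrix.single_apply]
  by_cases hi : i ∈ U
  · rw [if_pos hi]
    by_cases hU : S = U.erase i
    · subst hU
      rw [Finset.insert_erase hi, sg_erase hi, sp_self, one_mul]
      by_cases hq : T = q
      · rw [if_pos ⟨rfl, hq⟩, if_pos ⟨rfl, hq⟩]
      · rw [if_neg (fun h => hq h.2), if_neg (fun h => hq h.2), mul_zero]
    · rw [if_neg (fun h => hU h.1), if_neg, mul_zero]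
      rintro ⟨rfl, -⟩
      exact hU (Finset.erase_insert h).symm
  · rw [if_neg hi, if_neg]
    rintro ⟨rfl, -⟩
    exact hi (Finset.mem_insert_self i S)

theorem rr_single {i j : κ} {S T : Finset κ} (hj : j ∈ S) (hi : i ∉ S) (c : R) :
    rr R i j * Matrix.single S T c =
      Matrix.single (insert i (S.erase j)) T (sg R i (S.erase j) * (sg R j (S.erase j) * c)) := by
  rw [rr, Matrix.mul_assoc, an_single hj, cr_single (fun h => hi (Finset.mem_of_mem_erase h))]

theorem rr_single0 {i j : κ} {S T : Finset κ} (hj : j ∉ S) (c : R) : rr R i j * Matrix.single S T c = 0 := by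
  rw [rr, Matrix.mul_assoc, an_single0 hj, Matrix.mul_zero]

theorem single_rr {i j : κ} {S T : Finset κ} (hi : i ∈ T) (hj : j ∉ T) (c : R) :
    Matrix.single S T c * rr R i j =
      Matrix.single S (insert j (T.erase i)) (sg R j (T.erase i) * (sg R i (T.erase i) * c)) := by
  have h := congrArg Matrix.transpose (rr_single (T := S) hi hj c)
  rw [Matrix.transpose_mul, Matrix.transpose_single, Matrix.transpose_single, rr_tr] at h
  exact h

theorem single_rr0 {i j : κ} {S T : Finset κ} (hi : i ∉ T) (c : R) : Matrix.single S T c * rr R i j = 0 := by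
  have h := congrArg Matrix.transpose (rr_single0 (i := j) (T := S) hi c)
  rw [Matrix.transpose_mul, Matrix.transpose_single, Matrix.transpose_zero, rr_tr] at h
  exact h

theorem sg_ne (i : κ) (S : Finset κ) : sg ℂ i S ≠ 0 := by
  intro h
  have := sg_sq (R := ℂ) i S
  rw [h, mul_zero] at this
  exact zero_ne_one this

/-- the entries of the commutator -/
theorem rr_entry {a b : κ} {S T : Finset κ} (Y : Matrix (Finset κ) (Finset κ) R) (ha : a ∉ S) (hb : b ∉ S) (ha' : a ∉ T)
    (hb' : b ∉ T) : (rr R a b * Y - Y * rr R a b) (insert a S) (insert b T) =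
      sg R a S * (sg R b S * Y (insert b S) (insert b T)) - sg R b T * (sg R a T * Y (insert a S) (insert a T)) := by
  have h1 : (rr R a b * Y) (insert a S) (insert b T) = sg R a S * (sg R b S * Y (insert b S) (insert b T)) := by
    rw [rr, Matrix.mul_assoc, cr_mul, if_pos (Finset.mem_insert_self a S), an_mul, Finset.erase_insert ha, if_pos hb,
      sg_insert ha, sp_self, one_mul]
  have h2 : (Y * rr R a b) (insert a S) (insert b T) = sg R b T * (sg R a T * Y (insert a S) (insert a T)) := by
    rw [rr, ← Matrix.mul_assoc, mul_an, if_pos (Finset.mem_insert_self b T), mul_cr, Finset.erase_insert hb', if_pos ha',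
      sg_insert hb', sp_self, one_mul]
  rw [Matrix.sub_apply, h1, h2]

end units

end C655
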