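import Pool.Agent.Helper55.C6.Mid

/-!
AllGeometricGenera (MP_b8862a_ag), sharpness C6: the commutant.
-/

set_option linter.unusedSectionVars false

open Matrix MH
open scoped Kronecker

namespace C655

open SH94 (cC cC_mul cC_one cC_conj cC_inj)
open QU55 (vc mt vc_inj vc_mt mt_vc vc_smul Opr mulVec_ext Th Th_map Th_form T_vc quart)
open MH.PGN (T)

section
variable {κ : Type} [Fintype κ] [LinearOrder κ] {k : ℕ}

/-- the operator of the Hodge structure -/
noncomputable def KC (o : κ) : Matrix (Finset κ × Finset κ) (Finset κ × Finset κ) ℂ := (-Complex.I) • toC (KQ o)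

theorem comm_main (hk : 2 * (k + 1) < Fintype.card κ) (o : κ)
    {A : Matrix (Finset κ × Finset κ) (Finset κ × Finset κ) ℂ} (h1 : toC (ee κ (k + 1)) * A = A)
    (h2 : A * toC (ee κ (k + 1)) = A) (h3 : A * KC o = KC o * A)
    (h4 : ∀ j : {j : κ // j ≠ o} ⊕ {j : κ // j ≠ o}, A * (toC (MM ℚ o j) * KC o - KC o * toC (MM ℚ o j)) =
      (toC (MM ℚ o j) * KC o - KC o * toC (MM ℚ o j)) * A) : ∃ c : ℂ, A = c • toC (ee κ (k + 1)) := by
  obtain ⟨D, hD⟩ : ∃ D, D = dg ℂ o := ⟨_, rfl⟩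
  have hs : D * D = 1 := by rw [hD, dg_sq]
  have ht : Dᵀ = D := by rw [hD, dg_tr]
  have hsm : ∀ {c : ℂ} {Z : Matrix (Finset κ × Finset κ) (Finset κ × Finset κ) ℂ}, c ≠ 0 → A * (c • Z) = (c • Z) * A →
      A * Z = Z * A := by
    intro c Z hc h
    rw [Matrix.mul_smul, Matrix.smul_mul] at h
    exact smul_right_injective _ hc h
  have hI : -Complex.I ≠ 0 := neg_ne_zero.2 Complex.I_ne_zero
  -- the rational operators that commute
  have q0 : A * (adk (rr ℂ o o) * tt D) = (adk (rr ℂ o o) * tt D) * A := by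
    have e : toC (KQ o) = adk (rr ℂ o o) * tt D := by rw [KQ, toC_mul', toC_adk, toC_tt, hD]
    rw [← e]
    exact hsm hI h3
  have q1 : ∀ j : κ, j ≠ o → A * (adk (rr ℂ o j - rr ℂ j o) * tt D) = (adk (rr ℂ o j - rr ℂ j o) * tt D) * A := by
    intro j hj
    have e := h4 (Sum.inl ⟨j, hj⟩)
    have e1 : toC (MM ℚ o (Sum.inl ⟨j, hj⟩)) * KC o - KC o * toC (MM ℚ o (Sum.inl ⟨j, hj⟩)) =
        (-Complex.I) • toC (MM ℚ o (Sum.inl ⟨j, hj⟩) * KQ o - KQ o * MM ℚ o (Sum.inl ⟨j, hj⟩)) := by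
      rw [KC, toC_sub', toC_mul', toC_mul', Matrix.mul_smul, Matrix.smul_mul, smul_sub]
    have e2 : MM ℚ o (Sum.inl ⟨j, hj⟩) * KQ o - KQ o * MM ℚ o (Sum.inl ⟨j, hj⟩) = -MM ℚ o (Sum.inr ⟨j, hj⟩) :=
      comm1 o hj
    rw [e1, e2, toC_neg', smul_neg, ← neg_smul, neg_neg, MM_map] at e
    have e3 := hsm Complex.I_ne_zero e
    rw [hD]
    exact e3
  have q2 : ∀ j : κ, j ≠ o → A * adk (rr ℂ o j + rr ℂ j o) = adk (rr ℂ o j + rr ℂ j o) * A := by
    intro j hj
    have e := h4 (Sum.inr ⟨j, hj⟩)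
    have e1 : toC (MM ℚ o (Sum.inr ⟨j, hj⟩)) * KC o - KC o * toC (MM ℚ o (Sum.inr ⟨j, hj⟩)) =
        (-Complex.I) • toC (MM ℚ o (Sum.inr ⟨j, hj⟩) * KQ o - KQ o * MM ℚ o (Sum.inr ⟨j, hj⟩)) := by
      rw [KC, toC_sub', toC_mul', toC_mul', Matrix.mul_smul, Matrix.smul_mul, smul_sub]
    have e2 : MM ℚ o (Sum.inr ⟨j, hj⟩) * KQ o - KQ o * MM ℚ o (Sum.inr ⟨j, hj⟩) = MM ℚ o (Sum.inl ⟨j, hj⟩) :=
      comm2 o hj
    rw [e1, e2, MM_map] at e
    exact hsm hI e
  -- the twist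
  obtain ⟨A', hA'⟩ : ∃ A', A' = Lt D * A * Lti D := ⟨_, rfl⟩
  have p1 : ∀ J : Matrix (Finset κ) (Finset κ) ℂ, D * Jᵀ * D = J → A * (adk J * tt D) = (adk J * tt D) * A →
      A' * adk J = adk J * A' := by
    intro J hJ hAJ
    have e1 := Lt_anti hs (adk_tt' hs ht hJ)
    have e2 : adk J = (-Complex.I) • (Lt D * (adk J * tt D) * Lti D) := by
      rw [e1, Matrix.smul_mul, smul_smul, Matrix.mul_assoc, Lt_Lti hs, Matrix.mul_one, neg_mul, Complex.I_mul_I,
        neg_neg, one_smul]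
    have e3 : ∀ Z : Matrix (Finset κ × Finset κ) (Finset κ × Finset κ) ℂ,
        Lt D * A * Lti D * (Lt D * Z * Lti D) = Lt D * (A * Z) * Lti D := by
      intro Z
      calc Lt D * A * Lti D * (Lt D * Z * Lti D) = Lt D * A * (Lti D * Lt D) * Z * Lti D := by
            simp only [Matrix.mul_assoc]
        _ = _ := by rw [Lti_Lt hs, Matrix.mul_one]; simp only [Matrix.mul_assoc]
    have e4 : ∀ Z : Matrix (Finset κ × Finset κ) (Finset κ × Finset κ) ℂ,
        Lt D * Z * Lti D * (Lt D * A * Lti D) = Lt D * (Z * A) * Lti D := by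
      intro Z
      calc Lt D * Z * Lti D * (Lt D * A * Lti D) = Lt D * Z * (Lti D * Lt D) * A * Lti D := by
            simp only [Matrix.mul_assoc]
        _ = _ := by rw [Lti_Lt hs, Matrix.mul_one]; simp only [Matrix.mul_assoc]
    rw [e2, hA', Matrix.mul_smul, Matrix.smul_mul, e3, e4, hAJ]
  have p2 : ∀ J : Matrix (Finset κ) (Finset κ) ℂ, D * Jᵀ * D = -J → A * adk J = adk J * A →
      A' * adk J = adk J * A' := by
    intro J hJ hAJ
    have e1 := Lt_comm (adk_tt hs ht hJ)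
    have e2 := Lti_comm (adk_tt hs ht hJ)
    rw [hA', Matrix.mul_assoc, e2, ← Matrix.mul_assoc, Matrix.mul_assoc (Lt D) A, hAJ, ← Matrix.mul_assoc, e1]
    simp only [Matrix.mul_assoc]
  have r0 : A' * adk (rr ℂ o o) = adk (rr ℂ o o) * A' := p1 _ (by rw [hD]; exact dg_P o) q0
  have r1 : ∀ j, j ≠ o → A' * adk (rr ℂ o j - rr ℂ j o) = adk (rr ℂ o j - rr ℂ j o) * A' :=
    fun j hj => p1 _ (by rw [hD]; exact dg_J2 o hj) (q1 j hj)
  have r2 : ∀ j, j ≠ o → A' * adk (rr ℂ o j + rr ℂ j o) = adk (rr ℂ o j + rr ℂ j o) * A' :=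
    fun j hj => p2 _ (by rw [hD]; exact dg_J1 o hj) (q2 j hj)
  have r3 : ∀ j, j ≠ o → A' * adk (rr ℂ o j) = adk (rr ℂ o j) * A' := by
    intro j hj
    have e : adk (rr ℂ o j) = (1 / 2 : ℂ) • (adk (rr ℂ o j + rr ℂ j o) + adk (rr ℂ o j - rr ℂ j o)) := by
      rw [adk_add, adk_sub]
      module
    rw [e, Matrix.mul_smul, Matrix.smul_mul, Matrix.mul_add, Matrix.add_mul, r1 j hj, r2 j hj]
  have r4 : ∀ j, j ≠ o → A' * adk (rr ℂ j o) = adk (rr ℂ j o) * A' := by
    intro j hj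
    have e : adk (rr ℂ j o) = (1 / 2 : ℂ) • (adk (rr ℂ o j + rr ℂ j o) - adk (rr ℂ o j - rr ℂ j o)) := by
      rw [adk_add, adk_sub]
      module
    rw [e, Matrix.mul_smul, Matrix.smul_mul, Matrix.mul_sub, Matrix.sub_mul, r1 j hj, r2 j hj]
  have r5 : ∀ i j, A' * adk (rr ℂ i j) = adk (rr ℂ i j) * A' := by
    intro i j
    by_cases hi : i = o
    · by_cases hj : j = o
      · rw [hi, hj]
        exact r0
      · rw [hi]
        exact r3 j hj
    · by_cases hj : j = o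
      · rw [hj]
        exact r4 i hi
      · have e1 := rr_comm (R := ℂ) i o o j
        rw [if_pos rfl] at e1
        have e2 : adk (rr ℂ i j) = (adk (rr ℂ i o) * adk (rr ℂ o j) - adk (rr ℂ o j) * adk (rr ℂ i o)) +
            adk (if j = i then rr ℂ o o else 0) := by
          rw [adk_comm, e1, adk_sub]
          abel
        have e3 : A' * adk (if j = i then rr ℂ o o else 0) = adk (if j = i then rr ℂ o o else 0) * A' := by
          by_cases hji : j = i
          · rw [if_pos hji]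
            exact r0
          · rw [if_neg hji, adk_zero, Matrix.mul_zero, Matrix.zero_mul]
        have e4 : A' * (adk (rr ℂ i o) * adk (rr ℂ o j)) = adk (rr ℂ i o) * adk (rr ℂ o j) * A' := by
          rw [← Matrix.mul_assoc, r4 i hi, Matrix.mul_assoc, r3 j hj, Matrix.mul_assoc]
        have e5 : A' * (adk (rr ℂ o j) * adk (rr ℂ i o)) = adk (rr ℂ o j) * adk (rr ℂ i o) * A' := by
          rw [← Matrix.mul_assoc, r3 j hj, Matrix.mul_assoc, r4 i hi, Matrix.mul_assoc]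
        rw [e2, Matrix.mul_add, Matrix.mul_sub, Matrix.add_mul, Matrix.sub_mul, e3, e4, e5]
  -- the idempotent
  obtain ⟨e, he⟩ : ∃ e, e = toC (ee κ (k + 1)) := ⟨_, rfl⟩
  rw [← he] at h1 h2
  have hte : tt D * e = e * tt D := by
    have := congrArg toC (tt_ee hk o)
    rw [toC_mul', toC_mul', toC_tt, ← hD, ← he] at this
    exact this
  have hLe := Lt_comm hte
  have hLie := Lti_comm hte
  have f1 : e * A' = A' := by
    rw [hA', ← Matrix.mul_assoc, ← Matrix.mul_assoc, ← hLe, Matrix.mul_assoc (Lt D), h1]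
  have f2 : A' * e = A' := by
    rw [hA', Matrix.mul_assoc, hLie, ← Matrix.mul_assoc, Matrix.mul_assoc (Lt D), h2]
  let φ : Matrix (Finset κ) (Finset κ) ℂ →ₗ[ℂ] Matrix (Finset κ) (Finset κ) ℂ :=
    { toFun := fun X => mt (A' *ᵥ vc X)
      map_add' := fun X Y => by
        rw [QU55.vc_add, Matrix.mulVec_add]
        rfl
      map_smul' := fun c X => by
        rw [vc_smul, Matrix.mulVec_smul]
        rfl }
  have hφ : ∀ X, vc (φ X) = A' *ᵥ vc X := fun X => rfl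
  have hC : Cm (k + 1 + 1) φ := by
    refine ⟨fun X _ => ?_, fun i j X => ?_⟩
    · apply of_ee hk
      rw [hφ, ← he, Matrix.mulVec_mulVec, f1]
    · apply vc_inj
      rw [hφ, ← adk_vc, ← adk_vc, hφ, Matrix.mulVec_mulVec, Matrix.mulVec_mulVec, r5]
  obtain ⟨c, hc⟩ := hC.main
  have hfin : A' = c • e := by
    apply mulVec_ext
    intro v
    obtain ⟨X, hX⟩ : ∃ X, vc X = e *ᵥ v := ⟨mt (e *ᵥ v), vc_mt _⟩
    have e1 : e * e = e := by
      have := congrArg toC (ee_sq hk)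
      rw [toC_mul', ← he] at this
      exact this
    have hXV : Vn (k + 1 + 1) X := by
      apply of_ee hk
      rw [← he, hX, Matrix.mulVec_mulVec, e1]
    have e2 := congrArg vc (hc X hXV)
    rw [hφ, hX, vc_smul, hX, Matrix.mulVec_mulVec, f2] at e2
    rw [e2, Matrix.smul_mulVec]
  refine ⟨c, ?_⟩
  rw [← he]
  calc A = (Lti D * Lt D) * A * (Lti D * Lt D) := by rw [Lti_Lt hs, Matrix.one_mul, Matrix.mul_one]
    _ = Lti D * A' * Lt D := by rw [hA']; simp only [Matrix.mul_assoc]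
    _ = c • e := by
        rw [hfin, Matrix.mul_smul, Matrix.smul_mul, hLie, Matrix.mul_assoc, Lti_Lt hs, Matrix.mul_one]

end

end C655
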