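import Pool.Agent.Helper55.C6.Idm

/-!
AllGeometricGenera (MP_b8862a_ag), sharpness C6: change of the coefficients, and the dimensions.
-/

set_option linter.unusedSectionVars false

open Matrix MH
open scoped Kronecker

namespace C655

open QU55

section
variable {κ : Type*} [Fintype κ] [LinearOrder κ] {R R' : Type*} [CommRing R] [CommRing R'] (f : R →+* R')

theorem sg_map (i : κ) (S : Finset κ) : f (sg R i S) = sg R' i S := by
  rw [sg, sg, map_prod]
  refine Finset.prod_congr rfl fun j _ => ?_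
  rw [sp, sp]
  split_ifs <;> simp

theorem an_map (i : κ) : (an R i).map f = an R' i := by
  ext T S
  rw [Matrix.map_apply, an, an]
  split_ifs
  · exact sg_map f i T
  · exact map_zero f

theorem cr_map (i : κ) : (cr R i).map f = cr R' i := by
  have h := congrArg Matrix.transpose (an_map f i)
  exact h

theorem rr_map (i j : κ) : (rr R i j).map f = rr R' i j := by
  rw [rr, Matrix.map_mul, cr_map, an_map]
  rfl

theorem lam_map : (lam κ R).map f = lam κ R' := by
  rw [lam, lam]
  have e : ∀ s : Finset κ, (∑ i ∈ s, an R i ⊗ₖ an R i).map f = ∑ i ∈ s, an R' i ⊗ₖ an R' i := by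
    intro s
    induction s using Finset.induction_on with
    | empty =>
      ext p q
      simp
    | insert a s ha ih => rw [Finset.sum_insert ha, Finset.sum_insert ha, Matrix.map_add _ (map_add f), ih, kron_map,
        an_map]
  exact e _

theorem dk_map (k : ℕ) : (dk R k : Matrix (Finset κ) (Finset κ) R).map f = dk R' k := by
  rw [dk, Matrix.diagonal_map (map_zero f), dk]
  congr 1
  funext S
  show f _ = _
  split_ifs <;> simp

theorem pk_map (k : ℕ) : (pk κ R k).map f = pk κ R' k := by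
  rw [pk, kron_map, dk_map, pk]

end

section
variable {κ : Type*} [Fintype κ] [LinearOrder κ]

theorem tr_dk (k : ℕ) : (dk ℚ k : Matrix (Finset κ) (Finset κ) ℚ).trace = ((Fintype.card κ).choose k : ℕ) := by
  rw [dk, Matrix.trace_diagonal, ← Finset.sum_filter, Finset.sum_const, nsmul_eq_mul, mul_one]
  congr 1
  have e : (Finset.univ.filter fun S : Finset κ => S.card = k) = Finset.powersetCard k Finset.univ := by
    ext S
    simp [Finset.mem_powersetCard]
  rw [e, Finset.card_powersetCard, Finset.card_univ]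

theorem tr_rdk (o : κ) (k : ℕ) : (rr ℚ o o * dk ℚ k).trace + (((Fintype.card κ - 1).choose k : ℕ) : ℚ) =
    (((Fintype.card κ).choose k : ℕ) : ℚ) := by
  have e1 : (rr ℚ o o * dk ℚ k).trace = ∑ S : Finset κ, if o ∈ S ∧ S.card = k then (1 : ℚ) else 0 := by
    rw [rr_diag, dk, Matrix.diagonal_mul_diagonal, Matrix.trace_diagonal]
    refine Finset.sum_congr rfl fun S _ => ?_
    by_cases h1 : o ∈ S
    · by_cases h2 : S.card = k
      · rw [if_pos h1, if_pos h2, if_pos ⟨h1, h2⟩, one_mul]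
      · rw [if_neg h2, if_neg (fun h : o ∈ S ∧ S.card = k => h2 h.2), mul_zero]
    · rw [if_neg h1, if_neg (fun h : o ∈ S ∧ S.card = k => h1 h.1), zero_mul]
  have e2 : (((Fintype.card κ - 1).choose k : ℕ) : ℚ) = ∑ S : Finset κ, if o ∉ S ∧ S.card = k then (1 : ℚ) else 0 := by
    rw [← Finset.sum_filter, Finset.sum_const, nsmul_eq_mul, mul_one]
    congr 1
    have e : (Finset.univ.filter fun S : Finset κ => o ∉ S ∧ S.card = k) =
        Finset.powersetCard k (Finset.univ.erase o) := by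
      ext S
      simp only [Finset.mem_filter, Finset.mem_univ, true_and, Finset.mem_powersetCard]
      constructor
      · rintro ⟨h1, h2⟩
        refine ⟨fun x hx => Finset.mem_erase.2 ⟨?_, Finset.mem_univ _⟩, h2⟩
        rintro rfl
        exact h1 hx
      · rintro ⟨h1, h2⟩
        exact ⟨fun h => (Finset.mem_erase.1 (h1 h)).1 rfl, h2⟩
    rw [e, Finset.card_powersetCard, Finset.card_erase_of_mem (Finset.mem_univ o), Finset.card_univ]
  rw [e1, e2, ← Finset.sum_add_distrib, ← tr_dk, dk, Matrix.trace_diagonal]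
  refine Finset.sum_congr rfl fun S _ => ?_
  by_cases h1 : o ∈ S
  · by_cases h2 : S.card = k
    · rw [if_pos ⟨h1, h2⟩, if_neg (fun h : o ∉ S ∧ S.card = k => h.1 h1), if_pos h2, add_zero]
    · rw [if_neg (fun h : o ∈ S ∧ S.card = k => h2 h.2), if_neg (fun h : o ∉ S ∧ S.card = k => h2 h.2), if_neg h2,
        add_zero]
  · by_cases h2 : S.card = k
    · rw [if_neg (fun h : o ∈ S ∧ S.card = k => h1 h.1), if_pos ⟨h1, h2⟩, if_pos h2, zero_add]
    · rw [if_neg (fun h : o ∈ S ∧ S.card = k => h2 h.2), if_neg (fun h : o ∉ S ∧ S.card = k => h2 h.2), if_neg h2,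
        add_zero]

theorem adk_P (o : κ) : adk (rr ℚ o o) * adk (rr ℚ o o) =
    rr ℚ o o ⊗ₖ 1 + 1 ⊗ₖ rr ℚ o o - (2 : ℚ) • (rr ℚ o o ⊗ₖ rr ℚ o o) := by
  rw [adk, rr_tr, Matrix.sub_mul, Matrix.mul_sub, Matrix.mul_sub, ← Matrix.mul_kronecker_mul,
    ← Matrix.mul_kronecker_mul, ← Matrix.mul_kronecker_mul, ← Matrix.mul_kronecker_mul, rr_sq]
  simp only [Matrix.one_mul, Matrix.mul_one]
  module

theorem adk_P3 (o : κ) : adk (rr ℚ o o) * adk (rr ℚ o o) * adk (rr ℚ o o) = adk (rr ℚ o o) := by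
  rw [adk_P, adk, rr_tr, Matrix.mul_sub, Matrix.sub_mul, Matrix.sub_mul, Matrix.add_mul, Matrix.add_mul,
    Matrix.smul_mul, Matrix.smul_mul, ← Matrix.mul_kronecker_mul, ← Matrix.mul_kronecker_mul,
    ← Matrix.mul_kronecker_mul, ← Matrix.mul_kronecker_mul, ← Matrix.mul_kronecker_mul, ← Matrix.mul_kronecker_mul,
    rr_sq]
  simp only [Matrix.one_mul, Matrix.mul_one]
  module

theorem dg_eq (o : κ) : dg ℚ o = 1 - (2 : ℚ) • rr ℚ o o := by
  rw [dg, rr_diag]
  ext T S
  rw [Matrix.sub_apply, Matrix.smul_apply, Matrix.diagonal_apply, Matrix.diagonal_apply, Matrix.one_apply]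
  by_cases h : T = S
  · subst h
    rw [if_pos rfl, if_pos rfl, if_pos rfl]
    split_ifs <;> norm_num
  · rw [if_neg h, if_neg h, if_neg h]
    norm_num

theorem qq_eq (o : κ) : dg ℚ o ⊗ₖ dg ℚ o = 1 - (2 : ℚ) • (adk (rr ℚ o o) * adk (rr ℚ o o)) := by
  rw [adk_P, dg_eq, kron_sub1, kron_sub2, kron_sub2, kron_smul1, kron_smul2, kron_smul1, kron_smul2,
    Matrix.one_kronecker_one]
  module

theorem tr_pk (k : ℕ) : (pk κ ℚ k).trace = ((Fintype.card κ).choose k : ℕ) ^ 2 := by
  rw [pk, Matrix.trace_kronecker, tr_dk, sq]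

theorem tr_Ppk (o : κ) (k : ℕ) : (adk (rr ℚ o o) * adk (rr ℚ o o) * pk κ ℚ k).trace =
    2 * (((Fintype.card κ).choose k : ℕ) - ((Fintype.card κ - 1).choose k : ℕ)) * ((Fintype.card κ - 1).choose k : ℕ) := by
  have h := tr_rdk o k
  rw [adk_P, pk, Matrix.sub_mul, Matrix.add_mul, Matrix.smul_mul, ← Matrix.mul_kronecker_mul,
    ← Matrix.mul_kronecker_mul, ← Matrix.mul_kronecker_mul, Matrix.one_mul, Matrix.trace_sub, Matrix.trace_add,
    Matrix.trace_smul, Matrix.trace_kronecker, Matrix.trace_kronecker, Matrix.trace_kronecker, tr_dk, smul_eq_mul]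
  have e : (rr ℚ o o * dk ℚ k).trace =
      (((Fintype.card κ).choose k : ℕ) : ℚ) - (((Fintype.card κ - 1).choose k : ℕ) : ℚ) := by
    rw [← h]
    ring
  rw [e]
  ring

end

end C655
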