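import Pool.Agent.Helper55.C6.Spc

/-!
AllGeometricGenera (MP_b8862a_ag), sharpness C6: the explicit rational idempotent.
-/

set_option linter.unusedSectionVars false

open Matrix MH
open scoped Kronecker

namespace C655

open QU55

section
variable {κ : Type*} [Fintype κ] [LinearOrder κ] {R : Type*} [CommRing R]

theorem num_dk (k : ℕ) : (∑ i : κ, rr R i i) * dk R k = (k : R) • dk R k := by
  ext T S
  rw [dk, Matrix.mul_diagonal, sum_num, Matrix.smul_apply, Matrix.diagonal_apply, smul_eq_mul]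
  by_cases h : T = S
  · subst h
    rw [if_pos rfl, if_pos rfl]
    by_cases h2 : T.card = k
    · rw [if_pos h2, h2]
    · rw [if_neg h2, mul_zero, mul_zero]
  · rw [if_neg h, if_neg h, zero_mul, mul_zero]

theorem lam_exo_pk (k : ℕ) : lam κ R * exo κ R * pk κ R k =
    exo κ R * lam κ R * pk κ R k + ((Fintype.card κ : R) - 2 * k) • pk κ R k := by
  rw [lam_exo, Matrix.add_mul, Matrix.sub_mul, Matrix.add_mul, Matrix.smul_mul, Matrix.one_mul]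
  congr 1
  rw [pk, ← Matrix.mul_kronecker_mul, ← Matrix.mul_kronecker_mul, num_dk, Matrix.one_mul, kron_smul1, kron_smul2,
    sub_smul, ← add_smul, two_mul]

theorem pk_le (k : ℕ) : pk κ R k * (lam κ R * exo κ R) = lam κ R * exo κ R * pk κ R k := by
  rw [← Matrix.mul_assoc, ← lam_pk, Matrix.mul_assoc, ← exo_pk, Matrix.mul_assoc]

/-- the matrix to be inverted -/
def Mat (κ : Type*) [Fintype κ] [LinearOrder κ] (k : ℕ) : Matrix (Finset κ × Finset κ) (Finset κ × Finset κ) ℚ :=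
  lam κ ℚ * exo κ ℚ * pk κ ℚ k + (1 - pk κ ℚ k)

theorem Mat_pk (k : ℕ) : Mat κ k * pk κ ℚ k = lam κ ℚ * exo κ ℚ * pk κ ℚ k := by
  rw [Mat, Matrix.add_mul, Matrix.mul_assoc _ (pk κ ℚ k), pk_sq, Matrix.sub_mul, pk_sq, Matrix.one_mul, sub_self,
    add_zero]

theorem pk_Mat (k : ℕ) : pk κ ℚ k * Mat κ k = Mat κ k * pk κ ℚ k := by
  rw [Mat_pk, Mat, Matrix.mul_add, ← Matrix.mul_assoc, pk_le, Matrix.mul_assoc _ (pk κ ℚ k), pk_sq, Matrix.mul_sub,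
    pk_sq, Matrix.mul_one, sub_self, add_zero]

theorem Mat_inj {k : ℕ} (hk : 2 * k < Fintype.card κ) {v : Finset κ × Finset κ → ℚ} (hv : Mat κ k *ᵥ v = 0) :
    v = 0 := by
  have h1 : pk κ ℚ k *ᵥ v = v := by
    have e1 : (1 - pk κ ℚ k) * Mat κ k = 1 - pk κ ℚ k := by
      rw [Matrix.sub_mul, Matrix.one_mul, pk_Mat, Mat_pk, Mat]
      abel
    have e2 : (1 - pk κ ℚ k) *ᵥ v = 0 := by
      rw [← e1, ← Matrix.mulVec_mulVec, hv, Matrix.mulVec_zero]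
    rw [Matrix.sub_mulVec, Matrix.one_mulVec] at e2
    exact (sub_eq_zero.1 e2).symm
  have h2 : (lam κ ℚ * exo κ ℚ) *ᵥ v = 0 := by
    calc (lam κ ℚ * exo κ ℚ) *ᵥ v = (lam κ ℚ * exo κ ℚ) *ᵥ (pk κ ℚ k *ᵥ v) := by rw [h1]
      _ = Mat κ k *ᵥ (pk κ ℚ k *ᵥ v) := by rw [Matrix.mulVec_mulVec, ← Mat_pk, Matrix.mulVec_mulVec]
      _ = 0 := by rw [h1, hv]
  have h3 : (lam κ ℚ * exo κ ℚ) *ᵥ v = (exo κ ℚ * lam κ ℚ) *ᵥ v + ((Fintype.card κ : ℚ) - 2 * k) • v := by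
    calc (lam κ ℚ * exo κ ℚ) *ᵥ v = (lam κ ℚ * exo κ ℚ * pk κ ℚ k) *ᵥ v := by
          rw [← Matrix.mulVec_mulVec v (lam κ ℚ * exo κ ℚ), h1]
      _ = _ := by
        rw [lam_exo_pk, Matrix.add_mulVec, ← Matrix.mulVec_mulVec v (exo κ ℚ * lam κ ℚ), h1, Matrix.smul_mulVec, h1]
  have h4 : v ⬝ᵥ ((exo κ ℚ * lam κ ℚ) *ᵥ v) = (lam κ ℚ *ᵥ v) ⬝ᵥ (lam κ ℚ *ᵥ v) := by
    rw [← lam_tr, ← Matrix.mulVec_mulVec, Matrix.dotProduct_mulVec, Matrix.vecMul_transpose]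
  have h5 : (lam κ ℚ *ᵥ v) ⬝ᵥ (lam κ ℚ *ᵥ v) + ((Fintype.card κ : ℚ) - 2 * k) * (v ⬝ᵥ v) = 0 := by
    have e1 : ((Fintype.card κ : ℚ) - 2 * k) * (v ⬝ᵥ v) = v ⬝ᵥ (((Fintype.card κ : ℚ) - 2 * k) • v) := by
      rw [dotProduct_smul, smul_eq_mul]
    rw [← h4, e1, ← dotProduct_add, ← h3, h2, dotProduct_zero]
  have h6 : ∀ w : Finset κ × Finset κ → ℚ, 0 ≤ w ⬝ᵥ w := fun w => Finset.sum_nonneg fun i _ => mul_self_nonneg _
  have h7 : (0 : ℚ) < (Fintype.card κ : ℚ) - 2 * k := by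
    have : ((2 * k : ℕ) : ℚ) < (Fintype.card κ : ℚ) := by exact_mod_cast hk
    push_cast at this
    linarith
  have h8 : v ⬝ᵥ v = 0 := by
    have a1 := h6 (lam κ ℚ *ᵥ v)
    have a2 := h6 v
    have a3 : ((Fintype.card κ : ℚ) - 2 * k) * (v ⬝ᵥ v) ≤ 0 := by linarith
    have a4 : v ⬝ᵥ v ≤ 0 := by
      by_contra hc
      push Not at hc
      have := mul_pos h7 hc
      linarith
    exact le_antisymm a4 a2
  exact dotProduct_self_eq_zero.1 h8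

theorem Mat_det {k : ℕ} (hk : 2 * k < Fintype.card κ) : IsUnit (Mat κ k).det := by
  rw [isUnit_iff_ne_zero]
  intro h
  obtain ⟨v, hv, hv0⟩ := Matrix.exists_mulVec_eq_zero_iff.2 h
  exact hv (Mat_inj hk hv0)

/-- the inverse -/
noncomputable def Gk (κ : Type*) [Fintype κ] [LinearOrder κ] (k : ℕ) :
    Matrix (Finset κ × Finset κ) (Finset κ × Finset κ) ℚ := (Mat κ k)⁻¹

variable {k : ℕ} (hk : 2 * k < Fintype.card κ)

include hk in
theorem Mat_G : Mat κ k * Gk κ k = 1 := Matrix.mul_nonsing_inv _ (Mat_det hk)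

include hk in
theorem G_Mat : Gk κ k * Mat κ k = 1 := Matrix.nonsing_inv_mul _ (Mat_det hk)

include hk in
theorem G_comm {X : Matrix (Finset κ × Finset κ) (Finset κ × Finset κ) ℚ} (h : X * Mat κ k = Mat κ k * X) :
    X * Gk κ k = Gk κ k * X := by
  calc X * Gk κ k = (Gk κ k * Mat κ k) * X * Gk κ k := by rw [G_Mat hk, Matrix.one_mul]
    _ = Gk κ k * (X * Mat κ k) * Gk κ k := by rw [h]; simp only [Matrix.mul_assoc]
    _ = Gk κ k * X * (Mat κ k * Gk κ k) := by simp only [Matrix.mul_assoc]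
    _ = _ := by rw [Mat_G hk, Matrix.mul_one]

/-- the idempotent -/
noncomputable def ee (κ : Type*) [Fintype κ] [LinearOrder κ] (k : ℕ) :
    Matrix (Finset κ × Finset κ) (Finset κ × Finset κ) ℚ :=
  pk κ ℚ (k + 1) - exo κ ℚ * Gk κ k * lam κ ℚ * pk κ ℚ (k + 1)

include hk in
theorem pk_G : pk κ ℚ k * Gk κ k = Gk κ k * pk κ ℚ k := G_comm hk (pk_Mat k)

include hk in
theorem le_G_pk : lam κ ℚ * exo κ ℚ * Gk κ k * pk κ ℚ k = pk κ ℚ k := by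
  calc lam κ ℚ * exo κ ℚ * Gk κ k * pk κ ℚ k = (lam κ ℚ * exo κ ℚ * pk κ ℚ k) * Gk κ k := by
        rw [Matrix.mul_assoc _ (Gk κ k), ← pk_G hk, ← Matrix.mul_assoc]
    _ = pk κ ℚ k * (Mat κ k * Gk κ k) := by rw [← Mat_pk, ← pk_Mat, Matrix.mul_assoc]
    _ = pk κ ℚ k := by rw [Mat_G hk, Matrix.mul_one]

include hk in
theorem lam_ee : lam κ ℚ * ee κ k = 0 := by
  rw [ee, Matrix.mul_sub, sub_eq_zero]
  calc lam κ ℚ * pk κ ℚ (k + 1) = pk κ ℚ k * lam κ ℚ := lam_pk k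
    _ = lam κ ℚ * exo κ ℚ * Gk κ k * pk κ ℚ k * lam κ ℚ := by rw [le_G_pk hk]
    _ = lam κ ℚ * (exo κ ℚ * Gk κ k * lam κ ℚ * pk κ ℚ (k + 1)) := by
        simp only [Matrix.mul_assoc]
        rw [lam_pk]

include hk in
theorem pk_ee : pk κ ℚ (k + 1) * ee κ k = ee κ k := by
  have e1 : pk κ ℚ (k + 1) * (exo κ ℚ * Gk κ k * lam κ ℚ * pk κ ℚ (k + 1)) =
      exo κ ℚ * Gk κ k * lam κ ℚ * pk κ ℚ (k + 1) := by
    calc pk κ ℚ (k + 1) * (exo κ ℚ * Gk κ k * lam κ ℚ * pk κ ℚ (k + 1))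
        = (pk κ ℚ (k + 1) * exo κ ℚ) * Gk κ k * lam κ ℚ * pk κ ℚ (k + 1) := by simp only [Matrix.mul_assoc]
      _ = exo κ ℚ * (pk κ ℚ k * Gk κ k) * lam κ ℚ * pk κ ℚ (k + 1) := by
          rw [← exo_pk]
          simp only [Matrix.mul_assoc]
      _ = exo κ ℚ * Gk κ k * (pk κ ℚ k * lam κ ℚ) * pk κ ℚ (k + 1) := by
          rw [pk_G hk]
          simp only [Matrix.mul_assoc]
      _ = exo κ ℚ * Gk κ k * lam κ ℚ * (pk κ ℚ (k + 1) * pk κ ℚ (k + 1)) := by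
          rw [← lam_pk]
          simp only [Matrix.mul_assoc]
      _ = _ := by rw [pk_sq]
  rw [ee, Matrix.mul_sub, pk_sq, e1]

include hk in
theorem ee_sq : ee κ k * ee κ k = ee κ k := by
  have e1 : ee κ k * ee κ k = pk κ ℚ (k + 1) * ee κ k - exo κ ℚ * Gk κ k * (lam κ ℚ * (pk κ ℚ (k + 1) * ee κ k)) := by
    conv_lhs => enter [1]; rw [ee]
    rw [Matrix.sub_mul]
    simp only [Matrix.mul_assoc]
  rw [e1, pk_ee hk, lam_ee hk, Matrix.mul_zero, sub_zero]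

include hk in
theorem ee_comm {X : Matrix (Finset κ × Finset κ) (Finset κ × Finset κ) ℚ} (h1 : lam κ ℚ * X = X * lam κ ℚ)
    (h2 : exo κ ℚ * X = X * exo κ ℚ) (h3 : X * pk κ ℚ k = pk κ ℚ k * X)
    (h4 : X * pk κ ℚ (k + 1) = pk κ ℚ (k + 1) * X) : X * ee κ k = ee κ k * X := by
  have h5 : X * Mat κ k = Mat κ k * X := by
    rw [Mat, Matrix.mul_add, Matrix.add_mul, Matrix.mul_sub, Matrix.sub_mul, Matrix.mul_one, Matrix.one_mul, h3,
      Matrix.mul_assoc _ (pk κ ℚ k), ← h3]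
    congr 1
    calc X * (lam κ ℚ * exo κ ℚ * pk κ ℚ k) = (X * lam κ ℚ) * exo κ ℚ * pk κ ℚ k := by simp only [Matrix.mul_assoc]
      _ = lam κ ℚ * (X * exo κ ℚ) * pk κ ℚ k := by rw [← h1]; simp only [Matrix.mul_assoc]
      _ = _ := by rw [← h2]; simp only [Matrix.mul_assoc]
  have h6 := G_comm hk h5
  rw [ee, Matrix.mul_sub, Matrix.sub_mul, h4]
  congr 1
  calc X * (exo κ ℚ * Gk κ k * lam κ ℚ * pk κ ℚ (k + 1)) = (X * exo κ ℚ) * Gk κ k * lam κ ℚ * pk κ ℚ (k + 1) := by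
        simp only [Matrix.mul_assoc]
    _ = exo κ ℚ * (X * Gk κ k) * lam κ ℚ * pk κ ℚ (k + 1) := by rw [← h2]; simp only [Matrix.mul_assoc]
    _ = exo κ ℚ * Gk κ k * (X * lam κ ℚ) * pk κ ℚ (k + 1) := by rw [h6]; simp only [Matrix.mul_assoc]
    _ = exo κ ℚ * Gk κ k * lam κ ℚ * (X * pk κ ℚ (k + 1)) := by rw [← h1]; simp only [Matrix.mul_assoc]
    _ = _ := by rw [h4]; simp only [Matrix.mul_assoc]

include hk in
/-- the trace of an operator on the image -/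
theorem tr_ee {X : Matrix (Finset κ × Finset κ) (Finset κ × Finset κ) ℚ} (h2 : exo κ ℚ * X = X * exo κ ℚ) :
    (X * ee κ k).trace = (X * pk κ ℚ (k + 1)).trace - (X * pk κ ℚ k).trace := by
  rw [ee, Matrix.mul_sub, Matrix.trace_sub]
  congr 1
  calc (X * (exo κ ℚ * Gk κ k * lam κ ℚ * pk κ ℚ (k + 1))).trace
      = (exo κ ℚ * (X * Gk κ k * (lam κ ℚ * pk κ ℚ (k + 1)))).trace := by
        rw [← Matrix.mul_assoc X, ← Matrix.mul_assoc X, ← Matrix.mul_assoc X, ← h2]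
        simp only [Matrix.mul_assoc]
    _ = (X * Gk κ k * (lam κ ℚ * pk κ ℚ (k + 1)) * exo κ ℚ).trace := Matrix.trace_mul_comm _ _
    _ = (X * (Gk κ k * (lam κ ℚ * exo κ ℚ * pk κ ℚ k))).trace := by
        rw [Matrix.mul_assoc _ _ (exo κ ℚ), Matrix.mul_assoc (lam κ ℚ), ← exo_pk]
        simp only [Matrix.mul_assoc]
    _ = (X * pk κ ℚ k).trace := by
        rw [← Mat_pk, ← Matrix.mul_assoc (Gk κ k), G_Mat hk, Matrix.one_mul]

end

end C655
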