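import Pool.Agent.Helper55.C6.Spc
import Pool.Agent.Helper55.C6.Cm

/-!
AllGeometricGenera (MP_b8862a_ag), sharpness C6: the Cartan product of an exterior power and its dual is irreducible.
-/

set_option linter.unusedSectionVars false

open Matrix MH
open scoped Kronecker

namespace C655

open QU55 (vc mt vc_inj vc_mt mt_vc)

variable {κ : Type*} [Fintype κ] [LinearOrder κ]

/-- the space -/
structure Vn (n : ℕ) (X : Matrix (Finset κ) (Finset κ) ℂ) : Prop where
  deg : pk κ ℂ n *ᵥ vc X = vc X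
  low : lam κ ℂ *ᵥ vc X = 0

theorem deg_iff {n : ℕ} {X : Matrix (Finset κ) (Finset κ) ℂ} :
    pk κ ℂ n *ᵥ vc X = vc X ↔ ∀ S T, X S T ≠ 0 → S.card = n ∧ T.card = n := by
  have h : ∀ S T, (pk κ ℂ n *ᵥ vc X) (S, T) = if S.card = n ∧ T.card = n then X S T else 0 := by
    intro S T
    rw [pk, kron_vc, dk_tr]
    show (dk ℂ n * X * dk ℂ n : Matrix (Finset κ) (Finset κ) ℂ) S T = _
    rw [dk, Matrix.mul_diagonal, Matrix.diagonal_mul]
    by_cases h1 : S.card = n
    · by_cases h2 : T.card = n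
      · rw [if_pos h1, if_pos h2, if_pos ⟨h1, h2⟩, one_mul, mul_one]
      · rw [if_neg h2, if_neg (fun h : S.card = n ∧ T.card = n => h2 h.2), mul_zero]
    · rw [if_neg h1, if_neg (fun h : S.card = n ∧ T.card = n => h1 h.1), zero_mul, zero_mul]
  constructor
  · intro hX S T hne
    by_contra hc
    apply hne
    have := h S T
    rw [hX, if_neg hc] at this
    exact this
  · intro hX
    funext p
    obtain ⟨S, T⟩ := p
    rw [h]
    show _ = X S T
    by_cases hc : S.card = n ∧ T.card = n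
    · rw [if_pos hc]
    · rw [if_neg hc]
      by_contra hne
      exact hc (hX S T (Ne.symm hne))

theorem low_apply (X : Matrix (Finset κ) (Finset κ) ℂ) (S T : Finset κ) : (lam κ ℂ *ᵥ vc X) (S, T) =
    ∑ i, if i ∉ S ∧ i ∉ T then sg ℂ i S * sg ℂ i T * X (insert i S) (insert i T) else 0 := by
  rw [lam, Matrix.sum_mulVec, Finset.sum_apply]
  refine Finset.sum_congr rfl fun i _ => ?_
  rw [kron_vc, an_tr]
  show (an ℂ i * X * cr ℂ i) S T = _
  rw [mul_cr]
  by_cases h2 : i ∈ T
  · rw [if_neg (not_not.2 h2), if_neg (fun h => h.2 h2)]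
  · rw [if_pos h2, an_mul]
    by_cases h1 : i ∈ S
    · rw [if_neg (not_not.2 h1), if_neg (fun h => h.1 h1), mul_zero]
    · rw [if_pos h1, if_pos ⟨h1, h2⟩]
      ring

theorem low_iff {X : Matrix (Finset κ) (Finset κ) ℂ} : lam κ ℂ *ᵥ vc X = 0 ↔
    ∀ S T : Finset κ, (∑ i, if i ∉ S ∧ i ∉ T then sg ℂ i S * sg ℂ i T * X (insert i S) (insert i T) else 0) = 0 := by
  constructor
  · intro h S T
    rw [← low_apply, h]
    rfl
  · intro h
    funext p
    obtain ⟨S, T⟩ := p
    rw [low_apply, h]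
    rfl

theorem Vn.sub {n : ℕ} {X Y : Matrix (Finset κ) (Finset κ) ℂ} (hX : Vn n X) (hY : Vn n Y) : Vn n (X - Y) :=
  ⟨by rw [QU55.vc_sub, Matrix.mulVec_sub, hX.deg, hY.deg],
    by rw [QU55.vc_sub, Matrix.mulVec_sub, hX.low, hY.low, sub_zero]⟩

theorem Vn.smul {n : ℕ} {X : Matrix (Finset κ) (Finset κ) ℂ} (hX : Vn n X) (c : ℂ) : Vn n (c • X) :=
  ⟨by rw [QU55.vc_smul, Matrix.mulVec_smul, hX.deg],
    by rw [QU55.vc_smul, Matrix.mulVec_smul, hX.low, smul_zero]⟩

theorem Vn.ad {n : ℕ} {X : Matrix (Finset κ) (Finset κ) ℂ} (hX : Vn (n + 1) X) (i j : κ) :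
    Vn (n + 1) (rr ℂ i j * X - X * rr ℂ i j) :=
  ⟨by rw [← adk_vc, Matrix.mulVec_mulVec, ← adk_pk, ← Matrix.mulVec_mulVec, hX.deg],
    by rw [← adk_vc, Matrix.mulVec_mulVec, lam_adk, ← Matrix.mulVec_mulVec, hX.low, Matrix.mulVec_zero]⟩

/-- the weight of an entry -/
def wtf (S T : Finset κ) : κ → ℂ := fun i => (if i ∈ S then 1 else 0) - if i ∈ T then 1 else 0

/-- the matrices of weight `w` -/
def Wt (w : κ → ℂ) (X : Matrix (Finset κ) (Finset κ) ℂ) : Prop := ∀ i, rr ℂ i i * X - X * rr ℂ i i = w i • X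

theorem wt_iff {w : κ → ℂ} {X : Matrix (Finset κ) (Finset κ) ℂ} : Wt w X ↔ ∀ S T, X S T ≠ 0 → wtf S T = w := by
  have h : ∀ (i : κ) (S T : Finset κ), (rr ℂ i i * X - X * rr ℂ i i) S T = wtf S T i * X S T := by
    intro i S T
    rw [Matrix.sub_apply, rr_diag, Matrix.diagonal_mul, Matrix.mul_diagonal, wtf]
    ring
  constructor
  · intro hX S T hne
    funext i
    have h1 := h i S T
    rw [hX i, Matrix.smul_apply, smul_eq_mul] at h1
    exact (mul_right_cancel₀ hne h1).symm
  · intro hX i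
    ext S T
    rw [h, Matrix.smul_apply, smul_eq_mul]
    by_cases hne : X S T = 0
    · rw [hne, mul_zero, mul_zero]
    · rw [hX S T hne]

theorem Wt.ad {w : κ → ℂ} {X : Matrix (Finset κ) (Finset κ) ℂ} (hX : Wt w X) (a b : κ) :
    Wt (fun i => w i + ((if i = a then 1 else 0) - if i = b then 1 else 0)) (rr ℂ a b * X - X * rr ℂ a b) := by
  intro i
  have h1 : rr ℂ i i * rr ℂ a b - rr ℂ a b * rr ℂ i i =
      (((if i = a then 1 else 0) - if i = b then 1 else 0 : ℂ)) • rr ℂ a b := by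
    rw [rr_comm]
    by_cases ha : i = a
    · by_cases hb : i = b
      · rw [if_pos ha, if_pos hb.symm, if_pos ha, if_pos hb, ← ha, ← hb]
        simp
      · rw [if_pos ha, if_neg (Ne.symm hb), if_pos ha, if_neg hb, ha]
        simp
    · by_cases hb : i = b
      · rw [if_neg ha, if_pos hb.symm, if_neg ha, if_pos hb, hb]
        simp
      · rw [if_neg ha, if_neg (Ne.symm hb), if_neg ha, if_neg hb]
        simp
  have h2 := hX i
  have e1 : rr ℂ i i * (rr ℂ a b * X - X * rr ℂ a b) - (rr ℂ a b * X - X * rr ℂ a b) * rr ℂ i i =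
      (rr ℂ i i * rr ℂ a b - rr ℂ a b * rr ℂ i i) * X + rr ℂ a b * (rr ℂ i i * X - X * rr ℂ i i) -
        (rr ℂ i i * X - X * rr ℂ i i) * rr ℂ a b - X * (rr ℂ i i * rr ℂ a b - rr ℂ a b * rr ℂ i i) := by
    simp only [Matrix.mul_sub, Matrix.sub_mul, Matrix.mul_assoc]
    abel
  rw [e1, h1, h2]
  simp only [Matrix.smul_mul, Matrix.mul_smul]
  module

theorem Wt.sub {w : κ → ℂ} {X Y : Matrix (Finset κ) (Finset κ) ℂ} (hX : Wt w X) (hY : Wt w Y) : Wt w (X - Y) := by
  intro i
  have e : rr ℂ i i * (X - Y) - (X - Y) * rr ℂ i i =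
      (rr ℂ i i * X - X * rr ℂ i i) - (rr ℂ i i * Y - Y * rr ℂ i i) := by
    rw [Matrix.mul_sub, Matrix.sub_mul]
    abel
  rw [e, hX i, hY i, smul_sub]

theorem Wt.smul {w : κ → ℂ} {X : Matrix (Finset κ) (Finset κ) ℂ} (hX : Wt w X) (c : ℂ) : Wt w (c • X) := by
  intro i
  rw [Matrix.mul_smul, Matrix.smul_mul, ← smul_sub, hX i, smul_comm]

theorem single_mem {n : ℕ} {S T : Finset κ} (hd : Disjoint S T) (hS : S.card = n) (hT : T.card = n) :
    Vn n (Matrix.single S T (1 : ℂ)) := by
  constructor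
  · rw [deg_iff]
    intro S' T' hne
    rw [Matrix.single_apply] at hne
    split_ifs at hne with h
    · rw [← h.1, ← h.2]
      exact ⟨hS, hT⟩
    · exact absurd rfl hne
  · rw [low_iff]
    intro S' T'
    refine Finset.sum_eq_zero fun i _ => ?_
    split_ifs with h
    · rw [Matrix.single_apply, if_neg, mul_zero]
      rintro ⟨h1, h2⟩
      exact (Finset.disjoint_left.1 hd) (by rw [h1]; exact Finset.mem_insert_self _ _)
        (by rw [h2]; exact Finset.mem_insert_self _ _)
    · rfl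

theorem single_wt (S T : Finset κ) : Wt (wtf S T) (Matrix.single S T (1 : ℂ)) := by
  rw [wt_iff]
  intro S' T' hne
  rw [Matrix.single_apply] at hne
  split_ifs at hne with h
  · rw [← h.1, ← h.2]
  · exact absurd rfl hne

theorem extr {n : ℕ} {S T : Finset κ} (hd : Disjoint S T) (hS : S.card = n) (hT : T.card = n)
    {Y : Matrix (Finset κ) (Finset κ) ℂ} (hY : Vn n Y) (hw : Wt (wtf S T) Y) : Y = Y S T • Matrix.single S T (1 : ℂ) := by
  ext S' T'
  rw [Matrix.smul_apply, Matrix.single_apply, smul_eq_mul]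
  by_cases hne : Y S' T' = 0
  · split_ifs with h
    · rw [h.1, h.2, mul_one]
    · rw [hne, mul_zero]
  · have h1 := (wt_iff.1 hw) S' T' hne
    obtain ⟨c1, c2⟩ := (deg_iff.1 hY.deg) S' T' hne
    have k1 : S ⊆ S' := by
      intro i hi
      have h2 := congrFun h1 i
      rw [wtf, wtf, if_pos hi, if_neg (Finset.disjoint_left.1 hd hi)] at h2
      by_contra hc
      rw [if_neg hc] at h2
      split_ifs at h2 <;> norm_num at h2
    have k2 : T ⊆ T' := by
      intro i hi
      have h2 := congrFun h1 i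
      rw [wtf, wtf, if_pos hi, if_neg (Finset.disjoint_right.1 hd hi)] at h2
      by_contra hc
      rw [if_neg hc] at h2
      split_ifs at h2 <;> norm_num at h2
    have k3 : S = S' := Finset.eq_of_subset_of_card_le k1 (by rw [hS, c1])
    have k4 : T = T' := Finset.eq_of_subset_of_card_le k2 (by rw [hT, c2])
    rw [if_pos ⟨k3, k4⟩, mul_one, ← k3, ← k4]

/-- the linear maps that commute with the Lie algebra -/
structure Cm (n : ℕ) (φ : Matrix (Finset κ) (Finset κ) ℂ →ₗ[ℂ] Matrix (Finset κ) (Finset κ) ℂ) : Prop where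
  mem : ∀ X, Vn n X → Vn n (φ X)
  ad : ∀ (i j : κ) (X : Matrix (Finset κ) (Finset κ) ℂ),
    φ (rr ℂ i j * X - X * rr ℂ i j) = rr ℂ i j * φ X - φ X * rr ℂ i j

namespace Cm

variable {n : ℕ} {φ : Matrix (Finset κ) (Finset κ) ℂ →ₗ[ℂ] Matrix (Finset κ) (Finset κ) ℂ} (H : Cm n φ)
include H

theorem wt {w : κ → ℂ} {X : Matrix (Finset κ) (Finset κ) ℂ} (hX : Wt w X) : Wt w (φ X) := by
  intro i
  rw [← H.ad, hX i, map_smul]

theorem single {S T : Finset κ} (hd : Disjoint S T) (hS : S.card = n) (hT : T.card = n) :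
    φ (Matrix.single S T (1 : ℂ)) = φ (Matrix.single S T (1 : ℂ)) S T • Matrix.single S T (1 : ℂ) :=
  extr hd hS hT (H.mem _ (single_mem hd hS hT)) (H.wt (single_wt S T))

theorem scal {A B A' B' : Finset κ} (hd : Disjoint A B) (hA : A.card = n) (hB : B.card = n) (hd' : Disjoint A' B')
    (hA' : A'.card = n) (hB' : B'.card = n) :
    φ (Matrix.single A B (1 : ℂ)) A B = φ (Matrix.single A' B' (1 : ℂ)) A' B' := by
  have hs1 : ∀ (S T : Finset κ) (c : ℂ), Matrix.single S T c = c • Matrix.single S T (1 : ℂ) := by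
    intro S T c
    rw [Matrix.smul_single, smul_eq_mul, mul_one]
  refine conn (a := n) (b := n) (fun A B => φ (Matrix.single A B (1 : ℂ)) A B) ?_ ?_ ?_ _ A B A' B' hd hd' hA hB hA'
    hB' rfl
  · intro A B i j hA hB hd hj hi hiB
    obtain ⟨c, hc⟩ : ∃ c, c = φ (Matrix.single A B (1 : ℂ)) A B := ⟨_, rfl⟩
    have e0 := H.single hd hA hB
    rw [← hc] at e0
    have e1 := H.ad i j (Matrix.single A B 1)
    rw [e0, Matrix.mul_smul, Matrix.smul_mul, rr_single hj hi, single_rr0 hiB, sub_zero, smul_zero, sub_zero, hs1,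
      map_smul, smul_comm c] at e1
    have e2 : sg ℂ i (A.erase j) * (sg ℂ j (A.erase j) * 1) ≠ 0 :=
      mul_ne_zero (sg_ne _ _) (mul_ne_zero (sg_ne _ _) one_ne_zero)
    have e3 := smul_right_injective _ e2 e1
    show φ (Matrix.single (insert i (A.erase j)) B 1) (insert i (A.erase j)) B = φ (Matrix.single A B 1) A B
    rw [e3, ← hc, Matrix.smul_apply, Matrix.single_apply_same, smul_eq_mul, mul_one]
  · intro A B i j hA hB hd hi hj hjA
    obtain ⟨c, hc⟩ : ∃ c, c = φ (Matrix.single A B (1 : ℂ)) A B := ⟨_, rfl⟩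
    have e0 := H.single hd hA hB
    rw [← hc] at e0
    have e1 := H.ad i j (Matrix.single A B 1)
    rw [e0, Matrix.mul_smul, Matrix.smul_mul, rr_single0 hjA, single_rr hi hj, smul_zero, zero_sub, zero_sub, hs1,
      map_neg, map_smul, smul_comm c, neg_inj] at e1
    have e2 : sg ℂ j (B.erase i) * (sg ℂ i (B.erase i) * 1) ≠ 0 :=
      mul_ne_zero (sg_ne _ _) (mul_ne_zero (sg_ne _ _) one_ne_zero)
    have e3 := smul_right_injective _ e2 e1
    show φ (Matrix.single A (insert j (B.erase i)) 1) A (insert j (B.erase i)) = φ (Matrix.single A B 1) A B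
    rw [e3, ← hc, Matrix.smul_apply, Matrix.single_apply_same, smul_eq_mul, mul_one]
  · intro A B i j hA hB hd hj hi
    have hiA : i ∉ A := Finset.disjoint_right.1 hd hi
    have hjB : j ∉ B := Finset.disjoint_left.1 hd hj
    have hij : i ≠ j := by
      rintro rfl
      exact hiA hj
    obtain ⟨c, hc⟩ : ∃ c, c = φ (Matrix.single A B (1 : ℂ)) A B := ⟨_, rfl⟩
    have e0 := H.single hd hA hB
    rw [← hc] at e0
    have e1 := H.ad i j (rr ℂ i j * Matrix.single A B 1 - Matrix.single A B 1 * rr ℂ i j)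
    rw [H.ad i j (Matrix.single A B 1), e0] at e1
    obtain ⟨u, hu⟩ : ∃ u, u = sg ℂ i (A.erase j) * (sg ℂ j (A.erase j) * 1) := ⟨_, rfl⟩
    obtain ⟨v, hv⟩ : ∃ v, v = sg ℂ j (B.erase i) * (sg ℂ i (B.erase i) * 1) := ⟨_, rfl⟩
    have hu0 : u ≠ 0 := by
      rw [hu]
      exact mul_ne_zero (sg_ne _ _) (mul_ne_zero (sg_ne _ _) one_ne_zero)
    have hv0 : v ≠ 0 := by
      rw [hv]
      exact mul_ne_zero (sg_ne _ _) (mul_ne_zero (sg_ne _ _) one_ne_zero)
    have f1 : rr ℂ i j * Matrix.single A B 1 = u • Matrix.single (insert i (A.erase j)) B 1 := by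
      rw [rr_single hj hiA, ← hu, hs1]
    have f2 : Matrix.single A B 1 * rr ℂ i j = v • Matrix.single A (insert j (B.erase i)) 1 := by
      rw [single_rr hi hjB, ← hv, hs1]
    have g1 : j ∉ insert i (A.erase j) := by
      rw [Finset.mem_insert, not_or]
      exact ⟨Ne.symm hij, Finset.notMem_erase j A⟩
    have g2 : i ∉ insert j (B.erase i) := by
      rw [Finset.mem_insert, not_or]
      exact ⟨hij, Finset.notMem_erase i B⟩
    have f3 : rr ℂ i j * (rr ℂ i j * Matrix.single A B 1 - Matrix.single A B 1 * rr ℂ i j) -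
        (rr ℂ i j * Matrix.single A B 1 - Matrix.single A B 1 * rr ℂ i j) * rr ℂ i j =
        (-(2 * u * v)) • Matrix.single (insert i (A.erase j)) (insert j (B.erase i)) 1 := by
      have k1 : rr ℂ i j * (rr ℂ i j * Matrix.single A B 1) = 0 := by
        rw [f1, Matrix.mul_smul, rr_single0 g1, smul_zero]
      have k2 : Matrix.single A B 1 * rr ℂ i j * rr ℂ i j = 0 := by
        rw [f2, Matrix.smul_mul, single_rr0 g2, smul_zero]
      have k3 : rr ℂ i j * Matrix.single A B 1 * rr ℂ i j =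
          (u * v) • Matrix.single (insert i (A.erase j)) (insert j (B.erase i)) 1 := by
        rw [f1, Matrix.smul_mul, single_rr hi hjB, ← hv, hs1, smul_smul]
      rw [Matrix.mul_sub, Matrix.sub_mul, k1, k2, ← Matrix.mul_assoc, k3]
      module
    have f4 : rr ℂ i j * (rr ℂ i j * (c • Matrix.single A B 1) - (c • Matrix.single A B 1) * rr ℂ i j) -
        (rr ℂ i j * (c • Matrix.single A B 1) - (c • Matrix.single A B 1) * rr ℂ i j) * rr ℂ i j =
        c • ((-(2 * u * v)) • Matrix.single (insert i (A.erase j)) (insert j (B.erase i)) 1) := by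
      rw [← f3]
      simp only [Matrix.mul_smul, Matrix.smul_mul, smul_sub, Matrix.mul_sub, Matrix.sub_mul]
    rw [f3, f4, map_smul, smul_comm c] at e1
    have e2 : (-(2 * u * v)) ≠ 0 := neg_ne_zero.2 (mul_ne_zero (mul_ne_zero two_ne_zero hu0) hv0)
    have e3 := smul_right_injective _ e2 e1
    show φ (Matrix.single (insert i (A.erase j)) (insert j (B.erase i)) 1) (insert i (A.erase j))
      (insert j (B.erase i)) = φ (Matrix.single A B 1) A B
    rw [e3, ← hc, Matrix.smul_apply, Matrix.single_apply_same, smul_eq_mul, mul_one]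

end Cm

/-- a linear map that commutes with the Lie algebra is a scalar on the matrices of a weight -/
theorem Cm.all {n : ℕ} {φ : Matrix (Finset κ) (Finset κ) ℂ →ₗ[ℂ] Matrix (Finset κ) (Finset κ) ℂ} (H : Cm (n + 1) φ)
    {c : ℂ} (hc : ∀ S T : Finset κ, Disjoint S T → S.card = n + 1 → T.card = n + 1 →
      φ (Matrix.single S T (1 : ℂ)) = c • Matrix.single S T (1 : ℂ)) :
    ∀ (N : ℕ) (w : κ → ℂ) (X : Matrix (Finset κ) (Finset κ) ℂ), (Finset.univ.filter fun i => w i = 0).card = N →
      Vn (n + 1) X → Wt w X → φ X = c • X := by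
  intro N
  induction N using Nat.strong_induction_on with
  | _ N ih =>
    intro w X hN hX hw
    obtain ⟨Y, hY⟩ : ∃ Y, Y = φ X - c • X := ⟨_, rfl⟩
    have hYV : Vn (n + 1) Y := by rw [hY]; exact (H.mem _ hX).sub (hX.smul c)
    have hYw : Wt w Y := by rw [hY]; exact (H.wt hw).sub (hw.smul c)
    have hkill : ∀ a b : κ, a ≠ b → w a = 0 → w b = 0 → rr ℂ a b * Y - Y * rr ℂ a b = 0 := by
      intro a b hab ha hb
      have h1 : φ (rr ℂ a b * X - X * rr ℂ a b) = c • (rr ℂ a b * X - X * rr ℂ a b) := by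
        refine ih _ ?_ (fun i => w i + ((if i = a then 1 else 0) - if i = b then 1 else 0)) _ rfl (hX.ad a b)
          (hw.ad a b)
        rw [← hN]
        refine Finset.card_lt_card ⟨?_, ?_⟩
        · intro i hi
          rw [Finset.mem_filter] at hi ⊢
          refine ⟨hi.1, ?_⟩
          have h2 := hi.2
          by_cases hia : i = a
          · rw [hia, ha]
          · by_cases hib : i = b
            · rw [hib, hb]
            · rw [if_neg hia, if_neg hib, sub_zero, add_zero] at h2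
              exact h2
        · intro hsub
          have h2 : a ∈ Finset.univ.filter fun i => w i = 0 := Finset.mem_filter.2 ⟨Finset.mem_univ _, ha⟩
          have h3 := (Finset.mem_filter.1 (hsub h2)).2
          rw [ha, if_pos rfl, if_neg hab] at h3
          norm_num at h3
      rw [H.ad] at h1
      rw [hY, Matrix.mul_sub, Matrix.sub_mul, Matrix.mul_smul, Matrix.smul_mul]
      calc rr ℂ a b * φ X - c • (rr ℂ a b * X) - (φ X * rr ℂ a b - c • (X * rr ℂ a b))
          = (rr ℂ a b * φ X - φ X * rr ℂ a b) - c • (rr ℂ a b * X - X * rr ℂ a b) := by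
            rw [smul_sub]
            abel
        _ = 0 := by rw [h1, sub_self]
    have hY0 : Y = 0 := by
      ext S T
      show Y S T = 0
      by_contra hne
      have hwS := (wt_iff.1 hYw) S T hne
      obtain ⟨c1, c2⟩ := (deg_iff.1 hYV.deg) S T hne
      by_cases hST : Disjoint S T
      · -- an extremal weight
        rw [← hwS] at hw
        have e1 := extr hST c1 c2 hX hw
        have e2 : φ X = c • X := by
          rw [e1, map_smul, hc S T hST c1 c2, smul_comm]
        rw [e2, sub_self] at hY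
        rw [hY] at hne
        exact hne rfl
      · obtain ⟨i0, h1, h2⟩ := Finset.not_disjoint_iff.1 hST
        have n1 : i0 ∉ S.erase i0 := Finset.notMem_erase i0 S
        have n2 : i0 ∉ T.erase i0 := Finset.notMem_erase i0 T
        have w0 : w i0 = 0 := by
          rw [← hwS, wtf, if_pos h1, if_pos h2, sub_self]
        obtain ⟨z, hz⟩ : ∃ z : κ → ℂ, z = fun i => sg ℂ i (S.erase i0) * sg ℂ i (T.erase i0) *
          Y (insert i (S.erase i0)) (insert i (T.erase i0)) := ⟨_, rfl⟩
        have key : ∀ i, i ∉ S.erase i0 → i ∉ T.erase i0 → z i = z i0 := by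
          intro i k1 k2
          by_cases hi : i = i0
          · rw [hi]
          · have m1 : i ∉ S := fun h => k1 (Finset.mem_erase.2 ⟨hi, h⟩)
            have m2 : i ∉ T := fun h => k2 (Finset.mem_erase.2 ⟨hi, h⟩)
            have wi : w i = 0 := by
              rw [← hwS, wtf, if_neg m1, if_neg m2, sub_self]
            have e1 := rr_entry (R := ℂ) (a := i0) (b := i) Y n1 k1 n2 k2
            rw [hkill i0 i (Ne.symm hi) w0 wi, Matrix.zero_apply] at e1
            have s1 := sg_sq (R := ℂ) i0 (S.erase i0)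
            have s2 := sg_sq (R := ℂ) i (T.erase i0)
            rw [hz]
            show sg ℂ i (S.erase i0) * sg ℂ i (T.erase i0) * Y (insert i (S.erase i0)) (insert i (T.erase i0)) =
              sg ℂ i0 (S.erase i0) * sg ℂ i0 (T.erase i0) * Y (insert i0 (S.erase i0)) (insert i0 (T.erase i0))
            have e2 : sg ℂ i0 (S.erase i0) * (sg ℂ i (S.erase i0) * Y (insert i (S.erase i0)) (insert i (T.erase i0))) =
                sg ℂ i (T.erase i0) * (sg ℂ i0 (T.erase i0) * Y (insert i0 (S.erase i0)) (insert i0 (T.erase i0))) :=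
              (sub_eq_zero.1 e1.symm)
            calc sg ℂ i (S.erase i0) * sg ℂ i (T.erase i0) * Y (insert i (S.erase i0)) (insert i (T.erase i0))
                = (sg ℂ i0 (S.erase i0) * sg ℂ i0 (S.erase i0)) * sg ℂ i (T.erase i0) * (sg ℂ i (S.erase i0) *
                    Y (insert i (S.erase i0)) (insert i (T.erase i0))) := by rw [s1]; ring
              _ = sg ℂ i0 (S.erase i0) * sg ℂ i (T.erase i0) * (sg ℂ i0 (S.erase i0) * (sg ℂ i (S.erase i0) *
                    Y (insert i (S.erase i0)) (insert i (T.erase i0)))) := by ring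
              _ = (sg ℂ i (T.erase i0) * sg ℂ i (T.erase i0)) * (sg ℂ i0 (S.erase i0) * sg ℂ i0 (T.erase i0) *
                    Y (insert i0 (S.erase i0)) (insert i0 (T.erase i0))) := by rw [e2]; ring
              _ = _ := by rw [s2, one_mul]
        have hsum := (low_iff.1 hYV.low) (S.erase i0) (T.erase i0)
        have e3 : ∀ i, (if i ∉ S.erase i0 ∧ i ∉ T.erase i0 then sg ℂ i (S.erase i0) * sg ℂ i (T.erase i0) *
            Y (insert i (S.erase i0)) (insert i (T.erase i0)) else 0) =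
            if i ∉ S.erase i0 ∧ i ∉ T.erase i0 then z i0 else 0 := by
          intro i
          by_cases hh : i ∉ S.erase i0 ∧ i ∉ T.erase i0
          · rw [if_pos hh, if_pos hh, ← key i hh.1 hh.2, hz]
          · rw [if_neg hh, if_neg hh]
        rw [Finset.sum_congr rfl fun i _ => e3 i, ← Finset.sum_filter, Finset.sum_const, nsmul_eq_mul] at hsum
        have e4 : ((Finset.univ.filter fun i => i ∉ S.erase i0 ∧ i ∉ T.erase i0).card : ℂ) ≠ 0 := by
          have : 0 < (Finset.univ.filter fun i => i ∉ S.erase i0 ∧ i ∉ T.erase i0).card :=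
            Finset.card_pos.2 ⟨i0, Finset.mem_filter.2 ⟨Finset.mem_univ _, n1, n2⟩⟩
          exact_mod_cast this.ne'
        have e5 : z i0 = 0 := (mul_eq_zero.1 hsum).resolve_left e4
        rw [hz] at e5
        have e6 : sg ℂ i0 (S.erase i0) * sg ℂ i0 (T.erase i0) *
          Y (insert i0 (S.erase i0)) (insert i0 (T.erase i0)) = 0 := e5
        rw [Finset.insert_erase h1, Finset.insert_erase h2] at e6
        exact (mul_ne_zero (mul_ne_zero (sg_ne _ _) (sg_ne _ _)) hne) e6
    rw [hY0] at hY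
    exact (sub_eq_zero.1 hY.symm)

/-- the component of a weight -/
noncomputable def cp (w : κ → ℂ) (X : Matrix (Finset κ) (Finset κ) ℂ) : Matrix (Finset κ) (Finset κ) ℂ :=
  fun S T => haveI := Classical.dec (wtf S T = w); if wtf S T = w then X S T else 0

theorem cp_pos {w : κ → ℂ} {X : Matrix (Finset κ) (Finset κ) ℂ} {S T : Finset κ} (h : wtf S T = w) :
    cp w X S T = X S T := by
  rw [cp, if_pos h]

theorem cp_neg {w : κ → ℂ} {X : Matrix (Finset κ) (Finset κ) ℂ} {S T : Finset κ} (h : wtf S T ≠ w) :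
    cp w X S T = 0 := by
  rw [cp, if_neg h]

theorem wtf_insert {S T : Finset κ} {i : κ} (h1 : i ∉ S) (h2 : i ∉ T) : wtf (insert i S) (insert i T) = wtf S T := by
  funext j
  rw [wtf, wtf]
  by_cases hj : j = i
  · rw [hj, if_pos (Finset.mem_insert_self i S), if_pos (Finset.mem_insert_self i T), if_neg h1, if_neg h2, sub_self,
      sub_self]
  · have e1 : j ∈ insert i S ↔ j ∈ S := by rw [Finset.mem_insert]; exact ⟨fun h => h.resolve_left hj, Or.inr⟩
    have e2 : j ∈ insert i T ↔ j ∈ T := by rw [Finset.mem_insert]; exact ⟨fun h => h.resolve_left hj, Or.inr⟩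
    simp only [e1, e2]

theorem cp_mem {n : ℕ} {X : Matrix (Finset κ) (Finset κ) ℂ} (hX : Vn n X) (w : κ → ℂ) : Vn n (cp w X) := by
  constructor
  · rw [deg_iff]
    intro S T hne
    by_cases h : wtf S T = w
    · rw [cp_pos h] at hne
      exact (deg_iff.1 hX.deg) S T hne
    · rw [cp_neg h] at hne
      exact absurd rfl hne
  · rw [low_iff]
    intro S T
    by_cases h : wtf S T = w
    · refine (Finset.sum_congr rfl fun i _ => ?_).trans ((low_iff.1 hX.low) S T)
      by_cases hh : i ∉ S ∧ i ∉ T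
      · rw [if_pos hh, if_pos hh, cp_pos (by rw [wtf_insert hh.1 hh.2, h])]
      · rw [if_neg hh, if_neg hh]
    · refine Finset.sum_eq_zero fun i _ => ?_
      by_cases hh : i ∉ S ∧ i ∉ T
      · rw [if_pos hh, cp_neg (by rw [wtf_insert hh.1 hh.2]; exact h), mul_zero]
      · rw [if_neg hh]

theorem cp_wt (X : Matrix (Finset κ) (Finset κ) ℂ) (w : κ → ℂ) : Wt w (cp w X) := by
  rw [wt_iff]
  intro S T hne
  by_contra h
  exact hne (cp_neg h)

theorem sum_cp (X : Matrix (Finset κ) (Finset κ) ℂ) : ∃ W0 : Finset (κ → ℂ), X = ∑ w ∈ W0, cp w X := by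
  classical
  refine ⟨Finset.univ.image fun p : Finset κ × Finset κ => wtf p.1 p.2, ?_⟩
  ext S T
  rw [Matrix.sum_apply, Finset.sum_eq_single (wtf S T)]
  · rw [cp_pos rfl]
  · intro w _ hw
    exact cp_neg (Ne.symm hw)
  · intro h
    exact absurd (Finset.mem_image.2 ⟨(S, T), Finset.mem_univ _, rfl⟩) h

/-- **Schur's lemma.** -/
theorem Cm.main {n : ℕ} {φ : Matrix (Finset κ) (Finset κ) ℂ →ₗ[ℂ] Matrix (Finset κ) (Finset κ) ℂ}
    (H : Cm (n + 1) φ) : ∃ c : ℂ, ∀ X, Vn (n + 1) X → φ X = c • X := by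
  have h1 : ∃ c : ℂ, ∀ S T : Finset κ, Disjoint S T → S.card = n + 1 → T.card = n + 1 →
      φ (Matrix.single S T (1 : ℂ)) = c • Matrix.single S T (1 : ℂ) := by
    by_cases h : ∃ S T : Finset κ, Disjoint S T ∧ S.card = n + 1 ∧ T.card = n + 1
    · obtain ⟨S0, T0, hd0, hS0, hT0⟩ := h
      refine ⟨φ (Matrix.single S0 T0 (1 : ℂ)) S0 T0, fun S T hd hS hT => ?_⟩
      rw [H.single hd hS hT, H.scal hd hS hT hd0 hS0 hT0]
    · exact ⟨0, fun S T hd hS hT => absurd ⟨S, T, hd, hS, hT⟩ h⟩
  obtain ⟨c, hc⟩ := h1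
  refine ⟨c, fun X hX => ?_⟩
  obtain ⟨W0, hW⟩ := sum_cp X
  rw [hW, map_sum, Finset.smul_sum]
  exact Finset.sum_congr rfl fun w _ => H.all hc _ w _ rfl (cp_mem hX w) (cp_wt X w)

end C655
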