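import Pool.Agent.Helper55.C6.Comm

/-!
AllGeometricGenera (MP_b8862a_ag), sharpness C6: the Cartan products of exterior powers of the standard module of
`U(1, M)` and their duals.
-/

set_option linter.unusedSectionVars false

open Matrix MH
open scoped Kronecker

namespace C655

open SH94 (cC cC_mul cC_one cC_conj cC_inj)
open QU55 (vc mt vc_inj vc_mt mt_vc vc_smul Opr mulVec_ext Th Th_map Th_form T_vc quart)
open MH.PGN (T)

section
variable {κ : Type} [Fintype κ] [LinearOrder κ] {k : ℕ}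

theorem KC_sq (o : κ) : KC o * KC o = toC (adk (rr ℚ o o) * adk (rr ℚ o o)) := by
  rw [KC, Matrix.smul_mul, Matrix.mul_smul, smul_smul, ← toC_mul', KQ_sq, toC_neg', neg_mul_neg, Complex.I_mul_I,
    neg_smul, one_smul, neg_neg]

theorem KC_cub (o : κ) : KC o * KC o * KC o = KC o := by
  have e : toC (adk (rr ℚ o o) * adk (rr ℚ o o)) * toC (KQ o) = toC (KQ o) := by
    rw [← toC_mul', KQ, ← Matrix.mul_assoc, adk_P3]
  rw [KC_sq, KC, Matrix.mul_smul, e]

theorem KC_form (o : κ) : 1 - (2 : ℂ) • (KC o * KC o) = toC (dg ℚ o ⊗ₖ dg ℚ o) := by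
  rw [KC_sq, qq_eq, toC_sub', toC_one', toC_smul']
  norm_num

theorem opr6 (hk : 2 * (k + 1) < Fintype.card κ) (o : κ) {m : Type*} [Fintype m] [DecidableEq m]
    {B : Matrix m (Finset κ × Finset κ) ℚ} {C : Matrix (Finset κ × Finset κ) m ℚ} (h1 : B * C = 1)
    (h2 : C * B = ee κ (k + 1)) : Opr (dg ℚ o ⊗ₖ dg ℚ o) B C (KC o) := by
  refine ⟨h1, ?_, ?_, ?_, qq_tr (dg_tr o), ?_, ?_⟩
  · rw [h2, KC, Matrix.mul_smul, Matrix.smul_mul, ← toC_mul', ← toC_mul', KQ_ee hk]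
  · rw [KC_cub]
  · rw [KC]
    ext p q
    have e := congrFun (congrFun (toC_real (KQ o)) p) q
    rw [Matrix.map_apply] at e
    rw [Matrix.map_apply, Matrix.smul_apply, Matrix.neg_apply, Matrix.smul_apply, smul_eq_mul, map_mul, e]
    simp
  · have e := congrArg toC (adt_skew (dg_sq o) (dg_tr (R := ℚ) o) (rr ℚ o o))
    rw [toC_mul', toC_neg', toC_mul'] at e
    rw [KC, Matrix.transpose_smul, Matrix.smul_mul, Matrix.mul_smul, ← smul_neg]
    congr 1
  · intro v _ hv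
    have e1 : toC (dg ℚ o ⊗ₖ dg ℚ o) * toC (dg ℚ o ⊗ₖ dg ℚ o) = 1 := by
      rw [← toC_mul', qq_sq (dg_sq o), toC_one']
    rw [KC_form, Matrix.mulVec_mulVec, e1, Matrix.one_mulVec]
    have e2 : v ⬝ᵥ star v = ((∑ p, ‖v p‖ ^ 2 : ℝ) : ℂ) := by
      rw [dotProduct]
      push_cast
      refine Finset.sum_congr rfl fun p _ => ?_
      rw [Pi.star_apply, ← starRingEnd_apply, Complex.mul_conj, Complex.normSq_eq_norm_sq]
      push_cast
      rfl
    rw [e2, Complex.ofReal_re]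
    obtain ⟨p, hp⟩ := Function.ne_iff.1 hv
    refine Finset.sum_pos' (fun _ _ => sq_nonneg _) ⟨p, Finset.mem_univ _, ?_⟩
    have : 0 < ‖v p‖ := norm_pos_iff.2 hp
    positivity

theorem Vn.add {n : ℕ} {X Y : Matrix (Finset κ) (Finset κ) ℂ} (hX : Vn n X) (hY : Vn n Y) : Vn n (X + Y) :=
  ⟨by rw [QU55.vc_add, Matrix.mulVec_add, hX.deg, hY.deg],
    by rw [QU55.vc_add, Matrix.mulVec_add, hX.low, hY.low, add_zero]⟩

/-- four sets -/
theorem four_sets {n : ℕ} (hn : 2 ≤ n) (hc : 2 * n ≤ Fintype.card κ) : ∃ A A' B B' : Finset κ, A.card = n ∧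
    A'.card = n ∧ B.card = n ∧ B'.card = n ∧ Disjoint A A' ∧ Disjoint B B' ∧ A ≠ A' ∧ A ≠ B ∧ A ≠ B' ∧ A' ≠ B ∧
      A' ≠ B' ∧ B ≠ B' := by
  obtain ⟨U, -, hU⟩ := Finset.exists_subset_card_eq (s := (Finset.univ : Finset κ)) (n := 2 * n)
    (by rw [Finset.card_univ]; exact hc)
  obtain ⟨A, hAU, hA⟩ := Finset.exists_subset_card_eq (s := U) (n := n) (by omega)
  obtain ⟨A', hA'd⟩ : ∃ A', A' = U \ A := ⟨_, rfl⟩
  have hA' : A'.card = n := by
    rw [hA'd, Finset.card_sdiff_of_subset hAU]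
    omega
  have hd : Disjoint A A' := by
    rw [hA'd]
    exact Finset.disjoint_sdiff
  obtain ⟨a, ha⟩ := Finset.card_pos.1 (show 0 < A.card by omega)
  obtain ⟨a', ha'⟩ := Finset.card_pos.1 (show 0 < A'.card by omega)
  have naa' : a ∉ A' := Finset.disjoint_left.1 hd ha
  have na'a : a' ∉ A := Finset.disjoint_right.1 hd ha'
  have hne : a ≠ a' := by
    rintro rfl
    exact naa' ha'
  obtain ⟨b, hb⟩ := Finset.card_pos.1 (show 0 < (A.erase a).card by rw [Finset.card_erase_of_mem ha]; omega)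
  obtain ⟨b', hb'⟩ := Finset.card_pos.1 (show 0 < (A'.erase a').card by rw [Finset.card_erase_of_mem ha']; omega)
  rw [Finset.mem_erase] at hb hb'
  have nbA' : b ∉ A' := Finset.disjoint_left.1 hd hb.2
  have nb'A : b' ∉ A := Finset.disjoint_right.1 hd hb'.2
  refine ⟨A, A', insert a' (A.erase a), insert a (A'.erase a'), hA, hA', ?_, ?_, hd, ?_, ?_, ?_, ?_, ?_, ?_, ?_⟩
  · rw [Finset.card_insert_of_notMem (fun h => na'a (Finset.mem_of_mem_erase h)), Finset.card_erase_of_mem ha]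
    omega
  · rw [Finset.card_insert_of_notMem (fun h => naa' (Finset.mem_of_mem_erase h)), Finset.card_erase_of_mem ha']
    omega
  · rw [Finset.disjoint_insert_left, Finset.disjoint_insert_right, Finset.mem_insert, not_or]
    exact ⟨⟨Ne.symm hne, Finset.notMem_erase a' A'⟩, Finset.notMem_erase a A,
      hd.mono (Finset.erase_subset _ _) (Finset.erase_subset _ _)⟩
  · intro h
    exact naa' (h ▸ ha)
  · intro h
    apply na'a
    rw [h]
    exact Finset.mem_insert_self _ _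
  · intro h
    apply nb'A
    rw [h]
    exact Finset.mem_insert_of_mem (Finset.mem_erase.2 hb')
  · intro h
    apply nbA'
    rw [h]
    exact Finset.mem_insert_of_mem (Finset.mem_erase.2 hb)
  · intro h
    apply naa'
    rw [h]
    exact Finset.mem_insert_self _ _
  · intro h
    have h1 : a' ∈ insert a (A'.erase a') := by
      rw [← h]
      exact Finset.mem_insert_self _ _
    rw [Finset.mem_insert] at h1
    rcases h1 with h1 | h1
    · exact hne h1.symm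
    · exact Finset.notMem_erase a' A' h1

/-- the isotropic vector -/
theorem iso_vec {A A' B B' : Finset κ} (h1 : A ≠ A') (h2 : A ≠ B) (h3 : A ≠ B') (h4 : A' ≠ B) (h5 : A' ≠ B')
    (h6 : B ≠ B') {X : Matrix (Finset κ) (Finset κ) ℂ} (hX : X = Matrix.single A A' 1 + Matrix.single A' A 1 +
      Matrix.single B B' 1 - Matrix.single B' B 1) : (X * X).trace = 0 ∧ (X * X * X * X).trace = 4 ∧
      (X * Matrix.single A A' 1).trace = 1 := by
  have ne : ∀ {a b c d : Finset κ}, b ≠ c → Matrix.single a b (1 : ℂ) * Matrix.single c d 1 = 0 := by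
    intro a b c d h
    exact Matrix.single_mul_single_of_ne _ _ _ _ h _
  have eq : ∀ a b d : Finset κ, Matrix.single a b (1 : ℂ) * Matrix.single b d 1 = Matrix.single a d 1 := by
    intro a b d
    rw [Matrix.single_mul_single_same, mul_one]
  have e1 : X * X = Matrix.single A A 1 + Matrix.single A' A' 1 - Matrix.single B B 1 - Matrix.single B' B' 1 := by
    rw [hX]
    simp only [Matrix.mul_add, Matrix.add_mul, Matrix.mul_sub, Matrix.sub_mul, eq, ne h1, ne h2, ne h3, ne h4, ne h5,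
      ne h6, ne h1.symm, ne h2.symm, ne h3.symm, ne h4.symm, ne h5.symm, ne h6.symm]
    abel
  have e2 : X * X * X * X = Matrix.single A A 1 + Matrix.single A' A' 1 + Matrix.single B B 1 +
      Matrix.single B' B' 1 := by
    rw [Matrix.mul_assoc (X * X), e1]
    simp only [Matrix.mul_add, Matrix.add_mul, Matrix.mul_sub, Matrix.sub_mul, eq, ne h1, ne h2, ne h3, ne h4, ne h5,
      ne h6, ne h1.symm, ne h2.symm, ne h3.symm, ne h4.symm, ne h5.symm, ne h6.symm]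
    abel
  have e3 : X * Matrix.single A A' 1 = Matrix.single A' A' 1 := by
    rw [hX]
    simp only [Matrix.add_mul, Matrix.sub_mul, eq, ne h1.symm, ne h2.symm, ne h3.symm]
    abel
  refine ⟨?_, ?_, ?_⟩
  · rw [e1]
    simp only [Matrix.trace_sub, Matrix.trace_add, Matrix.trace_single_eq_same]
    norm_num
  · rw [e2]
    simp only [Matrix.trace_add, Matrix.trace_single_eq_same]
    norm_num
  · rw [e3, Matrix.trace_single_eq_same]

/-- **Construction C6**, for a linear order. -/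
theorem main6 (hk : 2 * (k + 1) < Fintype.card κ) (h4 : 2 * (k + 2) ≤ Fintype.card κ) (o : κ) {s h : ℕ}
    (hs : (Fintype.card κ - 1).choose (k + 2) * (Fintype.card κ).choose (k + 2) +
        (Fintype.card κ - 1).choose (k + 1) ^ 2 =
      (Fintype.card κ - 1).choose (k + 1) * (Fintype.card κ).choose (k + 1) +
        (Fintype.card κ - 1).choose (k + 2) ^ 2 + s)
    (hn : (Fintype.card κ).choose (k + 2) ^ 2 = (Fintype.card κ).choose (k + 1) ^ 2 + 2 * s + h) :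
    ∃ (n : Type) (_ : Fintype n) (_ : DecidableEq n) (Q : Matrix n n ℚ) (P : ℤ → Matrix n n ℂ), IsHW 2 Q {0, 1, 2} P ∧
      (∀ A : Matrix n n ℚ, (∀ p, toC A * P p = P p * toC A) → ∃ c : ℚ, A = c • (1 : Matrix n n ℚ)) ∧
      (P 2).rank = s ∧ (P 1).rank = h ∧ ∃ g : GL n ℂ, IsGQ 2 Q g ∧ g ∉ MT {0, 1, 2} P := by
  obtain ⟨B, C, h1, h2⟩ := SH94.exists_fact (ee_sq (κ := κ) (k := k + 1) hk)
  have HO := opr6 hk o h1 h2
  obtain ⟨D, hD⟩ : ∃ D, D = dg ℂ o := ⟨_, rfl⟩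
  have hds : D * D = 1 := by rw [hD, dg_sq]
  have hdt : Dᵀ = D := by rw [hD, dg_tr]
  have hcb : toC (C * B) = cC C * cC B := cC_mul C B
  have hTh : toC (Th (CP (dg ℚ o) C)) = Th (CP D (cC C)) := by
    show (Th (CP (dg ℚ o) C)).map (algebraMap ℚ ℂ) = _
    rw [Th_map, CP_map, dg_map, hD]
  have hte : tt D * toC (ee κ (k + 1)) = toC (ee κ (k + 1)) * tt D := by
    have := congrArg toC (tt_ee hk o)
    rw [toC_mul', toC_mul', toC_tt, ← hD] at this
    exact this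
  -- the vectors
  obtain ⟨A1, A2, A3, A4, c1, c2, c3, c4, d1, d2, n1, n2, n3, n4, n5, n6⟩ := four_sets (κ := κ) (n := k + 2)
    (by omega) h4
  obtain ⟨X, hX⟩ : ∃ X : Matrix (Finset κ) (Finset κ) ℂ, X = Matrix.single A1 A2 1 + Matrix.single A2 A1 1 +
    Matrix.single A3 A4 1 - Matrix.single A4 A3 1 := ⟨_, rfl⟩
  obtain ⟨t1, t2, t3⟩ := iso_vec n1 n2 n3 n4 n5 n6 hX
  have hXV : Vn (k + 1 + 1) X := by
    rw [hX]
    exact (((single_mem d1 c1 c2).add (single_mem d1.symm c2 c1)).add (single_mem d2 c3 c4)).sub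
      (single_mem d2.symm c4 c3)
  obtain ⟨Y, hY⟩ : ∃ Y : Matrix (Finset κ) (Finset κ) ℂ, Y = Matrix.single A1 A2 1 := ⟨_, rfl⟩
  have hYV : Vn (k + 1 + 1) Y := by
    rw [hY]
    exact single_mem d1 c1 c2
  rw [← hY] at t3
  have t4 : (Y * Y).trace = 0 := by
    rw [hY, Matrix.single_mul_single_of_ne _ _ _ _ n1.symm, Matrix.trace_zero]
  have hco : ∀ Z, Vn (k + 1 + 1) Z → cC C *ᵥ (cC B *ᵥ (Lti D *ᵥ vc Z)) = Lti D *ᵥ vc Z := by
    intro Z hZ
    rw [Matrix.mulVec_mulVec, ← hcb, h2, Matrix.mulVec_mulVec, ← Lti_comm hte, ← Matrix.mulVec_mulVec, ee_of hZ]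
  have hform : ∀ Z Z', Vn (k + 1 + 1) Z → Vn (k + 1 + 1) Z' → (cC B *ᵥ (Lti D *ᵥ vc Z)) ⬝ᵥ
      (toC (Cᵀ * (dg ℚ o ⊗ₖ dg ℚ o) * C) *ᵥ (cC B *ᵥ (Lti D *ᵥ vc Z'))) = (Z * Z').trace := by
    intro Z Z' hZ hZ'
    have hq : toC (dg ℚ o ⊗ₖ dg ℚ o) = D ⊗ₖ D := by rw [toC_kron, toC_dg, hD]
    rw [Opr.toC_sm, Matrix.mul_assoc, ← Matrix.mulVec_mulVec, ← Matrix.mulVec_mulVec, hco Z' hZ',
      Matrix.dotProduct_mulVec, Matrix.vecMul_transpose, hco Z hZ, hq]
    have e1 : (Lti D *ᵥ vc Z) ⬝ᵥ ((D ⊗ₖ D) *ᵥ (Lti D *ᵥ vc Z')) = vc Z ⬝ᵥ (T (Finset κ) ℂ *ᵥ vc Z') := by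
      rw [← Lti_form hds, ← Matrix.mulVec_mulVec, ← Matrix.mulVec_mulVec]
      conv_rhs => rw [Matrix.dotProduct_mulVec, ← Lti_tr hdt, Matrix.vecMul_transpose, Lti_tr hdt]
    rw [e1, T_vc]
  -- the conclusion
  have tre : (ee κ (k + 1)).trace = (((Fintype.card κ).choose (k + 2) : ℕ) : ℚ) ^ 2 -
      (((Fintype.card κ).choose (k + 1) : ℕ) : ℚ) ^ 2 := by
    have := tr_ee (κ := κ) (k := k + 1) hk (X := 1) (by rw [Matrix.mul_one, Matrix.one_mul])
    rw [Matrix.one_mul, Matrix.one_mul, Matrix.one_mul, tr_pk, tr_pk] at this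
    exact this
  have hcard : Fintype.card (Fin (ee κ (k + 1)).rank) = 2 * s + h := by
    have e1 : (B * C).trace = (C * B).trace := Matrix.trace_mul_comm _ _
    rw [h1, h2, Matrix.trace_one, tre] at e1
    have e2 : ((Fintype.card (Fin (ee κ (k + 1)).rank) : ℕ) : ℚ) = ((2 * s + h : ℕ) : ℚ) := by
      rw [e1]
      have e3 : (((Fintype.card κ).choose (k + 2) ^ 2 : ℕ) : ℚ) =
          (((Fintype.card κ).choose (k + 1) ^ 2 + 2 * s + h : ℕ) : ℚ) := by rw [hn]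
      push_cast at e3 ⊢
      linarith
    exact_mod_cast e2
  have htr2 : (Opr.sm B C (KC o) * Opr.sm B C (KC o)).trace = 2 * s := by
    have e0 : (adk (rr ℚ o o) * adk (rr ℚ o o) * ee κ (k + 1)).trace = 2 * (s : ℚ) := by
      rw [tr_ee (κ := κ) (k := k + 1) hk (X := adk (rr ℚ o o) * adk (rr ℚ o o)) (by
        rw [← Matrix.mul_assoc, exo_adk, Matrix.mul_assoc, exo_adk, Matrix.mul_assoc]), tr_Ppk, tr_Ppk]
      have e3 : ((((Fintype.card κ - 1).choose (k + 2) * (Fintype.card κ).choose (k + 2) +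
        (Fintype.card κ - 1).choose (k + 1) ^ 2 : ℕ)) : ℚ) = (((Fintype.card κ - 1).choose (k + 1) *
          (Fintype.card κ).choose (k + 1) + (Fintype.card κ - 1).choose (k + 2) ^ 2 + s : ℕ) : ℚ) := by rw [hs]
      push_cast at e3 ⊢
      linear_combination 2 * e3
    rw [HO.trace2, KC_sq, h2, ← toC_mul']
    have e4 : ∀ Z : Matrix (Finset κ × Finset κ) (Finset κ × Finset κ) ℚ, (toC Z).trace = ((Z.trace : ℚ) : ℂ) := by
      intro Z
      simp [toC, Matrix.trace]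
    rw [e4, e0]
    push_cast
    ring
  have htr : (Opr.sm B C (KC o)).trace = 0 := by
    have hsk := HO.skew'
    obtain ⟨q, hq⟩ : ∃ q, q = toC (Cᵀ * (dg ℚ o ⊗ₖ dg ℚ o) * C) := ⟨_, rfl⟩
    obtain ⟨z, hz⟩ : ∃ z, z = Opr.sm B C (KC o) := ⟨_, rfl⟩
    have hqd : q.det ≠ 0 := by rw [hq]; exact SH94.Q_det HO.isHW
    rw [← hq, ← hz] at hsk
    have hqu : IsUnit q.det := isUnit_iff_ne_zero.2 hqd
    have e1 : zᵀ = -(q * z * q⁻¹) := by
      calc zᵀ = zᵀ * q * q⁻¹ := by rw [Matrix.mul_assoc, Matrix.mul_nonsing_inv q hqu, Matrix.mul_one]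
        _ = _ := by rw [hsk, Matrix.neg_mul]
    have e2 : z.trace = -z.trace := by
      calc z.trace = zᵀ.trace := (Matrix.trace_transpose z).symm
        _ = -(q⁻¹ * (q * z)).trace := by rw [e1, Matrix.trace_neg, Matrix.trace_mul_comm]
        _ = -z.trace := by rw [← Matrix.mul_assoc, Matrix.nonsing_inv_mul q hqu, Matrix.one_mul]
    rw [← hz]
    linear_combination (1 / 2 : ℂ) * e2
  refine exists_struct (Θ := Th (CP (dg ℚ o) C)) (M := MM ℚ o) (x := cC B *ᵥ (Lti D *ᵥ vc X))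
    (y := cC B *ᵥ (Lti D *ᵥ vc Y)) HO ?_ ?_ (MM_skew o) ?_ ?_ ?_ ?_ ?_ ?_ htr htr2 hcard
  · rw [hTh]
    refine CP_inv (J := rr ℂ o o ⊗ₖ rot ℂ) (c := -Complex.I) HO.K_c fun Z => ?_
    have e1 : KC o *ᵥ vc Z = vc ((-Complex.I) • (rr ℂ o o * (D * Zᵀ * D) - (D * Zᵀ * D) * rr ℂ o o)) := by
      rw [KC, KQ, toC_mul', toC_adk, toC_tt, ← hD, Matrix.smul_mulVec, ← Matrix.mulVec_mulVec, tt_vc _ _ hdt, adk_vc,
        vc_smul]
    rw [e1, mt_vc, psi_smul, psi_adt hds hdt (by rw [hD]; exact dg_P o)]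
  · intro j
    rw [h2]
    exact MM_ee hk o j
  · intro j
    have hMC : MM ℚ o j * C = C * (B * MM ℚ o j * C) := by
      calc MM ℚ o j * C = MM ℚ o j * (C * (B * C)) := by rw [h1, Matrix.mul_one]
        _ = MM ℚ o j * (C * B) * C := by simp only [Matrix.mul_assoc]
        _ = (C * B) * MM ℚ o j * C := by rw [h2, MM_ee hk]
        _ = C * (B * MM ℚ o j * C) := by simp only [Matrix.mul_assoc]
    rcases j with j | j
    · refine CP_inv (J := (rr ℚ o j.1 + rr ℚ j.1 o) ⊗ₖ 1) (c := 1) hMC fun Z => ?_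
      have e1 : MM ℚ o (Sum.inl j) *ᵥ vc Z = vc ((rr ℚ o j.1 + rr ℚ j.1 o) * Z - Z * (rr ℚ o j.1 + rr ℚ j.1 o)) :=
        adk_vc _ _
      rw [e1, mt_vc, psi_ad (dg_sq o) (dg_J1 o j.2), one_smul]
    · refine CP_inv (J := (rr ℚ o j.1 - rr ℚ j.1 o) ⊗ₖ rot ℚ) (c := 1) hMC fun Z => ?_
      have e1 : MM ℚ o (Sum.inr j) *ᵥ vc Z = vc ((rr ℚ o j.1 - rr ℚ j.1 o) * (dg ℚ o * Zᵀ * dg ℚ o) -
          (dg ℚ o * Zᵀ * dg ℚ o) * (rr ℚ o j.1 - rr ℚ j.1 o)) := by
        show (adk (rr ℚ o j.1 - rr ℚ j.1 o) * tt (dg ℚ o)) *ᵥ vc Z = _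
        rw [← Matrix.mulVec_mulVec, tt_vc _ _ (dg_tr o), adk_vc]
      rw [e1, mt_vc, psi_adt (dg_sq o) (dg_tr o) (dg_J2 o j.2), one_smul]
  · intro A a1 a2 a3 a4
    rw [h2] at a1 a2 ⊢
    exact comm_main hk o a1 a2 a3 a4
  · rw [hform X X hXV hXV, t1]
  · rw [hform Y Y hYV hYV, t4]
  · rw [hform X Y hXV hYV, t3]
  · rw [hTh, Th_form, CP_vec, hco X hXV, quart_Lti hds hdt, t2]
    norm_num

end

end C655

namespace MH

/-- Construction C6 with the numbers as parameters. -/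
theorem sharp_cartan' (M i s h : ℕ) (hM : 2 * i + 3 ≤ M)
    (hs : s + M.choose (i + 1) * M.choose i = M.choose (i + 1) * M.choose (i + 2))
    (hh : h + M.choose i ^ 2 = M.choose (i + 2) ^ 2) :
    ∃ (n : Type) (_ : Fintype n) (_ : DecidableEq n) (Q : Matrix n n ℚ) (P : ℤ → Matrix n n ℂ), IsHW 2 Q {0, 1, 2} P ∧
      (∀ A : Matrix n n ℚ, (∀ p, toC A * P p = P p * toC A) → ∃ c : ℚ, A = c • (1 : Matrix n n ℚ)) ∧
      (P 2).rank = s ∧ (P 1).rank = h ∧ ∃ g : GL n ℂ, IsGQ 2 Q g ∧ g ∉ MT {0, 1, 2} P := by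
  have e1 : (M + 1).choose (i + 2) = M.choose (i + 1) + M.choose (i + 2) := Nat.choose_succ_succ M (i + 1)
  have e2 : (M + 1).choose (i + 1) = M.choose i + M.choose (i + 1) := Nat.choose_succ_succ M i
  refine C655.main6 (κ := Fin (M + 1)) (k := i) (s := s) (h := h) ?_ ?_ 0 ?_ ?_
  · rw [Fintype.card_fin]
    omega
  · rw [Fintype.card_fin]
    omega
  · rw [Fintype.card_fin, Nat.add_sub_cancel, e1, e2]
    nlinarith [hs]
  · rw [Fintype.card_fin, e1, e2]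
    nlinarith [hs, hh]

/-- **Construction C6**: the Cartan product of the exterior power `Λ^(i+2)` of the standard module of `U(1, M)` and its
dual. -/
theorem sharp_cartan (M i : ℕ) (hM : 2 * i + 3 ≤ M) :
    ∃ (n : Type) (_ : Fintype n) (_ : DecidableEq n) (Q : Matrix n n ℚ) (P : ℤ → Matrix n n ℂ), IsHW 2 Q {0, 1, 2} P ∧
      (∀ A : Matrix n n ℚ, (∀ p, toC A * P p = P p * toC A) → ∃ c : ℚ, A = c • (1 : Matrix n n ℚ)) ∧
      (P 2).rank + M.choose (i + 1) * M.choose i = M.choose (i + 1) * M.choose (i + 2) ∧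
        (P 1).rank + M.choose i ^ 2 = M.choose (i + 2) ^ 2 ∧ ∃ g : GL n ℂ, IsGQ 2 Q g ∧ g ∉ MT {0, 1, 2} P := by
  have h1 : M.choose i ≤ M.choose (i + 1) := Nat.choose_le_succ_of_lt_half_left (by omega)
  have h2 : M.choose (i + 1) ≤ M.choose (i + 2) := by
    rcases (show M = (i + 1) + (i + 2) ∨ 2 * i + 4 ≤ M by omega) with h | h
    · exact (Nat.choose_symm_of_eq_add h).le
    · exact Nat.choose_le_succ_of_lt_half_left (by omega)
  have h3 : M.choose i ≤ M.choose (i + 2) := h1.trans h2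
  have h4 : M.choose (i + 1) * (M.choose (i + 2) - M.choose i) + M.choose (i + 1) * M.choose i =
      M.choose (i + 1) * M.choose (i + 2) := by
    rw [← mul_add, Nat.sub_add_cancel h3]
  have h5 : M.choose (i + 2) ^ 2 - M.choose i ^ 2 + M.choose i ^ 2 = M.choose (i + 2) ^ 2 :=
    Nat.sub_add_cancel (Nat.pow_le_pow_left h3 2)
  obtain ⟨n, i1, i2, Q, P, H, hE, r2, r1, g⟩ := sharp_cartan' M i _ _ hM h4 h5
  exact ⟨n, i1, i2, Q, P, H, hE, by rw [r2, h4], by rw [r1, h5], g⟩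

end MH
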