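import Pool.Agent.Helper2.EX.Gen
import Pool.Agent.Helper55.QU.Not
import Pool.Agent.Helper24.PGN.GQ

/-!
AllGeometricGenera (MP_b8862a_ag), sharpness C6: generic members for the group of the isometries that preserve the quartic
form of a space of matrices.
-/

set_option linter.unusedSectionVars false

open Matrix MH
open scoped Kronecker

namespace C655

open SH94 (cC cC_mul cC_one cC_conj cC_inj)
open QU55

variable {m : Type*} [Fintype m] [DecidableEq m]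

/-- the Mumford-Tate group preserves rational quartic forms that are invariant under the cocharacter -/
theorem mt_quart {Q : Matrix m m ℚ} {Θ : Matrix (m × m) (m × m) ℚ} {h : Matrix m m ℂ} (h3 : h * h * h = h)
    (hskew : hᵀ * toC Q = -(toC Q * h)) (qd : (toC Q).det ≠ 0)
    (hinv : toC Θ * (h ⊗ₖ (1 : Matrix m m ℂ) + (1 : Matrix m m ℂ) ⊗ₖ h) =
      -((h ⊗ₖ (1 : Matrix m m ℂ) + (1 : Matrix m m ℂ) ⊗ₖ h)ᵀ * toC Θ)) {g : GL m ℂ}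
    (giso : (g : Matrix m m ℂ)ᵀ * toC Q * (g : Matrix m m ℂ) = toC Q) (hg : g ∈ MT {2, 1, 0} (PH24 h)) :
    ((g : Matrix m m ℂ)ᵀ ⊗ₖ (g : Matrix m m ℂ)ᵀ) * toC Θ * ((g : Matrix m m ℂ) ⊗ₖ (g : Matrix m m ℂ)) = toC Θ := by
  have hQd : IsUnit Q.det := by
    rw [isUnit_iff_ne_zero]
    intro h0
    apply qd
    have : (toC Q).det = algebraMap ℚ ℂ Q.det := (RingHom.map_det (algebraMap ℚ ℂ) Q).symm
    rw [this, h0, map_zero]
  have qi1 : Q * Q⁻¹ = 1 := Matrix.mul_nonsing_inv Q hQd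
  have qi2 : Q⁻¹ * Q = 1 := Matrix.nonsing_inv_mul Q hQd
  have qc1 : toC Q * toC Q⁻¹ = 1 := by
    have := congrArg (fun M : Matrix m m ℚ => M.map (algebraMap ℚ ℂ)) qi1
    simp only [Matrix.map_mul, Matrix.map_one _ (map_zero (algebraMap ℚ ℂ)) (map_one (algebraMap ℚ ℂ))] at this
    exact this
  have qc2 : toC Q⁻¹ * toC Q = 1 := by
    have := congrArg (fun M : Matrix m m ℚ => M.map (algebraMap ℚ ℂ)) qi2
    simp only [Matrix.map_mul, Matrix.map_one _ (map_zero (algebraMap ℚ ℂ)) (map_one (algebraMap ℚ ℂ))] at this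
    exact this
  obtain ⟨B4, hB4⟩ : ∃ B4 : Matrix (m × m) (m × m) ℚ, B4 = (Q⁻¹ ⊗ₖ Q⁻¹) * Θ := ⟨_, rfl⟩
  have hkm : ∀ A A' : Matrix m m ℚ, toC (A ⊗ₖ A') = toC A ⊗ₖ toC A' := by
    intro A A'
    ext p q
    simp [toC]
  have hB4c : toC B4 = (toC Q⁻¹ ⊗ₖ toC Q⁻¹) * toC Θ := by
    rw [hB4, ← hkm]
    exact Matrix.map_mul
  have hk1 : (toC Q ⊗ₖ toC Q) * (toC Q⁻¹ ⊗ₖ toC Q⁻¹) = 1 := by
    rw [← Matrix.mul_kronecker_mul, qc1, Matrix.one_kronecker_one]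
  have hk2 : (toC Q⁻¹ ⊗ₖ toC Q⁻¹) * (toC Q ⊗ₖ toC Q) = 1 := by
    rw [← Matrix.mul_kronecker_mul, qc2, Matrix.one_kronecker_one]
  have hThB : toC Θ = (toC Q ⊗ₖ toC Q) * toC B4 := by
    rw [hB4c, ← Matrix.mul_assoc, hk1, Matrix.one_mul]
  obtain ⟨DD, hDD⟩ : ∃ DD, DD = h ⊗ₖ (1 : Matrix m m ℂ) + (1 : Matrix m m ℂ) ⊗ₖ h := ⟨_, rfl⟩
  have hDQ : DDᵀ * (toC Q ⊗ₖ toC Q) = -((toC Q ⊗ₖ toC Q) * DD) := by
    have t1 : (h ⊗ₖ (1 : Matrix m m ℂ))ᵀ = hᵀ ⊗ₖ (1 : Matrix m m ℂ) := by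
      rw [← Matrix.kroneckerMap_transpose, Matrix.transpose_one]
    have t2 : ((1 : Matrix m m ℂ) ⊗ₖ h)ᵀ = (1 : Matrix m m ℂ) ⊗ₖ hᵀ := by
      rw [← Matrix.kroneckerMap_transpose, Matrix.transpose_one]
    have n1 : (-(toC Q * h)) ⊗ₖ toC Q = -((toC Q * h) ⊗ₖ toC Q) := by
      ext p q
      simp
    have n2 : toC Q ⊗ₖ (-(toC Q * h)) = -(toC Q ⊗ₖ (toC Q * h)) := by
      ext p q
      simp
    rw [hDD, Matrix.transpose_add, t1, t2, Matrix.add_mul, Matrix.mul_add, ← Matrix.mul_kronecker_mul,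
      ← Matrix.mul_kronecker_mul, ← Matrix.mul_kronecker_mul, ← Matrix.mul_kronecker_mul, Matrix.one_mul,
      Matrix.mul_one, hskew, n1, n2]
    abel
  have hcomm : DD * toC B4 = toC B4 * DD := by
    have a1 : (toC Q ⊗ₖ toC Q) * (toC B4 * DD) = (toC Q ⊗ₖ toC Q) * (DD * toC B4) := by
      rw [← Matrix.mul_assoc, ← hThB, hDD, hinv, ← hDD, hThB, ← Matrix.mul_assoc, hDQ]
      simp only [Matrix.neg_mul, neg_neg, Matrix.mul_assoc]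
    calc DD * toC B4 = (toC Q⁻¹ ⊗ₖ toC Q⁻¹) * ((toC Q ⊗ₖ toC Q) * (DD * toC B4)) := by
          rw [← Matrix.mul_assoc, hk2, Matrix.one_mul]
      _ = toC B4 * DD := by rw [← a1, ← Matrix.mul_assoc, hk2, Matrix.one_mul]
  have hId : Idm {2, 1, 0} (PH24 h) := PH24_idm h3
  have hB : ((∑ p ∈ ({2, 1, 0} : Finset ℤ), (p : ℂ) • PH24 h p) ⊗ₖ (1 : Matrix m m ℂ) +
      (1 : Matrix m m ℂ) ⊗ₖ (∑ p ∈ ({2, 1, 0} : Finset ℤ), (p : ℂ) • PH24 h p)) * toC B4 =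
      toC B4 * ((∑ p ∈ ({2, 1, 0} : Finset ℤ), (p : ℂ) • PH24 h p) ⊗ₖ (1 : Matrix m m ℂ) +
      (1 : Matrix m m ℂ) ⊗ₖ (∑ p ∈ ({2, 1, 0} : Finset ℤ), (p : ℂ) • PH24 h p)) := by
    have a1 : ((1 : Matrix m m ℂ) + h) ⊗ₖ (1 : Matrix m m ℂ) + (1 : Matrix m m ℂ) ⊗ₖ ((1 : Matrix m m ℂ) + h) =
        (2 : ℂ) • (1 : Matrix (m × m) (m × m) ℂ) + DD := by
      rw [hDD, Matrix.add_kronecker, Matrix.kronecker_add, Matrix.one_kronecker_one, two_smul]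
      abel
    rw [PH24_grade, a1, Matrix.add_mul, Matrix.mul_add, hcomm, Matrix.smul_mul, Matrix.mul_smul,
      Matrix.one_mul, Matrix.mul_one]
  have hmt := mt_comm_kron hId hB hg
  rw [hThB]
  calc ((g : Matrix m m ℂ)ᵀ ⊗ₖ (g : Matrix m m ℂ)ᵀ) * ((toC Q ⊗ₖ toC Q) * toC B4) *
        ((g : Matrix m m ℂ) ⊗ₖ (g : Matrix m m ℂ))
      = ((g : Matrix m m ℂ)ᵀ ⊗ₖ (g : Matrix m m ℂ)ᵀ) * (toC Q ⊗ₖ toC Q) *
        (toC B4 * ((g : Matrix m m ℂ) ⊗ₖ (g : Matrix m m ℂ))) := by simp only [Matrix.mul_assoc]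
    _ = (((g : Matrix m m ℂ)ᵀ ⊗ₖ (g : Matrix m m ℂ)ᵀ) * (toC Q ⊗ₖ toC Q) *
        ((g : Matrix m m ℂ) ⊗ₖ (g : Matrix m m ℂ))) * toC B4 := by rw [hmt]; simp only [Matrix.mul_assoc]
    _ = (toC Q ⊗ₖ toC Q) * toC B4 := by
        rw [← Matrix.mul_kronecker_mul, ← Matrix.mul_kronecker_mul, giso]

/-- a product of two reflections -/
theorem exists_refl2 {Q : Matrix m m ℂ} (hs : Qᵀ = Q) {b1 b2 : m → ℂ} (e11 : b1 ⬝ᵥ (Q *ᵥ b1) ≠ 0)
    (e22 : b2 ⬝ᵥ (Q *ᵥ b2) ≠ 0) (e21 : b2 ⬝ᵥ (Q *ᵥ b1) = 0) :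
    ∃ g : GL m ℂ, (g : Matrix m m ℂ)ᵀ * Q * (g : Matrix m m ℂ) = Q ∧ (g : Matrix m m ℂ).det = 1 ∧
      (g : Matrix m m ℂ) *ᵥ b1 = -b1 ∧
      ∀ z : m → ℂ, b1 ⬝ᵥ (Q *ᵥ z) = 0 → b2 ⬝ᵥ (Q *ᵥ z) = 0 → (g : Matrix m m ℂ) *ᵥ z = z := by
  have r1 := refl_sq e11
  have r2 := refl_sq e22
  have fixr : ∀ b z : m → ℂ, b ⬝ᵥ (Q *ᵥ z) = 0 → refl Q b *ᵥ z = z := by
    intro b z h
    have h' : (Q *ᵥ b) ⬝ᵥ z = 0 := by
      rw [dotProduct_comm, form_comm hs, h]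
    rw [refl_apply, h', mul_zero, zero_smul, sub_zero]
  refine ⟨⟨refl Q b1 * refl Q b2, refl Q b2 * refl Q b1,
    by rw [mul_assoc, ← mul_assoc (refl Q b2), r2, one_mul, r1],
    by rw [mul_assoc, ← mul_assoc (refl Q b1), r1, one_mul, r2]⟩, ?_, ?_, ?_, ?_⟩
  · show (refl Q b1 * refl Q b2)ᵀ * Q * (refl Q b1 * refl Q b2) = Q
    rw [Matrix.transpose_mul]
    calc (refl Q b2)ᵀ * (refl Q b1)ᵀ * Q * (refl Q b1 * refl Q b2)
        = (refl Q b2)ᵀ * ((refl Q b1)ᵀ * Q * refl Q b1) * refl Q b2 := by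
          simp only [mul_assoc]
      _ = Q := by rw [refl_isom hs e11, refl_isom hs e22]
  · show (refl Q b1 * refl Q b2).det = 1
    rw [Matrix.det_mul, refl_det e11, refl_det e22]
    norm_num
  · show (refl Q b1 * refl Q b2) *ᵥ b1 = -b1
    rw [← Matrix.mulVec_mulVec, fixr b2 b1 e21, refl_apply, dotProduct_comm (Q *ᵥ b1), div_mul_cancel₀ _ e11,
      two_smul]
    abel
  · intro z z1 z2
    show (refl Q b1 * refl Q b2) *ᵥ z = z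
    rw [← Matrix.mulVec_mulVec, fixr b2 z z2, fixr b1 z z1]

/-! ### the group of a quartic form -/

section theta

/-- the matrix of the last two arguments -/
def Mt (Θ : Matrix (m × m) (m × m) ℝ) (u v : m → ℝ) : Matrix m m ℝ :=
  fun z w => (Θ *ᵥ fun p : m × m => u p.1 * v p.2) (w, z)

theorem Mt_add1 (Θ : Matrix (m × m) (m × m) ℝ) (u u' v : m → ℝ) : Mt Θ (u + u') v = Mt Θ u v + Mt Θ u' v := by
  ext z w
  rw [Matrix.add_apply, Mt, Mt, Mt, ← Pi.add_apply, ← Matrix.mulVec_add]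
  congr 2
  funext p
  simp only [Pi.add_apply]
  ring

theorem Mt_smul1 (Θ : Matrix (m × m) (m × m) ℝ) (c : ℝ) (u v : m → ℝ) : Mt Θ (c • u) v = c • Mt Θ u v := by
  ext z w
  rw [Matrix.smul_apply, Mt, Mt, ← Pi.smul_apply, ← Matrix.mulVec_smul]
  congr 2
  funext p
  simp only [Pi.smul_apply, smul_eq_mul]
  ring

theorem Mt_add2 (Θ : Matrix (m × m) (m × m) ℝ) (u v v' : m → ℝ) : Mt Θ u (v + v') = Mt Θ u v + Mt Θ u v' := by
  ext z w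
  rw [Matrix.add_apply, Mt, Mt, Mt, ← Pi.add_apply, ← Matrix.mulVec_add]
  congr 2
  funext p
  simp only [Pi.add_apply]
  ring

theorem Mt_smul2 (Θ : Matrix (m × m) (m × m) ℝ) (c : ℝ) (u v : m → ℝ) : Mt Θ u (c • v) = c • Mt Θ u v := by
  ext z w
  rw [Matrix.smul_apply, Mt, Mt, ← Pi.smul_apply, ← Matrix.mulVec_smul]
  congr 2
  funext p
  simp only [Pi.smul_apply, smul_eq_mul]
  ring

/-- the triple product of a quartic form -/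
noncomputable def Ps (q : Matrix m m ℝ) (Θ : Matrix (m × m) (m × m) ℝ) :
    (m → ℝ) →ₗ[ℝ] (m → ℝ) →ₗ[ℝ] Matrix m m ℝ :=
  LinearMap.mk₂ ℝ (fun u v => q⁻¹ * Mt Θ u v)
    (fun u u' v => by rw [Mt_add1, Matrix.mul_add])
    (fun c u v => by rw [Mt_smul1, Matrix.mul_smul])
    (fun u v v' => by rw [Mt_add2, Matrix.mul_add])
    (fun c u v => by rw [Mt_smul2, Matrix.mul_smul])

theorem Ps_apply (q : Matrix m m ℝ) (Θ : Matrix (m × m) (m × m) ℝ) (u v : m → ℝ) : Ps q Θ u v = q⁻¹ * Mt Θ u v := rfl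

theorem kron_vec {R : Type*} [CommRing R] (M N : Matrix m m R) (u w : m → R) :
    ((M ⊗ₖ N) *ᵥ fun p : m × m => u p.1 * w p.2) = fun p : m × m => (M *ᵥ u) p.1 * (N *ᵥ w) p.2 := by
  funext p
  rw [Matrix.mulVec, dotProduct, Fintype.sum_prod_type]
  simp only [Matrix.mulVec, dotProduct, Matrix.kroneckerMap_apply, Finset.sum_mul_sum]
  refine Finset.sum_congr rfl fun i _ => Finset.sum_congr rfl fun j _ => by ring

theorem Mt_der {Θ : Matrix (m × m) (m × m) ℝ} {x : Matrix m m ℝ}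
    (h : Θ * (x ⊗ₖ (1 : Matrix m m ℝ) + (1 : Matrix m m ℝ) ⊗ₖ x) =
      -((x ⊗ₖ (1 : Matrix m m ℝ) + (1 : Matrix m m ℝ) ⊗ₖ x)ᵀ * Θ)) (u v : m → ℝ) :
    Mt Θ (x *ᵥ u) v + Mt Θ u (x *ᵥ v) = -(xᵀ * Mt Θ u v + Mt Θ u v * x) := by
  obtain ⟨f, hf⟩ : ∃ f : m × m → ℝ, f = fun p : m × m => u p.1 * v p.2 := ⟨_, rfl⟩
  obtain ⟨θ, hθ⟩ : ∃ θ, θ = Θ *ᵥ f := ⟨_, rfl⟩
  ext z w
  have e1 : (Mt Θ (x *ᵥ u) v + Mt Θ u (x *ᵥ v)) z w =
      ((Θ * (x ⊗ₖ (1 : Matrix m m ℝ) + (1 : Matrix m m ℝ) ⊗ₖ x)) *ᵥ f) (w, z) := by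
    rw [Matrix.add_apply, Mt, Mt, ← Matrix.mulVec_mulVec, Matrix.add_mulVec, hf, kron_vec, kron_vec,
      Matrix.one_mulVec, Matrix.one_mulVec, Matrix.mulVec_add, Pi.add_apply]
  have e2 : ((x ⊗ₖ (1 : Matrix m m ℝ))ᵀ *ᵥ θ) (w, z) = (Mt Θ u v * x) z w := by
    rw [Matrix.mul_apply, ← Matrix.kroneckerMap_transpose, Matrix.transpose_one, Matrix.mulVec, dotProduct,
      Fintype.sum_prod_type]
    refine Finset.sum_congr rfl fun i _ => ?_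
    rw [Finset.sum_eq_single z]
    · rw [Matrix.kroneckerMap_apply, Matrix.one_apply_eq, mul_one, Matrix.transpose_apply, Mt, ← hf, ← hθ, mul_comm]
    · intro j _ hj
      rw [Matrix.kroneckerMap_apply, Matrix.one_apply_ne (Ne.symm hj), mul_zero, zero_mul]
    · intro h
      exact absurd (Finset.mem_univ _) h
  have e3 : (((1 : Matrix m m ℝ) ⊗ₖ x)ᵀ *ᵥ θ) (w, z) = (xᵀ * Mt Θ u v) z w := by
    rw [Matrix.mul_apply, ← Matrix.kroneckerMap_transpose, Matrix.transpose_one, Matrix.mulVec, dotProduct,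
      Fintype.sum_prod_type, Finset.sum_comm]
    refine Finset.sum_congr rfl fun i _ => ?_
    rw [Finset.sum_eq_single w]
    · rw [Matrix.kroneckerMap_apply, Matrix.one_apply_eq, one_mul, Matrix.transpose_apply, Mt, ← hf, ← hθ]
    · intro j _ hj
      rw [Matrix.kroneckerMap_apply, Matrix.one_apply_ne (Ne.symm hj), zero_mul, zero_mul]
    · intro h
      exact absurd (Finset.mem_univ _) h
  rw [e1, h, Matrix.neg_mulVec, Pi.neg_apply, ← Matrix.mulVec_mulVec, ← hθ, Matrix.transpose_add, Matrix.add_mulVec,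
    Pi.add_apply, e2, e3, Matrix.neg_apply, Matrix.add_apply, add_comm]

theorem Mt_iso {Θ : Matrix (m × m) (m × m) ℝ} {g : Matrix m m ℝ}
    (h : ∀ u v, gᵀ * Mt Θ (g *ᵥ u) (g *ᵥ v) * g = Mt Θ u v) : (gᵀ ⊗ₖ gᵀ) * Θ * (g ⊗ₖ g) = Θ := by
  ext ⟨w, z⟩ ⟨i, j⟩
  have hv : (fun p : m × m => (Pi.single i 1 : m → ℝ) p.1 * (Pi.single j 1 : m → ℝ) p.2) =
      (Pi.single (i, j) 1 : m × m → ℝ) := by
    funext p
    obtain ⟨a, b⟩ := p
    rw [Pi.single_apply, Pi.single_apply, Pi.single_apply]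
    by_cases ha : a = i
    · by_cases hb : b = j
      · rw [if_pos ha, if_pos hb, if_pos (by rw [ha, hb]), one_mul]
      · rw [if_neg hb, mul_zero, if_neg]
        intro h'
        exact hb (congrArg Prod.snd h')
    · rw [if_neg ha, zero_mul, if_neg]
      intro h'
      exact ha (congrArg Prod.fst h')
  have e := congrFun (congrFun (h (Pi.single i 1) (Pi.single j 1)) z) w
  have e1 : Mt Θ (Pi.single i 1) (Pi.single j 1) z w = Θ (w, z) (i, j) := by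
    rw [Mt, hv, Matrix.mulVec_single_one]
    rfl
  rw [e1] at e
  rw [← e]
  have e2 : ((gᵀ ⊗ₖ gᵀ) * Θ * (g ⊗ₖ g)) (w, z) (i, j) =
      (((gᵀ ⊗ₖ gᵀ) * Θ * (g ⊗ₖ g)) *ᵥ (Pi.single (i, j) 1 : m × m → ℝ)) (w, z) := by
    rw [Matrix.mulVec_single_one]
    rfl
  rw [e2, ← hv, ← Matrix.mulVec_mulVec, kron_vec, ← Matrix.mulVec_mulVec]
  obtain ⟨θ, hθ⟩ : ∃ θ, θ = Θ *ᵥ fun p : m × m => (g *ᵥ (Pi.single i 1 : m → ℝ)) p.1 *
      (g *ᵥ (Pi.single j 1 : m → ℝ)) p.2 := ⟨_, rfl⟩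
  rw [← hθ, Matrix.mulVec, dotProduct, Fintype.sum_prod_type, Matrix.mul_apply]
  refine Finset.sum_congr rfl fun a _ => ?_
  rw [Matrix.mul_apply, Finset.sum_mul]
  refine Finset.sum_congr rfl fun b _ => ?_
  rw [Matrix.kroneckerMap_apply, Mt, ← hθ, Matrix.transpose_apply, Matrix.transpose_apply]
  ring

/-- **Generic members for the group of the isometries that preserve a quartic form.** -/
theorem member_theta {w : ℤ} {Q : Matrix m m ℚ} {S : Finset ℤ} {P : ℤ → Matrix m m ℂ} (H : IsHW w Q S P)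
    (Θ : Matrix (m × m) (m × m) ℝ)
    (hcomm : ∀ A : Matrix m m ℂ, (∀ p, A * P p = P p * A) →
      (∀ x : Matrix m m ℝ, xᵀ * toR Q + toR Q * x = 0 →
        Θ * (x ⊗ₖ (1 : Matrix m m ℝ) + (1 : Matrix m m ℝ) ⊗ₖ x) =
          -((x ⊗ₖ (1 : Matrix m m ℝ) + (1 : Matrix m m ℝ) ⊗ₖ x)ᵀ * Θ) → ∀ p,
        A * (rC x * P p - P p * rC x) = (rC x * P p - P p * rC x) * A) → ∃ c : ℂ, A = c • (1 : Matrix m m ℂ)) :
    ∃ g gi : Matrix m m ℝ, g * gi = 1 ∧ gi * g = 1 ∧ gᵀ * toR Q * g = toR Q ∧ (gᵀ ⊗ₖ gᵀ) * Θ * (g ⊗ₖ g) = Θ ∧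
      IsHW w Q S (fun p => rC g * P p * rC gi) ∧
      ∀ A : Matrix m m ℚ, (∀ p, toC A * (rC g * P p * rC gi) = (rC g * P p * rC gi) * toC A) →
        ∃ c : ℚ, A = c • (1 : Matrix m m ℚ) := by
  have hq := H.isUnit_toR
  obtain ⟨q, hqd⟩ : ∃ q, q = toR Q := ⟨_, rfl⟩
  have qi1 : q * q⁻¹ = 1 := by rw [hqd]; exact Matrix.mul_nonsing_inv _ hq
  have qi2 : q⁻¹ * q = 1 := by rw [hqd]; exact Matrix.nonsing_inv_mul _ hq
  obtain ⟨g, gi, g1, g2, g3, g4, g5, g6⟩ := exists_member2 H (Ps q Θ) (by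
    intro A hA hA2
    refine hcomm A hA fun x hx1 hx2 p => hA2 x hx1 (fun u v => ?_) p
    have e1 := Mt_der hx2 u v
    have e2 : q⁻¹ * xᵀ = -(x * q⁻¹) := by
      have e3 : xᵀ * q = -(q * x) := by
        rw [hqd]
        exact eq_neg_of_add_eq_zero_left hx1
      calc q⁻¹ * xᵀ = q⁻¹ * (xᵀ * q) * q⁻¹ := by rw [mul_assoc, mul_assoc, qi1, mul_one]
        _ = -(x * q⁻¹) := by rw [e3, mul_neg, neg_mul, ← mul_assoc, qi2, one_mul]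
    rw [Ps_apply, Ps_apply, Ps_apply, ← mul_add, e1, mul_neg, mul_add, ← mul_assoc, e2, ← mul_assoc, neg_mul, neg_add,
      neg_neg, ← sub_eq_add_neg, mul_assoc x])
  refine ⟨g, gi, g1, g2, g3, ?_, g5, g6⟩
  apply Mt_iso
  intro u v
  have e1 := g4 u v
  rw [Ps_apply, Ps_apply] at e1
  have e2 : Mt Θ (g *ᵥ u) (g *ᵥ v) * g = q * g * (q⁻¹ * Mt Θ u v) := by
    rw [mul_assoc q, ← e1, ← mul_assoc, ← mul_assoc, qi1, one_mul]
  rw [mul_assoc, e2, ← mul_assoc, ← mul_assoc, ← mul_assoc, hqd, g3, ← hqd, mul_assoc, ← mul_assoc q, qi1, one_mul]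

end theta

end C655
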