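import Pool.Agent.Helper55.C6.Tw

/-!
AllGeometricGenera (MP_b8862a_ag), sharpness C6: the rational quartic form.
-/

set_option linter.unusedSectionVars false

open Matrix MH
open scoped Kronecker

namespace C655

open QU55

section
variable {W V : Type*} [Fintype W] [DecidableEq W] [Fintype V] [DecidableEq V] {K : Type*} [Field K]

theorem kn1 (A : Matrix W W K) (B : Matrix V V K) : (-A) ⊗ₖ B = -(A ⊗ₖ B) := by
  ext p q
  simp

theorem kn2 (A : Matrix W W K) (B : Matrix V V K) : A ⊗ₖ (-B) = -(A ⊗ₖ B) := by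
  ext p q
  simp

theorem ks1 (A A' : Matrix W W K) (B : Matrix V V K) : (A - A') ⊗ₖ B = A ⊗ₖ B - A' ⊗ₖ B := by
  ext p q
  simp [sub_mul]

/-- the rotation -/
def rot (K : Type*) [Field K] : Matrix (Fin 2) (Fin 2) K := !![0, -1; 1, 0]

theorem rot_sq : rot K * rot K = -1 := by
  ext i j
  fin_cases i <;> fin_cases j <;> simp [rot, Matrix.mul_apply, Fin.sum_univ_two]

theorem rot_trace : (rot K).trace = 0 := by
  rw [Matrix.trace, Fin.sum_univ_two]
  simp [rot]

theorem rot_map {K' : Type*} [Field K'] (f : K →+* K') : (rot K).map f = rot K' := by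
  ext i j
  fin_cases i <;> fin_cases j <;> simp [rot]

/-- hermitian matrices as rational matrices -/
def psi (D X : Matrix W W K) : Matrix (W × Fin 2) (W × Fin 2) K :=
  (1 / 2 : K) • ((X + D * Xᵀ * D) ⊗ₖ (1 : Matrix (Fin 2) (Fin 2) K) + (X - D * Xᵀ * D) ⊗ₖ rot K)

theorem psi_add (D X Y : Matrix W W K) : psi D (X + Y) = psi D X + psi D Y := by
  rw [psi, psi, psi, Matrix.transpose_add, Matrix.mul_add, Matrix.add_mul, ← smul_add]
  congr 1
  have e1 : X + Y + (D * Xᵀ * D + D * Yᵀ * D) = (X + D * Xᵀ * D) + (Y + D * Yᵀ * D) := by abel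
  have e2 : X + Y - (D * Xᵀ * D + D * Yᵀ * D) = (X - D * Xᵀ * D) + (Y - D * Yᵀ * D) := by abel
  rw [e1, e2, Matrix.add_kronecker (X + D * Xᵀ * D), Matrix.add_kronecker (X - D * Xᵀ * D)]
  abel

theorem psi_smul (D X : Matrix W W K) (c : K) : psi D (c • X) = c • psi D X := by
  rw [psi, psi, Matrix.transpose_smul, Matrix.mul_smul, Matrix.smul_mul, ← smul_add, ← smul_sub,
    Matrix.smul_kronecker, Matrix.smul_kronecker, ← smul_add, smul_comm]

theorem psi_sum {m : Type*} [Fintype m] (D : Matrix W W K) (c : m → K) (X : m → Matrix W W K) :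
    psi D (∑ i, c i • X i) = ∑ i, c i • psi D (X i) := by
  let F : Matrix W W K →ₗ[K] Matrix (W × Fin 2) (W × Fin 2) K :=
    { toFun := psi D
      map_add' := psi_add D
      map_smul' := fun c X => psi_smul D X c }
  have h : ∀ X, psi D X = F X := fun _ => rfl
  rw [h, map_sum]
  exact Finset.sum_congr rfl fun i _ => by rw [map_smul, h]

theorem psi_map {K' : Type*} [Field K'] (f : K →+* K') (D X : Matrix W W K) :
    (psi D X).map f = psi (D.map f) (X.map f) := by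
  have e1 : (1 : Matrix (Fin 2) (Fin 2) K).map f = 1 := Matrix.map_one _ (map_zero f) (map_one f)
  have hk : ∀ (A : Matrix W W K) (B : Matrix (Fin 2) (Fin 2) K), (A ⊗ₖ B).map f = A.map f ⊗ₖ B.map f := by
    intro A B
    ext p q
    simp
  have hs : ∀ (c : K) (A : Matrix (W × Fin 2) (W × Fin 2) K), (c • A).map f = f c • A.map f := by
    intro c A
    ext p q
    simp
  rw [psi, psi, hs, Matrix.map_add _ (map_add f), hk, hk, e1, rot_map, Matrix.map_add _ (map_add f),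
    Matrix.map_sub _ (map_sub f), Matrix.map_mul, Matrix.map_mul, Matrix.transpose_map, map_div₀, map_one, map_ofNat]

variable {D : Matrix W W K} (hs : D * D = 1) (ht : Dᵀ = D)

include hs ht in
theorem tw_tw (X : Matrix W W K) : D * (D * Xᵀ * D)ᵀ * D = X := by
  rw [Matrix.transpose_mul, Matrix.transpose_mul, Matrix.transpose_transpose, ht]
  calc D * (D * (X * D)) * D = (D * D) * X * (D * D) := by simp only [Matrix.mul_assoc]
    _ = X := by rw [hs, Matrix.one_mul, Matrix.mul_one]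

include hs in
theorem tw_mul (X Y : Matrix W W K) : D * (X * Y)ᵀ * D = (D * Yᵀ * D) * (D * Xᵀ * D) := by
  calc D * (X * Y)ᵀ * D = D * Yᵀ * (1 * Xᵀ) * D := by
        rw [Matrix.transpose_mul, Matrix.one_mul]
        simp only [Matrix.mul_assoc]
    _ = _ := by rw [← hs]; simp only [Matrix.mul_assoc]

include hs in
theorem psi_ad {J : Matrix W W K} (h : D * Jᵀ * D = -J) (X : Matrix W W K) :
    psi D (J * X - X * J) = (J ⊗ₖ 1) * psi D X - psi D X * (J ⊗ₖ 1) := by
  have e1 : D * (J * X - X * J)ᵀ * D = J * (D * Xᵀ * D) - (D * Xᵀ * D) * J := by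
    rw [Matrix.transpose_sub, Matrix.mul_sub, Matrix.sub_mul, tw_mul hs, tw_mul hs, h]
    simp only [Matrix.mul_neg, Matrix.neg_mul]
    abel
  obtain ⟨t, ht⟩ : ∃ t, t = D * Xᵀ * D := ⟨_, rfl⟩
  rw [psi, psi, e1, ← ht, Matrix.mul_smul, Matrix.smul_mul, ← smul_sub]
  congr 1
  rw [Matrix.mul_add, Matrix.add_mul, ← Matrix.mul_kronecker_mul, ← Matrix.mul_kronecker_mul,
    ← Matrix.mul_kronecker_mul, ← Matrix.mul_kronecker_mul]
  simp only [Matrix.one_mul, Matrix.mul_one, Matrix.mul_add, Matrix.add_mul, Matrix.mul_sub, Matrix.sub_mul,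
    Matrix.add_kronecker, ks1]
  abel

include hs ht in
theorem psi_adt {J : Matrix W W K} (h : D * Jᵀ * D = J) (X : Matrix W W K) :
    psi D (J * (D * Xᵀ * D) - (D * Xᵀ * D) * J) = (J ⊗ₖ rot K) * psi D X - psi D X * (J ⊗ₖ rot K) := by
  have e1 : D * (J * (D * Xᵀ * D) - (D * Xᵀ * D) * J)ᵀ * D = X * J - J * X := by
    rw [Matrix.transpose_sub, Matrix.mul_sub, Matrix.sub_mul, tw_mul hs J, tw_mul hs _ J, h, tw_tw hs ht]
  obtain ⟨t, ht⟩ : ∃ t, t = D * Xᵀ * D := ⟨_, rfl⟩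
  rw [psi, psi, e1, ← ht, Matrix.mul_smul, Matrix.smul_mul, ← smul_sub]
  congr 1
  rw [Matrix.mul_add, Matrix.add_mul, ← Matrix.mul_kronecker_mul, ← Matrix.mul_kronecker_mul,
    ← Matrix.mul_kronecker_mul, ← Matrix.mul_kronecker_mul, rot_sq]
  simp only [Matrix.one_mul, Matrix.mul_one, Matrix.mul_add, Matrix.add_mul, Matrix.mul_sub, Matrix.sub_mul,
    Matrix.add_kronecker, ks1, kn2]
  abel

variable {m : Type*} [Fintype m] [DecidableEq m]

/-- the columns -/
def CP (D : Matrix W W K) (C : Matrix (W × W) m K) : Matrix ((W × Fin 2) × (W × Fin 2)) m K :=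
  fun p i => psi D (vv C i) p.1 p.2

theorem vv_CP (D : Matrix W W K) (C : Matrix (W × W) m K) (i : m) : vv (CP D C) i = psi D (vv C i) := rfl

theorem CP_map {K' : Type*} [Field K'] (f : K →+* K') (D : Matrix W W K) (C : Matrix (W × W) m K) :
    (CP D C).map f = CP (D.map f) (C.map f) := by
  ext p i
  show f (psi D (vv C i) p.1 p.2) = psi (D.map f) (vv (C.map f) i) p.1 p.2
  have e : vv (C.map f) i = (vv C i).map f := rfl
  rw [e, ← psi_map]
  rfl

theorem CP_inv {D : Matrix W W K} {C : Matrix (W × W) m K} {M : Matrix (W × W) (W × W) K} {H : Matrix m m K}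
    (hMC : M * C = C * H) {J : Matrix (W × Fin 2) (W × Fin 2) K} {c : K}
    (h : ∀ X, psi D (mt (M *ᵥ vc X)) = c • (J * psi D X - psi D X * J)) :
    Th (CP D C) * (H ⊗ₖ (1 : Matrix m m K) + (1 : Matrix m m K) ⊗ₖ H) =
      -((H ⊗ₖ (1 : Matrix m m K) + (1 : Matrix m m K) ⊗ₖ H)ᵀ * Th (CP D C)) := by
  refine Th_inv (J := J) (c := c) fun i => ?_
  have e1 : mt (M *ᵥ vc (vv C i)) = ∑ i', H i' i • vv C i' := by
    rw [← mt_mulVec]
    congr 1
    have e2 : M *ᵥ vc (vv C i) = fun p => (M * C) p i := rfl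
    have e3 : (C *ᵥ fun i' => H i' i) = fun p => (C * H) p i := rfl
    rw [e2, e3, hMC]
  rw [vv_CP, ← h, e1, psi_sum]
  rfl

theorem CP_vec (D : Matrix W W K) (C : Matrix (W × W) m K) (x : m → K) :
    mt (CP D C *ᵥ x) = psi D (mt (C *ᵥ x)) := by
  rw [mt_mulVec, mt_mulVec, psi_sum]
  rfl

end

section
variable {W : Type*} [Fintype W] [DecidableEq W] {D : Matrix W W ℂ} (hs : D * D = 1) (ht : Dᵀ = D)

/-- the two idempotents -/
noncomputable def πp : Matrix (Fin 2) (Fin 2) ℂ := (1 / 2 : ℂ) • (1 - Complex.I • rot ℂ)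

/-- the two idempotents -/
noncomputable def πm : Matrix (Fin 2) (Fin 2) ℂ := (1 / 2 : ℂ) • (1 + Complex.I • rot ℂ)

theorem Irot_sq : (Complex.I • rot ℂ) * (Complex.I • rot ℂ) = 1 := by
  rw [Matrix.smul_mul, Matrix.mul_smul, rot_sq, smul_smul, Complex.I_mul_I, neg_smul, one_smul, neg_neg]

theorem πp_sq : πp * πp = πp := by
  rw [πp, Matrix.smul_mul, Matrix.mul_smul, Matrix.sub_mul, Matrix.mul_sub, Matrix.mul_sub, Irot_sq]
  simp only [Matrix.one_mul, Matrix.mul_one]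
  module

theorem πm_sq : πm * πm = πm := by
  rw [πm, Matrix.smul_mul, Matrix.mul_smul, Matrix.add_mul, Matrix.mul_add, Matrix.mul_add, Irot_sq]
  simp only [Matrix.one_mul, Matrix.mul_one]
  module

theorem πpm : πp * πm = 0 := by
  rw [πp, πm, Matrix.smul_mul, Matrix.mul_smul, Matrix.sub_mul, Matrix.mul_add, Matrix.mul_add, Irot_sq]
  simp only [Matrix.one_mul, Matrix.mul_one]
  module

theorem πmp : πm * πp = 0 := by
  rw [πp, πm, Matrix.smul_mul, Matrix.mul_smul, Matrix.add_mul, Matrix.mul_sub, Matrix.mul_sub, Irot_sq]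
  simp only [Matrix.one_mul, Matrix.mul_one]
  module

theorem πp_trace : πp.trace = 1 := by
  rw [πp, Matrix.trace_smul, Matrix.trace_sub, Matrix.trace_smul, rot_trace, Matrix.trace_one, Fintype.card_fin]
  simp

theorem πm_trace : πm.trace = 1 := by
  rw [πm, Matrix.trace_smul, Matrix.trace_add, Matrix.trace_smul, rot_trace, Matrix.trace_one, Fintype.card_fin]
  simp

include hs ht in
theorem psi_Lti (X : Matrix W W ℂ) : psi D (mt (Lti D *ᵥ vc X)) = X ⊗ₖ πp + (D * Xᵀ * D) ⊗ₖ πm := by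
  obtain ⟨t, htt⟩ : ∃ t, t = D * Xᵀ * D := ⟨_, rfl⟩
  have e0 : D * tᵀ * D = X := by rw [htt, tw_tw hs ht]
  rw [Lti_vc X ht, mt_vc, ← htt, psi]
  have e1 : D * ((1 / 2 : ℂ) • (X + t) - (Complex.I / 2) • (X - t))ᵀ * D =
      (1 / 2 : ℂ) • (t + X) - (Complex.I / 2) • (t - X) := by
    simp only [Matrix.transpose_sub, Matrix.transpose_add, Matrix.transpose_smul, Matrix.mul_sub, Matrix.mul_add,
      Matrix.sub_mul, Matrix.add_mul, Matrix.mul_smul, Matrix.smul_mul, e0, ← htt]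
  have e2 : (1 / 2 : ℂ) • (X + t) - (Complex.I / 2) • (X - t) + ((1 / 2 : ℂ) • (t + X) - (Complex.I / 2) • (t - X)) =
      X + t := by module
  have e3 : (1 / 2 : ℂ) • (X + t) - (Complex.I / 2) • (X - t) - ((1 / 2 : ℂ) • (t + X) - (Complex.I / 2) • (t - X)) =
      (-Complex.I) • (X - t) := by module
  rw [e1, e2, e3, πp, πm, Matrix.smul_kronecker, Matrix.kronecker_smul, Matrix.kronecker_smul, Matrix.kronecker_add,
    Matrix.add_kronecker, ks1, Matrix.kronecker_smul]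
  have e4 : X ⊗ₖ ((1 : Matrix (Fin 2) (Fin 2) ℂ) - Complex.I • rot ℂ) =
      X ⊗ₖ (1 : Matrix (Fin 2) (Fin 2) ℂ) - Complex.I • (X ⊗ₖ rot ℂ) := by
    rw [← Matrix.kronecker_smul, sub_eq_add_neg, Matrix.kronecker_add, kn2, ← sub_eq_add_neg]
  rw [e4]
  module

include hs ht in
theorem quart_Lti (X : Matrix W W ℂ) : quart (psi D (mt (Lti D *ᵥ vc X))) (psi D (mt (Lti D *ᵥ vc X)))
    (psi D (mt (Lti D *ᵥ vc X))) (psi D (mt (Lti D *ᵥ vc X))) = 2 * (X * X * X * X).trace := by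
  rw [psi_Lti hs ht, quart]
  obtain ⟨t, htt⟩ : ∃ t, t = D * Xᵀ * D := ⟨_, rfl⟩
  rw [← htt]
  have h : ∀ A B A' B' : Matrix W W ℂ, (A ⊗ₖ πp + B ⊗ₖ πm) * (A' ⊗ₖ πp + B' ⊗ₖ πm) = (A * A') ⊗ₖ πp + (B * B') ⊗ₖ πm := by
    intro A B A' B'
    rw [Matrix.add_mul, Matrix.mul_add, Matrix.mul_add, ← Matrix.mul_kronecker_mul, ← Matrix.mul_kronecker_mul,
      ← Matrix.mul_kronecker_mul, ← Matrix.mul_kronecker_mul, πp_sq, πm_sq, πpm, πmp, Matrix.kronecker_zero,
      Matrix.kronecker_zero, add_zero, zero_add]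
  rw [h, h, h, Matrix.trace_add, Matrix.trace_kronecker, Matrix.trace_kronecker, πp_trace, πm_trace, mul_one, mul_one]
  have e1 : t * t * t * t = D * (X * X * X * X)ᵀ * D := by
    rw [tw_mul hs, tw_mul hs, tw_mul hs, ← htt]
    simp only [Matrix.mul_assoc]
  have e2 : (t * t * t * t).trace = (X * X * X * X).trace := by
    rw [e1, Matrix.trace_mul_comm, ← Matrix.mul_assoc, hs, Matrix.one_mul, Matrix.trace_transpose]
  rw [e2]
  ring

end

end C655
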