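import Pool.Agent.Helper55.C6.Irr
import Pool.Agent.Helper55.C6.Psi
import Pool.Agent.Helper55.C6.Dim

/-!
AllGeometricGenera (MP_b8862a_ag), sharpness C6: the Cartan products of exterior powers of the standard module of
`U(1, M)` and their duals.
-/

set_option linter.unusedSectionVars false

open Matrix MH
open scoped Kronecker

namespace C655

open SH94 (cC cC_mul cC_one cC_conj cC_inj)
open QU55 (vc mt vc_inj vc_mt mt_vc vc_smul Opr mulVec_ext Th Th_map Th_form T_vc quart)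
open MH.PGN (T)

section
variable {κ : Type} [Fintype κ] [LinearOrder κ] {R : Type*} [CommRing R]

theorem dg_J1 (o : κ) {j : κ} (hj : j ≠ o) : dg R o * (rr R o j + rr R j o)ᵀ * dg R o = -(rr R o j + rr R j o) := by
  rw [Matrix.transpose_add, rr_tr, rr_tr, Matrix.mul_add, Matrix.add_mul, dg_rr, dg_rr, if_pos rfl, if_neg hj]
  module

theorem dg_J2 (o : κ) {j : κ} (hj : j ≠ o) : dg R o * (rr R o j - rr R j o)ᵀ * dg R o = rr R o j - rr R j o := by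
  rw [Matrix.transpose_sub, rr_tr, rr_tr, Matrix.mul_sub, Matrix.sub_mul, dg_rr, dg_rr, if_pos rfl, if_neg hj]
  module

theorem dg_P (o : κ) : dg R o * (rr R o o)ᵀ * dg R o = rr R o o := by
  rw [rr_tr, dg_rr, if_pos rfl]
  module

/-- the noncompact elements of the Lie algebra -/
def MM (R : Type*) [CommRing R] (o : κ) : {j : κ // j ≠ o} ⊕ {j : κ // j ≠ o} →
    Matrix (Finset κ × Finset κ) (Finset κ × Finset κ) R :=
  Sum.elim (fun j => adk (rr R o j.1 + rr R j.1 o)) (fun j => adk (rr R o j.1 - rr R j.1 o) * tt (dg R o))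

theorem MM_skew (o : κ) (j : {j : κ // j ≠ o} ⊕ {j : κ // j ≠ o}) :
    (MM R o j)ᵀ * (dg R o ⊗ₖ dg R o) = -((dg R o ⊗ₖ dg R o) * MM R o j) := by
  rcases j with j | j
  · exact adk_skew (dg_sq o) (dg_tr o) (dg_J1 o j.2)
  · exact adt_skew (dg_sq o) (dg_tr o) _

variable {k : ℕ} (hk : 2 * (k + 1) < Fintype.card κ)

include hk in
theorem adk_ee (i j : κ) : adk (rr ℚ i j) * ee κ (k + 1) = ee κ (k + 1) * adk (rr ℚ i j) :=
  ee_comm hk (lam_adk i j) (exo_adk i j) (adk_pk i j k) (adk_pk i j (k + 1))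

include hk in
theorem tt_ee (o : κ) : tt (dg ℚ o) * ee κ (k + 1) = ee κ (k + 1) * tt (dg ℚ o) :=
  ee_comm hk (tt_lam o).symm (tt_exo o).symm (tt_pk o _) (tt_pk o _)

include hk in
theorem MM_ee (o : κ) (j : {j : κ // j ≠ o} ⊕ {j : κ // j ≠ o}) :
    MM ℚ o j * ee κ (k + 1) = ee κ (k + 1) * MM ℚ o j := by
  rcases j with j | j
  · show adk (rr ℚ o j.1 + rr ℚ j.1 o) * ee κ (k + 1) = ee κ (k + 1) * adk (rr ℚ o j.1 + rr ℚ j.1 o)
    rw [adk_add, Matrix.add_mul, Matrix.mul_add, adk_ee hk, adk_ee hk]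
  · show adk (rr ℚ o j.1 - rr ℚ j.1 o) * tt (dg ℚ o) * ee κ (k + 1) =
      ee κ (k + 1) * (adk (rr ℚ o j.1 - rr ℚ j.1 o) * tt (dg ℚ o))
    rw [Matrix.mul_assoc, tt_ee hk, ← Matrix.mul_assoc, ← Matrix.mul_assoc, adk_sub, Matrix.sub_mul, Matrix.mul_sub,
      adk_ee hk, adk_ee hk]

/-- the rational operator -/
def KQ (o : κ) : Matrix (Finset κ × Finset κ) (Finset κ × Finset κ) ℚ := adk (rr ℚ o o) * tt (dg ℚ o)

theorem KQ_sq (o : κ) : KQ o * KQ o = -(adk (rr ℚ o o) * adk (rr ℚ o o)) := by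
  calc KQ o * KQ o = adk (rr ℚ o o) * (tt (dg ℚ o) * adk (rr ℚ o o)) * tt (dg ℚ o) := by
        rw [KQ]
        simp only [Matrix.mul_assoc]
    _ = -(adk (rr ℚ o o) * adk (rr ℚ o o)) * (tt (dg ℚ o) * tt (dg ℚ o)) := by
        rw [adk_tt' (dg_sq o) (dg_tr o) (dg_P o), Matrix.mul_neg, Matrix.neg_mul, Matrix.neg_mul]
        simp only [Matrix.mul_assoc]
    _ = _ := by rw [tt_sq (dg_sq o), Matrix.mul_one]

theorem KQ_cub (o : κ) : KQ o * KQ o * KQ o = -KQ o := by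
  rw [KQ_sq, KQ, Matrix.neg_mul, ← Matrix.mul_assoc, adk_P3]

include hk in
theorem KQ_ee (o : κ) : KQ o * ee κ (k + 1) = ee κ (k + 1) * KQ o := by
  rw [KQ, Matrix.mul_assoc, tt_ee hk, ← Matrix.mul_assoc, ← Matrix.mul_assoc, adk_ee hk]

/-- the commutators -/
theorem comm1 (o : κ) {j : κ} (hj : j ≠ o) :
    adk (rr ℚ o j + rr ℚ j o) * KQ o - KQ o * adk (rr ℚ o j + rr ℚ j o) =
      -(adk (rr ℚ o j - rr ℚ j o) * tt (dg ℚ o)) := by
  have h1 : (rr ℚ o j + rr ℚ j o) * rr ℚ o o - rr ℚ o o * (rr ℚ o j + rr ℚ j o) = -(rr ℚ o j - rr ℚ j o) := by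
    have a1 := rr_comm (R := ℚ) o j o o
    have a2 := rr_comm (R := ℚ) j o o o
    rw [if_neg hj, if_pos rfl] at a1
    rw [if_pos rfl, if_neg (Ne.symm hj)] at a2
    calc (rr ℚ o j + rr ℚ j o) * rr ℚ o o - rr ℚ o o * (rr ℚ o j + rr ℚ j o)
        = (rr ℚ o j * rr ℚ o o - rr ℚ o o * rr ℚ o j) + (rr ℚ j o * rr ℚ o o - rr ℚ o o * rr ℚ j o) := by
          rw [Matrix.add_mul, Matrix.mul_add]
          abel
      _ = _ := by rw [a1, a2]; abel
  rw [KQ, Matrix.mul_assoc _ (tt (dg ℚ o)), adk_tt (dg_sq o) (dg_tr o) (dg_J1 o hj), ← Matrix.mul_assoc,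
    ← Matrix.mul_assoc, ← Matrix.sub_mul, adk_comm, h1, adk_neg, Matrix.neg_mul]

theorem comm2 (o : κ) {j : κ} (hj : j ≠ o) :
    adk (rr ℚ o j - rr ℚ j o) * tt (dg ℚ o) * KQ o - KQ o * (adk (rr ℚ o j - rr ℚ j o) * tt (dg ℚ o)) =
      adk (rr ℚ o j + rr ℚ j o) := by
  have h1 : rr ℚ o o * (rr ℚ o j - rr ℚ j o) - (rr ℚ o j - rr ℚ j o) * rr ℚ o o = rr ℚ o j + rr ℚ j o := by
    have a1 := rr_comm (R := ℚ) o j o o
    have a2 := rr_comm (R := ℚ) j o o o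
    rw [if_neg hj, if_pos rfl] at a1
    rw [if_pos rfl, if_neg (Ne.symm hj)] at a2
    calc rr ℚ o o * (rr ℚ o j - rr ℚ j o) - (rr ℚ o j - rr ℚ j o) * rr ℚ o o
        = -(rr ℚ o j * rr ℚ o o - rr ℚ o o * rr ℚ o j) + (rr ℚ j o * rr ℚ o o - rr ℚ o o * rr ℚ j o) := by
          rw [Matrix.sub_mul, Matrix.mul_sub]
          abel
      _ = _ := by rw [a1, a2]; abel
  obtain ⟨t, ht⟩ : ∃ t, t = tt (dg ℚ o) := ⟨_, rfl⟩
  have b1 : t * adk (rr ℚ o o) = -(adk (rr ℚ o o) * t) := by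
    rw [ht, adk_tt' (dg_sq o) (dg_tr o) (dg_P o)]
  have b2 : t * adk (rr ℚ o j - rr ℚ j o) = -(adk (rr ℚ o j - rr ℚ j o) * t) := by
    rw [ht, adk_tt' (dg_sq o) (dg_tr o) (dg_J2 o hj)]
  have b3 : t * t = 1 := by rw [ht, tt_sq (dg_sq o)]
  rw [KQ, ← ht]
  obtain ⟨P, hP⟩ : ∃ P, P = adk (rr ℚ o o) := ⟨_, rfl⟩
  obtain ⟨J, hJ⟩ : ∃ J, J = adk (rr ℚ o j - rr ℚ j o) := ⟨_, rfl⟩
  rw [← hP] at b1
  rw [← hJ] at b2
  have b4 : P * J - J * P = adk (rr ℚ o j + rr ℚ j o) := by rw [hP, hJ, adk_comm, h1]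
  rw [← hP, ← hJ, ← b4]
  calc J * t * (P * t) - P * t * (J * t) = J * (t * P) * t - P * (t * J) * t := by simp only [Matrix.mul_assoc]
    _ = -(J * P * (t * t)) + P * J * (t * t) := by
        rw [b1, b2]
        simp only [Matrix.mul_neg, Matrix.neg_mul, Matrix.mul_assoc]
        abel
    _ = P * J - J * P := by
        rw [b3, Matrix.mul_one, Matrix.mul_one]
        abel

end

/-! ### over the complex numbers -/

section
variable {κ : Type} [Fintype κ] [LinearOrder κ] {k : ℕ}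

theorem toC_dg (o : κ) : toC (dg ℚ o) = dg ℂ o := dg_map _ o

theorem toC_kron {W : Type*} (A B : Matrix W W ℚ) : toC (A ⊗ₖ B) = toC A ⊗ₖ toC B := by
  ext p q
  simp [toC]

theorem toC_adk (i j : κ) : toC (adk (rr ℚ i j)) = adk (rr ℂ i j) := by
  show (adk (rr ℚ i j)).map (algebraMap ℚ ℂ) = _
  rw [adk_map, rr_map]

theorem toC_tt (o : κ) : toC (tt (dg ℚ o)) = tt (dg ℂ o) := by
  show (tt (dg ℚ o)).map (algebraMap ℚ ℂ) = _
  rw [tt_map, dg_map]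

theorem toC_mul' {N : Type*} [Fintype N] (A B : Matrix N N ℚ) : toC (A * B) = toC A * toC B := Matrix.map_mul

theorem toC_add' {N : Type*} (A B : Matrix N N ℚ) : toC (A + B) = toC A + toC B := Matrix.map_add _ (map_add _) A B

theorem toC_sub' {N : Type*} (A B : Matrix N N ℚ) : toC (A - B) = toC A - toC B := Matrix.map_sub _ (map_sub _) A B

theorem toC_neg' {N : Type*} (A : Matrix N N ℚ) : toC (-A) = -toC A := by
  ext i j
  simp [toC]

theorem toC_smul' {N : Type*} (c : ℚ) (A : Matrix N N ℚ) : toC (c • A) = (c : ℂ) • toC A := by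
  ext i j
  simp [toC]

theorem toC_one' {N : Type*} [DecidableEq N] : toC (1 : Matrix N N ℚ) = 1 := Matrix.map_one _ (map_zero _) (map_one _)

theorem toC_real {N : Type*} (A : Matrix N N ℚ) : (toC A).map (starRingEnd ℂ) = toC A := by
  ext i j
  simp [toC]

theorem MM_map (o : κ) (j : {j : κ // j ≠ o} ⊕ {j : κ // j ≠ o}) : toC (MM ℚ o j) = MM ℂ o j := by
  rcases j with j | j
  · show toC (adk (rr ℚ o j.1 + rr ℚ j.1 o)) = adk (rr ℂ o j.1 + rr ℂ j.1 o)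
    rw [adk_add, toC_add', toC_adk, toC_adk, adk_add]
  · show toC (adk (rr ℚ o j.1 - rr ℚ j.1 o) * tt (dg ℚ o)) = adk (rr ℂ o j.1 - rr ℂ j.1 o) * tt (dg ℂ o)
    rw [toC_mul', adk_sub, toC_sub', toC_adk, toC_adk, adk_sub, toC_tt]

/-- the members of the space -/
theorem ee_of {X : Matrix (Finset κ) (Finset κ) ℂ} (hX : Vn (k + 1) X) : toC (ee κ k) *ᵥ vc X = vc X := by
  have h1 : toC (pk κ ℚ (k + 1)) = pk κ ℂ (k + 1) := pk_map _ _
  have h2 : toC (lam κ ℚ) = lam κ ℂ := lam_map _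
  rw [ee, toC_sub', Matrix.sub_mulVec, toC_mul' _ (pk κ ℚ (k + 1)), toC_mul' _ (lam κ ℚ), h1, h2, hX.deg,
    ← Matrix.mulVec_mulVec, hX.deg, ← Matrix.mulVec_mulVec, hX.low, Matrix.mulVec_zero, sub_zero]

theorem of_ee (hk : 2 * k < Fintype.card κ) {X : Matrix (Finset κ) (Finset κ) ℂ} (hX : toC (ee κ k) *ᵥ vc X = vc X) :
    Vn (k + 1) X := by
  have h1 : toC (pk κ ℚ (k + 1)) = pk κ ℂ (k + 1) := pk_map _ _
  have h2 : toC (lam κ ℚ) = lam κ ℂ := lam_map _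
  have h3 := congrArg toC (pk_ee hk)
  have h4 := congrArg toC (lam_ee hk)
  rw [toC_mul', h1] at h3
  rw [toC_mul', h2] at h4
  have h5 : toC (0 : Matrix (Finset κ × Finset κ) (Finset κ × Finset κ) ℚ) = 0 := by
    ext i j
    simp [toC]
  rw [h5] at h4
  constructor
  · rw [← hX, Matrix.mulVec_mulVec, h3]
  · rw [← hX, Matrix.mulVec_mulVec, h4, Matrix.zero_mulVec]

end

end C655
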