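import Pool.Agent.Helper55.C6.Tw
import Pool.Agent.Helper55.C6.Car

/-!
AllGeometricGenera (MP_b8862a_ag), sharpness C6: the Cartan product of an exterior power and its dual, as the image of an
explicit rational idempotent.
-/

set_option linter.unusedSectionVars false

open Matrix MH
open scoped Kronecker

namespace C655

open QU55

section
variable {κ : Type*} [Fintype κ] [LinearOrder κ] {R : Type*} [CommRing R]

/-- the lowering operator -/
def lam (κ : Type*) [Fintype κ] [LinearOrder κ] (R : Type*) [CommRing R] :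
    Matrix (Finset κ × Finset κ) (Finset κ × Finset κ) R := ∑ i : κ, an R i ⊗ₖ an R i

/-- the raising operator -/
def exo (κ : Type*) [Fintype κ] [LinearOrder κ] (R : Type*) [CommRing R] :
    Matrix (Finset κ × Finset κ) (Finset κ × Finset κ) R := ∑ i : κ, cr R i ⊗ₖ cr R i

theorem lam_tr : (lam κ R)ᵀ = exo κ R := by
  rw [lam, Matrix.transpose_sum, exo]
  exact Finset.sum_congr rfl fun i _ => by rw [kron_tr, an_tr]

theorem exo_tr : (exo κ R)ᵀ = lam κ R := by
  rw [← lam_tr, Matrix.transpose_transpose]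

theorem lam_exo : lam κ R * exo κ R = exo κ R * lam κ R + ((Fintype.card κ : R) • 1 -
    ((∑ i : κ, rr R i i) ⊗ₖ 1 + 1 ⊗ₖ (∑ i : κ, rr R i i))) := by
  have h : ∀ i j : κ, (an R i ⊗ₖ an R i) * (cr R j ⊗ₖ cr R j) = (cr R j ⊗ₖ cr R j) * (an R i ⊗ₖ an R i) +
      if i = j then 1 - (rr R i i ⊗ₖ 1 + 1 ⊗ₖ rr R i i) else 0 := by
    intro i j
    rw [← Matrix.mul_kronecker_mul, ← Matrix.mul_kronecker_mul, car]
    by_cases hij : i = j
    · subst hij
      rw [if_pos rfl, if_pos rfl, kron_sub1, kron_sub2, kron_sub2, Matrix.one_kronecker_one, rr]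
      abel
    · rw [if_neg hij, if_neg hij, zero_sub, kron_neg1, kron_neg2, neg_neg, add_zero]
  have h1 : lam κ R * exo κ R = ∑ i : κ, ∑ j : κ, (an R i ⊗ₖ an R i) * (cr R j ⊗ₖ cr R j) := by
    rw [lam, exo, Finset.sum_mul]
    exact Finset.sum_congr rfl fun i _ => Finset.mul_sum _ _ _
  have h2 : exo κ R * lam κ R = ∑ i : κ, ∑ j : κ, (cr R j ⊗ₖ cr R j) * (an R i ⊗ₖ an R i) := by
    rw [lam, exo, Finset.mul_sum]
    exact Finset.sum_congr rfl fun i _ => Finset.sum_mul _ _ _
  have h3 : ∑ i : κ, ∑ j : κ, (if i = j then 1 - (rr R i i ⊗ₖ 1 + 1 ⊗ₖ rr R i i) else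
      (0 : Matrix (Finset κ × Finset κ) (Finset κ × Finset κ) R)) = (Fintype.card κ : R) • 1 -
    ((∑ i : κ, rr R i i) ⊗ₖ 1 + 1 ⊗ₖ (∑ i : κ, rr R i i)) := by
    have k1 : (∑ i : κ, rr R i i) ⊗ₖ (1 : Matrix (Finset κ) (Finset κ) R) = ∑ i : κ, rr R i i ⊗ₖ 1 := by
      ext p q
      simp [Matrix.sum_apply, Finset.sum_mul]
    have k2 : (1 : Matrix (Finset κ) (Finset κ) R) ⊗ₖ (∑ i : κ, rr R i i) = ∑ i : κ, 1 ⊗ₖ rr R i i := by
      ext p q
      simp [Matrix.sum_apply, Finset.mul_sum]
    simp only [Finset.sum_ite_eq, Finset.mem_univ, if_true]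
    rw [Finset.sum_sub_distrib, Finset.sum_add_distrib, Finset.sum_const, Finset.card_univ, k1, k2]
    congr 1
    rw [Nat.cast_smul_eq_nsmul]
  rw [h1, h2, ← h3, ← Finset.sum_add_distrib]
  refine Finset.sum_congr rfl fun i _ => ?_
  rw [← Finset.sum_add_distrib]
  exact Finset.sum_congr rfl fun j _ => h i j

theorem an_rr (l i j : κ) : an R l * rr R i j = rr R i j * an R l + if l = i then an R j else 0 := by
  have h1 : an R l * rr R i j = (if l = i then an R j else 0) - cr R i * (an R l * an R j) := by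
    rw [rr, an_cr]
  have h2 : rr R i j * an R l = -(cr R i * (an R l * an R j)) := by
    rw [rr, Matrix.mul_assoc, an_an' j l, Matrix.mul_neg]
  rw [h1, h2]
  abel

theorem lam_adk (i j : κ) : lam κ R * adk (rr R i j) = adk (rr R i j) * lam κ R := by
  have h : ∀ l : κ, (an R l ⊗ₖ an R l) * adk (rr R i j) = adk (rr R i j) * (an R l ⊗ₖ an R l) +
      ((if l = i then an R j ⊗ₖ an R l else 0) - if l = j then an R l ⊗ₖ an R i else 0) := by
    intro l
    rw [adk, rr_tr, Matrix.mul_sub, Matrix.sub_mul, ← Matrix.mul_kronecker_mul, ← Matrix.mul_kronecker_mul,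
      ← Matrix.mul_kronecker_mul, ← Matrix.mul_kronecker_mul, an_rr, an_rr, Matrix.mul_one, Matrix.one_mul,
      Matrix.add_kronecker, Matrix.kronecker_add]
    by_cases h1 : l = i
    · by_cases h2 : l = j
      · rw [if_pos h1, if_pos h2, if_pos h1, if_pos h2]
        abel
      · rw [if_pos h1, if_neg h2, if_pos h1, if_neg h2, Matrix.kronecker_zero]
        abel
    · by_cases h2 : l = j
      · rw [if_neg h1, if_pos h2, if_neg h1, if_pos h2, Matrix.zero_kronecker]
        abel
      · rw [if_neg h1, if_neg h2, if_neg h1, if_neg h2, Matrix.kronecker_zero, Matrix.zero_kronecker]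
        abel
  rw [lam, Finset.sum_mul, Finset.mul_sum, Finset.sum_congr rfl fun l _ => h l, Finset.sum_add_distrib,
    Finset.sum_sub_distrib]
  simp

theorem exo_adk (i j : κ) : exo κ R * adk (rr R i j) = adk (rr R i j) * exo κ R := by
  have h := congrArg Matrix.transpose (lam_adk (R := R) j i)
  rw [Matrix.transpose_mul, Matrix.transpose_mul, lam_tr, adk_tr, rr_tr] at h
  exact h.symm

/-- the projection to the sets with `k` elements -/
def dk (R : Type*) [CommRing R] (k : ℕ) : Matrix (Finset κ) (Finset κ) R :=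
  Matrix.diagonal fun S => if S.card = k then 1 else 0

theorem dk_tr (k : ℕ) : (dk R k : Matrix (Finset κ) (Finset κ) R)ᵀ = dk R k := Matrix.diagonal_transpose _

theorem dk_sq (k : ℕ) : (dk R k : Matrix (Finset κ) (Finset κ) R) * dk R k = dk R k := by
  rw [dk, Matrix.diagonal_mul_diagonal]
  congr 1
  funext S
  split_ifs <;> simp

theorem an_dk (i : κ) (k : ℕ) : an R i * dk R (k + 1) = dk R k * an R i := by
  ext T S
  rw [dk, dk, Matrix.mul_diagonal, Matrix.diagonal_mul, an]
  by_cases h : i ∉ T ∧ S = insert i T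
  · obtain ⟨h1, rfl⟩ := h
    rw [if_pos ⟨h1, rfl⟩, Finset.card_insert_of_notMem h1]
    by_cases h2 : T.card = k
    · rw [if_pos h2, if_pos (by rw [h2]), mul_one, one_mul]
    · rw [if_neg h2, if_neg (by omega), mul_zero, zero_mul]
  · rw [if_neg h, zero_mul, mul_zero]

theorem cr_dk (i : κ) (k : ℕ) : cr R i * dk R k = dk R (k + 1) * cr R i := by
  have h := congrArg Matrix.transpose (an_dk (R := R) i k)
  rw [Matrix.transpose_mul, Matrix.transpose_mul, an_tr, dk_tr, dk_tr] at h
  exact h.symm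

theorem rr_dk (i j : κ) (k : ℕ) : rr R i j * dk R (k + 1) = dk R (k + 1) * rr R i j := by
  rw [rr, Matrix.mul_assoc, an_dk, ← Matrix.mul_assoc, cr_dk, Matrix.mul_assoc]

/-- the projection to the degree `(k, k)` -/
def pk (κ : Type*) [Fintype κ] [LinearOrder κ] (R : Type*) [CommRing R] (k : ℕ) :
    Matrix (Finset κ × Finset κ) (Finset κ × Finset κ) R := dk R k ⊗ₖ dk R k

theorem pk_sq (k : ℕ) : pk κ R k * pk κ R k = pk κ R k := by
  rw [pk, ← Matrix.mul_kronecker_mul, dk_sq]

theorem pk_tr (k : ℕ) : (pk κ R k)ᵀ = pk κ R k := by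
  rw [pk, kron_tr, dk_tr]

theorem lam_pk (k : ℕ) : lam κ R * pk κ R (k + 1) = pk κ R k * lam κ R := by
  rw [lam, pk, pk, Finset.sum_mul, Finset.mul_sum]
  refine Finset.sum_congr rfl fun i _ => ?_
  rw [← Matrix.mul_kronecker_mul, ← Matrix.mul_kronecker_mul, an_dk]

theorem exo_pk (k : ℕ) : exo κ R * pk κ R k = pk κ R (k + 1) * exo κ R := by
  rw [exo, pk, pk, Finset.sum_mul, Finset.mul_sum]
  refine Finset.sum_congr rfl fun i _ => ?_
  rw [← Matrix.mul_kronecker_mul, ← Matrix.mul_kronecker_mul, cr_dk]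

theorem adk_pk (i j : κ) (k : ℕ) : adk (rr R i j) * pk κ R (k + 1) = pk κ R (k + 1) * adk (rr R i j) := by
  rw [adk, pk, Matrix.sub_mul, Matrix.mul_sub, ← Matrix.mul_kronecker_mul, ← Matrix.mul_kronecker_mul,
    ← Matrix.mul_kronecker_mul, ← Matrix.mul_kronecker_mul, rr_tr, rr_dk, rr_dk]
  simp only [Matrix.mul_one, Matrix.one_mul]

theorem rr_diag (i : κ) : rr R i i = Matrix.diagonal fun S => if i ∈ S then 1 else 0 := by
  ext T S
  rw [rr, cr_mul, Matrix.diagonal_apply]
  by_cases hi : i ∈ T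
  · rw [if_pos hi, an]
    by_cases hS : T = S
    · subst hS
      rw [if_pos ⟨Finset.notMem_erase i T, (Finset.insert_erase hi).symm⟩, if_pos rfl, sg_erase hi, sp_self, one_mul,
        sg_sq, if_pos hi]
    · rw [if_neg, if_neg hS, mul_zero]
      rintro ⟨-, h2⟩
      rw [Finset.insert_erase hi] at h2
      exact hS h2.symm
  · rw [if_neg hi]
    split_ifs <;> rfl

theorem rr_sq (i : κ) : rr R i i * rr R i i = rr R i i := by
  rw [rr_diag, Matrix.diagonal_mul_diagonal]
  congr 1
  funext S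
  split_ifs <;> simp

/-- the signature -/
def dg (R : Type*) [CommRing R] (o : κ) : Matrix (Finset κ) (Finset κ) R :=
  Matrix.diagonal fun S => if o ∈ S then -1 else 1

theorem dg_tr (o : κ) : (dg R o)ᵀ = dg R o := Matrix.diagonal_transpose _

theorem dg_sq (o : κ) : dg R o * dg R o = 1 := by
  rw [dg, Matrix.diagonal_mul_diagonal, ← Matrix.diagonal_one]
  congr 1
  funext S
  split_ifs <;> simp

theorem dg_map {R' : Type*} [CommRing R'] (f : R →+* R') (o : κ) : (dg R o).map f = dg R' o := by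
  rw [dg, Matrix.diagonal_map (map_zero f), dg]
  congr 1
  funext S
  show f _ = _
  split_ifs <;> simp

theorem dg_an (o i : κ) : dg R o * an R i = (if i = o then (-1 : R) else 1) • (an R i * dg R o) := by
  ext T S
  rw [dg, Matrix.diagonal_mul, Matrix.smul_apply, Matrix.mul_diagonal, an]
  by_cases h : i ∉ T ∧ S = insert i T
  · obtain ⟨h1, rfl⟩ := h
    rw [if_pos (⟨h1, rfl⟩ : i ∉ T ∧ insert i T = insert i T)]
    by_cases h2 : i = o
    · subst h2
      rw [if_neg h1, if_pos (Finset.mem_insert_self i T), if_pos rfl]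
      simp
    · have h3 : o ∈ insert i T ↔ o ∈ T := by
        rw [Finset.mem_insert]
        exact ⟨fun h => h.resolve_left (Ne.symm h2), Or.inr⟩
      rw [if_neg h2]
      by_cases h4 : o ∈ T
      · rw [if_pos h4, if_pos (h3.2 h4)]
        simp
      · rw [if_neg h4, if_neg (fun h5 => h4 (h3.1 h5))]
        simp
  · rw [if_neg h]
    simp

theorem dg_cr (o i : κ) : dg R o * cr R i = (if i = o then (-1 : R) else 1) • (cr R i * dg R o) := by
  have h := congrArg Matrix.transpose (dg_an (R := R) o i)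
  rw [Matrix.transpose_mul, Matrix.transpose_smul, Matrix.transpose_mul, an_tr, dg_tr] at h
  rw [h, smul_smul]
  split_ifs <;> simp

theorem dg_rr (o i j : κ) : dg R o * rr R i j * dg R o =
    (if i = o then (-1 : R) else 1) • (if j = o then (-1 : R) else 1) • rr R i j := by
  rw [rr, ← Matrix.mul_assoc, dg_cr, Matrix.smul_mul, Matrix.mul_assoc (cr R i), dg_an, Matrix.mul_smul, Matrix.smul_mul,
    Matrix.smul_mul]
  congr 2
  simp only [Matrix.mul_assoc]
  rw [dg_sq, Matrix.mul_one]

theorem dg_dk (o : κ) (k : ℕ) : dg R o * dk R k * dg R o = dk R k := by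
  rw [dg, dk, Matrix.diagonal_mul_diagonal, Matrix.diagonal_mul_diagonal]
  congr 1
  funext S
  split_ifs <;> simp

theorem tt_lam (o : κ) : tt (dg R o) * lam κ R = lam κ R * tt (dg R o) := by
  rw [lam, Finset.mul_sum, Finset.sum_mul]
  refine Finset.sum_congr rfl fun i _ => ?_
  have e : dg R o * an R i * dg R o = (if i = o then (-1 : R) else 1) • an R i := by
    rw [dg_an, Matrix.smul_mul, Matrix.mul_assoc, dg_sq, Matrix.mul_one]
  have e2 : an R i ⊗ₖ an R i = (dg R o * an R i * dg R o) ⊗ₖ (dg R o * an R i * dg R o) := by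
    rw [e, kron_smul1, kron_smul2, smul_smul]
    split_ifs <;> simp
  rw [tt_kron (dg_sq o), ← e2]

theorem tt_exo (o : κ) : tt (dg R o) * exo κ R = exo κ R * tt (dg R o) := by
  have h := congrArg Matrix.transpose (tt_lam (R := R) o)
  rw [Matrix.transpose_mul, Matrix.transpose_mul, lam_tr, tt_tr (dg_tr o)] at h
  exact h.symm

theorem tt_pk (o : κ) (k : ℕ) : tt (dg R o) * pk κ R k = pk κ R k * tt (dg R o) := by
  rw [pk, tt_kron (dg_sq o), dg_dk]

end

end C655
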