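import Pool.Agent.Helper55.C6.Mem

/-!
AllGeometricGenera (MP_b8862a_ag), sharpness C6: Hodge structures with a rational quartic Hodge form, in general.
-/

set_option linter.unusedSectionVars false

open Matrix MH
open scoped Kronecker

namespace C655

open SH94 (cC cC_mul cC_one cC_conj cC_inj)
open QU55

section
variable {m : Type*} [Fintype m] [DecidableEq m]

/-- the element of a torus -/
theorem exists_tor {Q : Matrix m m ℂ} (hs : Qᵀ = Q) {x y : m → ℂ} (hxx : x ⬝ᵥ (Q *ᵥ x) = 0) (hyy : y ⬝ᵥ (Q *ᵥ y) = 0)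
    (hxy : x ⬝ᵥ (Q *ᵥ y) = 1) :
    ∃ g : GL m ℂ, (g : Matrix m m ℂ)ᵀ * Q * (g : Matrix m m ℂ) = Q ∧ (g : Matrix m m ℂ).det = 1 ∧
      (g : Matrix m m ℂ) *ᵥ x = (2 : ℂ) • x := by
  have hyx : y ⬝ᵥ (Q *ᵥ x) = 1 := by
    rw [form_comm hs, hxy]
  obtain ⟨b1, hb1⟩ : ∃ b1, b1 = x - y := ⟨_, rfl⟩
  obtain ⟨b2, hb2⟩ : ∃ b2, b2 = x - (2 : ℂ) • y := ⟨_, rfl⟩
  have e11 : b1 ⬝ᵥ (Q *ᵥ b1) = -2 := by
    rw [hb1, Matrix.mulVec_sub, dotProduct_sub, sub_dotProduct, sub_dotProduct, hxx, hyy, hxy, hyx]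
    norm_num
  have e22 : b2 ⬝ᵥ (Q *ᵥ b2) = -4 := by
    rw [hb2, Matrix.mulVec_sub, Matrix.mulVec_smul, dotProduct_sub, dotProduct_smul, sub_dotProduct, sub_dotProduct,
      smul_dotProduct, smul_dotProduct, hxx, hyy, hxy, hyx]
    simp only [smul_eq_mul]
    norm_num
  have n11 : b1 ⬝ᵥ (Q *ᵥ b1) ≠ 0 := by rw [e11]; norm_num
  have n22 : b2 ⬝ᵥ (Q *ᵥ b2) ≠ 0 := by rw [e22]; norm_num
  have r1 := refl_sq n11
  have r2 := refl_sq n22
  refine ⟨⟨refl Q b1 * refl Q b2, refl Q b2 * refl Q b1,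
    by rw [mul_assoc, ← mul_assoc (refl Q b2), r2, one_mul, r1],
    by rw [mul_assoc, ← mul_assoc (refl Q b1), r1, one_mul, r2]⟩, ?_, ?_, ?_⟩
  · show (refl Q b1 * refl Q b2)ᵀ * Q * (refl Q b1 * refl Q b2) = Q
    rw [Matrix.transpose_mul]
    calc (refl Q b2)ᵀ * (refl Q b1)ᵀ * Q * (refl Q b1 * refl Q b2)
        = (refl Q b2)ᵀ * ((refl Q b1)ᵀ * Q * refl Q b1) * refl Q b2 := by
          simp only [mul_assoc]
      _ = Q := by rw [refl_isom hs n11, refl_isom hs n22]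
  · show (refl Q b1 * refl Q b2).det = 1
    rw [Matrix.det_mul, refl_det n11, refl_det n22]
    norm_num
  · show (refl Q b1 * refl Q b2) *ᵥ x = (2 : ℂ) • x
    have f2 : (Q *ᵥ b2) ⬝ᵥ x = -2 := by
      rw [dotProduct_comm, hb2, Matrix.mulVec_sub, Matrix.mulVec_smul, dotProduct_sub, dotProduct_smul, hxx, hxy]
      simp
    have f1 : (Q *ᵥ b1) ⬝ᵥ ((2 : ℂ) • y) = 2 := by
      rw [dotProduct_comm, hb1, Matrix.mulVec_sub, dotProduct_sub, smul_dotProduct, smul_dotProduct, hyx, hyy]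
      simp
    have s2 : refl Q b2 *ᵥ x = (2 : ℂ) • y := by
      rw [refl_apply, f2, e22, hb2]
      norm_num
    rw [← Matrix.mulVec_mulVec, s2, refl_apply, f1, e11, hb1]
    norm_num
    module

/-- the quartic form at a pure tensor -/
theorem quad4 {R : Type*} [CommRing R] {Θ : Matrix (m × m) (m × m) R} {γ : Matrix m m R}
    (h : (γᵀ ⊗ₖ γᵀ) * Θ * (γ ⊗ₖ γ) = Θ) (x : m → R) :
    (fun p : m × m => (γ *ᵥ x) p.1 * (γ *ᵥ x) p.2) ⬝ᵥ (Θ *ᵥ fun p : m × m => (γ *ᵥ x) p.1 * (γ *ᵥ x) p.2) =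
      (fun p : m × m => x p.1 * x p.2) ⬝ᵥ (Θ *ᵥ fun p : m × m => x p.1 * x p.2) := by
  obtain ⟨f, hf⟩ : ∃ f : m × m → R, f = fun p : m × m => x p.1 * x p.2 := ⟨_, rfl⟩
  rw [← kron_vec, ← hf]
  conv_rhs => rw [← h]
  rw [Matrix.mul_assoc, ← Matrix.mulVec_mulVec, ← Matrix.mulVec_mulVec, Matrix.dotProduct_mulVec f,
    ← Matrix.mulVec_transpose, ← Matrix.kroneckerMap_transpose, Matrix.transpose_transpose]

/-- the form under the derivation of a conjugate -/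
theorem inv_conj {R : Type*} [CommRing R] {Θ : Matrix (m × m) (m × m) R} {h g gi : Matrix m m R} (g1 : g * gi = 1)
    (g2 : gi * g = 1) (hg : (gᵀ ⊗ₖ gᵀ) * Θ * (g ⊗ₖ g) = Θ)
    (hh : Θ * (h ⊗ₖ (1 : Matrix m m R) + (1 : Matrix m m R) ⊗ₖ h) =
      -((h ⊗ₖ (1 : Matrix m m R) + (1 : Matrix m m R) ⊗ₖ h)ᵀ * Θ)) :
    Θ * ((g * h * gi) ⊗ₖ (1 : Matrix m m R) + (1 : Matrix m m R) ⊗ₖ (g * h * gi)) =
      -(((g * h * gi) ⊗ₖ (1 : Matrix m m R) + (1 : Matrix m m R) ⊗ₖ (g * h * gi))ᵀ * Θ) := by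
  obtain ⟨DD, hDD⟩ : ∃ DD, DD = h ⊗ₖ (1 : Matrix m m R) + (1 : Matrix m m R) ⊗ₖ h := ⟨_, rfl⟩
  obtain ⟨G, hG⟩ : ∃ G, G = g ⊗ₖ g := ⟨_, rfl⟩
  obtain ⟨Gi, hGi⟩ : ∃ Gi, Gi = gi ⊗ₖ gi := ⟨_, rfl⟩
  have hGG : G * Gi = 1 := by rw [hG, hGi, ← Matrix.mul_kronecker_mul, g1, Matrix.one_kronecker_one]
  have hGG' : Gi * G = 1 := by rw [hG, hGi, ← Matrix.mul_kronecker_mul, g2, Matrix.one_kronecker_one]
  have e1 : (g * h * gi) ⊗ₖ (1 : Matrix m m R) + (1 : Matrix m m R) ⊗ₖ (g * h * gi) = G * DD * Gi := by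
    rw [hG, hDD, hGi, Matrix.mul_add, Matrix.add_mul, ← Matrix.mul_kronecker_mul, ← Matrix.mul_kronecker_mul,
      ← Matrix.mul_kronecker_mul, ← Matrix.mul_kronecker_mul, Matrix.mul_one, g1]
  have hT : Gᵀ = gᵀ ⊗ₖ gᵀ := by rw [hG, ← Matrix.kroneckerMap_transpose]
  rw [← hT, ← hG] at hg
  rw [← hDD] at hh
  have e2 : Θ * G = Giᵀ * Θ := by
    have e3 : Giᵀ * Gᵀ = 1 := by rw [← Matrix.transpose_mul, hGG, Matrix.transpose_one]
    calc Θ * G = (Giᵀ * Gᵀ) * Θ * G := by rw [e3, Matrix.one_mul]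
      _ = Giᵀ * (Gᵀ * Θ * G) := by simp only [Matrix.mul_assoc]
      _ = Giᵀ * Θ := by rw [hg]
  have e4 : Gᵀ * Θ = Θ * Gi := by
    calc Gᵀ * Θ = Gᵀ * Θ * (G * Gi) := by rw [hGG, Matrix.mul_one]
      _ = (Gᵀ * Θ * G) * Gi := by simp only [Matrix.mul_assoc]
      _ = Θ * Gi := by rw [hg]
  rw [e1]
  calc Θ * (G * DD * Gi) = (Θ * G) * DD * Gi := by simp only [Matrix.mul_assoc]
    _ = Giᵀ * (Θ * DD) * Gi := by rw [e2]; simp only [Matrix.mul_assoc]
    _ = -(Giᵀ * DDᵀ * (Θ * Gi)) := by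
        rw [hh, Matrix.mul_neg, Matrix.neg_mul]
        simp only [Matrix.mul_assoc]
    _ = -((G * DD * Gi)ᵀ * Θ) := by
        rw [← e4, Matrix.transpose_mul, Matrix.transpose_mul]
        simp only [Matrix.mul_assoc]

/-- the Hodge projections of a conjugate operator -/
theorem PH24_cj {h g gi : Matrix m m ℂ} (g1 : g * gi = 1) (g2 : gi * g = 1) (p : ℤ) :
    g * PH24 h p * gi = PH24 (g * h * gi) p := by
  have e : g * h * gi * (g * h * gi) = g * (h * h) * gi := by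
    calc g * h * gi * (g * h * gi) = g * h * (gi * g) * h * gi := by simp only [Matrix.mul_assoc]
      _ = _ := by rw [g2, Matrix.mul_one]; simp only [Matrix.mul_assoc]
  unfold PH24
  split_ifs
  · rw [e, Matrix.mul_smul, Matrix.smul_mul, Matrix.mul_add, Matrix.add_mul]
  · rw [e, Matrix.mul_smul, Matrix.smul_mul, Matrix.mul_sub, Matrix.sub_mul]
  · rw [e, Matrix.mul_sub, Matrix.sub_mul, Matrix.mul_one, g1]
  · rw [Matrix.mul_zero, Matrix.zero_mul]

end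

/-- **Hodge structures with a rational quartic Hodge form.** -/
theorem exists_struct {N : Type*} {m : Type} [Fintype N] [DecidableEq N] [Fintype m] [DecidableEq m]
    {Q : Matrix N N ℚ} {B : Matrix m N ℚ} {C : Matrix N m ℚ} {K : Matrix N N ℂ} (HO : Opr Q B C K)
    {Θ : Matrix (m × m) (m × m) ℚ}
    (hK : toC Θ * (Opr.sm B C K ⊗ₖ (1 : Matrix m m ℂ) + (1 : Matrix m m ℂ) ⊗ₖ Opr.sm B C K) =
      -((Opr.sm B C K ⊗ₖ (1 : Matrix m m ℂ) + (1 : Matrix m m ℂ) ⊗ₖ Opr.sm B C K)ᵀ * toC Θ))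
    {J : Type*} {M : J → Matrix N N ℚ} (hM1 : ∀ j, M j * (C * B) = C * B * M j)
    (hM2 : ∀ j, (M j)ᵀ * Q = -(Q * M j))
    (hM3 : ∀ j, Θ * ((B * M j * C) ⊗ₖ (1 : Matrix m m ℚ) + (1 : Matrix m m ℚ) ⊗ₖ (B * M j * C)) =
      -(((B * M j * C) ⊗ₖ (1 : Matrix m m ℚ) + (1 : Matrix m m ℚ) ⊗ₖ (B * M j * C))ᵀ * Θ))
    (hcm : ∀ A : Matrix N N ℂ, toC (C * B) * A = A → A * toC (C * B) = A → A * K = K * A →
      (∀ j, A * (toC (M j) * K - K * toC (M j)) = (toC (M j) * K - K * toC (M j)) * A) →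
        ∃ c : ℂ, A = c • toC (C * B))
    {x y : m → ℂ} (hxx : x ⬝ᵥ (toC (Cᵀ * Q * C) *ᵥ x) = 0) (hyy : y ⬝ᵥ (toC (Cᵀ * Q * C) *ᵥ y) = 0)
    (hxy : x ⬝ᵥ (toC (Cᵀ * Q * C) *ᵥ y) = 1)
    (hΘ : (fun p : m × m => x p.1 * x p.2) ⬝ᵥ (toC Θ *ᵥ fun p : m × m => x p.1 * x p.2) ≠ 0)
    {s h : ℕ} (ht1 : (Opr.sm B C K).trace = 0) (ht2 : (Opr.sm B C K * Opr.sm B C K).trace = 2 * s)
    (hn : Fintype.card m = 2 * s + h) :
    ∃ (n : Type) (_ : Fintype n) (_ : DecidableEq n) (Q : Matrix n n ℚ) (P : ℤ → Matrix n n ℂ), IsHW 2 Q {0, 1, 2} P ∧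
      (∀ A : Matrix n n ℚ, (∀ p, toC A * P p = P p * toC A) → ∃ c : ℚ, A = c • (1 : Matrix n n ℚ)) ∧
      (P 2).rank = s ∧ (P 1).rank = h ∧ ∃ g : GL n ℂ, IsGQ 2 Q g ∧ g ∉ MT {0, 1, 2} P := by
  have hset : ({2, 1, 0} : Finset ℤ) = {0, 1, 2} := by decide
  have hcb : toC (C * B) = cC C * cC B := cC_mul C B
  have hbc : cC B * cC C = 1 := HO.bcC
  obtain ⟨h0, hh0⟩ : ∃ h0, h0 = Opr.sm B C K := ⟨_, rfl⟩
  rw [← hh0] at hK ht1 ht2
  obtain ⟨Qs, hQs⟩ : ∃ Qs, Qs = Cᵀ * Q * C := ⟨_, rfl⟩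
  have H : IsHW 2 Qs {2, 1, 0} (PH24 h0) := by rw [hQs, hh0]; exact HO.isHW
  have hsk : h0ᵀ * toC Qs = -(toC Qs * h0) := by rw [hQs, hh0]; exact HO.skew'
  have hcu : h0 * h0 * h0 = h0 := by rw [hh0]; exact HO.cube
  have hsy : Qsᵀ = Qs := by rw [hQs]; exact HO.symm'
  rw [← hQs] at hxx hyy hxy
  have hsyC : (toC Qs)ᵀ = toC Qs := by
    have := congrArg (fun M : Matrix m m ℚ => M.map (algebraMap ℚ ℂ)) hsy
    exact this
  have qd : (toC Qs).det ≠ 0 := SH94.Q_det H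
  -- the small operators of the Lie algebra
  have sC : ∀ j, M j * C = C * (B * M j * C) := by
    intro j
    calc M j * C = M j * (C * (B * C)) := by rw [HO.bc, Matrix.mul_one]
      _ = M j * (C * B) * C := by simp only [Matrix.mul_assoc]
      _ = C * (B * M j * C) := by rw [hM1]; simp only [Matrix.mul_assoc]
  have sB : ∀ j, B * M j = B * M j * C * B := by
    intro j
    calc B * M j = (B * C) * B * M j := by rw [HO.bc, Matrix.one_mul]
      _ = B * (C * B * M j) := by simp only [Matrix.mul_assoc]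
      _ = B * M j * C * B := by rw [← hM1]; simp only [Matrix.mul_assoc]
  have hskM : ∀ j, (B * M j * C)ᵀ * Qs = -(Qs * (B * M j * C)) := by
    intro j
    calc (B * M j * C)ᵀ * Qs = (C * (B * M j * C))ᵀ * Q * C := by
          rw [hQs, Matrix.transpose_mul C]
          simp only [Matrix.mul_assoc]
      _ = Cᵀ * ((M j)ᵀ * Q) * C := by
          rw [← sC, Matrix.transpose_mul]
          simp only [Matrix.mul_assoc]
      _ = -(Cᵀ * Q * (M j * C)) := by
          rw [hM2, Matrix.mul_neg, Matrix.neg_mul]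
          simp only [Matrix.mul_assoc]
      _ = _ := by rw [sC, hQs]; simp only [Matrix.mul_assoc]
  obtain ⟨g, gi, g1, g2, g3, g4, g5, g6⟩ := member_theta H (toR Θ) (by
    intro A hA hA2
    have hAh : A * h0 = h0 * A := PH24_comm hA
    have hAx : ∀ j, A * (toC (B * M j * C) * h0 - h0 * toC (B * M j * C)) =
        (toC (B * M j * C) * h0 - h0 * toC (B * M j * C)) * A := by
      intro j
      have hx := hA2 (toR (B * M j * C)) (by
        have e1 : (toR (B * M j * C))ᵀ * toR Qs = toR ((B * M j * C)ᵀ * Qs) := by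
          show ((B * M j * C)ᵀ).map (algebraMap ℚ ℝ) * Qs.map (algebraMap ℚ ℝ) = _
          exact Matrix.map_mul.symm
        have e2 : toR Qs * toR (B * M j * C) = toR (Qs * (B * M j * C)) := (Matrix.map_mul).symm
        rw [e1, e2, hskM j]
        generalize Qs * (B * M j * C) = Y
        ext a b
        simp [toR]) (by
        have hkm : ∀ {A A' : Matrix m m ℚ}, (A ⊗ₖ A').map (algebraMap ℚ ℝ) =
            (A.map (algebraMap ℚ ℝ)) ⊗ₖ (A'.map (algebraMap ℚ ℝ)) := by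
          intro A A'
          ext p q
          simp
        have e0 : (1 : Matrix m m ℚ).map (algebraMap ℚ ℝ) = 1 := Matrix.map_one _ (map_zero _) (map_one _)
        have e1 : toR (B * M j * C) ⊗ₖ (1 : Matrix m m ℝ) + (1 : Matrix m m ℝ) ⊗ₖ toR (B * M j * C) =
            ((B * M j * C) ⊗ₖ (1 : Matrix m m ℚ) + (1 : Matrix m m ℚ) ⊗ₖ (B * M j * C)).map (algebraMap ℚ ℝ) := by
          rw [Matrix.map_add _ (map_add _), hkm, hkm, e0]
          rfl
        rw [e1]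
        have e2 := congrArg (fun Z : Matrix (m × m) (m × m) ℚ => Z.map (algebraMap ℚ ℝ)) (hM3 j)
        simp only [Matrix.map_mul] at e2
        rw [toR, e2]
        ext a b
        simp [Matrix.mul_apply])
      rw [rC_toR] at hx
      have e1 : h0 = PH24 h0 2 - PH24 h0 0 := by
        rw [PH24_two, PH24_zero, ← smul_sub, show h0 * h0 + h0 - (h0 * h0 - h0) = (2 : ℂ) • h0 by
          rw [two_smul]; abel, smul_smul]
        norm_num
      have e2 : toC (B * M j * C) * h0 - h0 * toC (B * M j * C) =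
          (toC (B * M j * C) * PH24 h0 2 - PH24 h0 2 * toC (B * M j * C)) -
            (toC (B * M j * C) * PH24 h0 0 - PH24 h0 0 * toC (B * M j * C)) := by
        conv_lhs => rw [e1]
        rw [mul_sub, sub_mul]
        abel
      rw [e2, mul_sub, sub_mul, hx 2, hx 0]
    -- the big operator
    obtain ⟨A', hA'⟩ : ∃ A', A' = cC C * A * cC B := ⟨_, rfl⟩
    have big : ∀ (Z : Matrix N N ℂ) (z : Matrix m m ℂ), Z * cC C = cC C * z → cC B * Z = z * cC B →
        A * z = z * A → A' * Z = Z * A' := by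
      intro Z z z1 z2 z3
      calc A' * Z = cC C * A * (cC B * Z) := by rw [hA', Matrix.mul_assoc]
        _ = cC C * (A * z) * cC B := by rw [z2]; simp only [Matrix.mul_assoc]
        _ = (cC C * z) * A * cC B := by rw [z3]; simp only [Matrix.mul_assoc]
        _ = Z * A' := by rw [← z1, hA']; simp only [Matrix.mul_assoc]
    have tC : ∀ j, toC (M j) * cC C = cC C * toC (B * M j * C) := by
      intro j
      have e := congrArg (cC) (sC j)
      rw [cC_mul, cC_mul] at e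
      exact e
    have tB : ∀ j, cC B * toC (M j) = toC (B * M j * C) * cC B := by
      intro j
      have e := congrArg (cC) (sB j)
      rw [cC_mul, cC_mul (B * M j * C)] at e
      exact e
    have kC : K * cC C = cC C * h0 := by rw [hh0]; exact HO.K_c
    have kB : cC B * K = h0 * cC B := by rw [hh0]; exact HO.b_K
    obtain ⟨c, hc⟩ := hcm A' (by
      rw [hcb, hA']
      calc cC C * cC B * (cC C * A * cC B) = cC C * (cC B * cC C) * A * cC B := by simp only [Matrix.mul_assoc]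
        _ = _ := by rw [hbc, Matrix.mul_one]) (by
      rw [hcb, hA']
      calc cC C * A * cC B * (cC C * cC B) = cC C * A * (cC B * cC C) * cC B := by simp only [Matrix.mul_assoc]
        _ = _ := by rw [hbc, Matrix.mul_one]) (big K h0 kC kB hAh) (by
      intro j
      have tCj := tC j
      have tBj := tB j
      have hAj := hAx j
      generalize toC (B * M j * C) = z at tCj tBj hAj
      refine big _ (z * h0 - h0 * z) ?_ ?_ hAj
      · have a1 : toC (M j) * K * cC C = cC C * (z * h0) := by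
          rw [Matrix.mul_assoc, kC, ← Matrix.mul_assoc, tCj, Matrix.mul_assoc]
        have a2 : K * toC (M j) * cC C = cC C * (h0 * z) := by
          rw [Matrix.mul_assoc, tCj, ← Matrix.mul_assoc, kC, Matrix.mul_assoc]
        rw [Matrix.sub_mul, Matrix.mul_sub, a1, a2]
      · have a1 : cC B * (toC (M j) * K) = z * h0 * cC B := by
          rw [← Matrix.mul_assoc, tBj, Matrix.mul_assoc, kB, Matrix.mul_assoc]
        have a2 : cC B * (K * toC (M j)) = h0 * z * cC B := by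
          rw [← Matrix.mul_assoc, kB, Matrix.mul_assoc, tBj, Matrix.mul_assoc]
        rw [Matrix.sub_mul, Matrix.mul_sub, a1, a2])
    refine ⟨c, ?_⟩
    have e1 : cC B * A' * cC C = cC B * (c • toC (C * B)) * cC C := by rw [hc]
    rw [hA', hcb, Matrix.mul_smul, Matrix.smul_mul] at e1
    have e2 : cC B * (cC C * A * cC B) * cC C = A := by
      calc cC B * (cC C * A * cC B) * cC C = (cC B * cC C) * A * (cC B * cC C) := by simp only [Matrix.mul_assoc]
        _ = A := by rw [hbc, Matrix.one_mul, Matrix.mul_one]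
    have e3 : cC B * (cC C * cC B) * cC C = 1 := by
      calc cC B * (cC C * cC B) * cC C = (cC B * cC C) * (cC B * cC C) := by simp only [Matrix.mul_assoc]
        _ = 1 := by rw [hbc, Matrix.one_mul]
    rw [e2, e3] at e1
    exact e1)
  -- the member
  have c1 : rC g * rC gi = 1 := by rw [← rC_mul, g1, rC_one]
  have c2 : rC gi * rC g = 1 := by rw [← rC_mul, g2, rC_one]
  obtain ⟨h1, hh1⟩ : ∃ h1, h1 = rC g * h0 * rC gi := ⟨_, rfl⟩
  have hP : (fun p => rC g * PH24 h0 p * rC gi) = PH24 h1 := by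
    funext p
    rw [PH24_cj c1 c2, hh1]
  have giso : (rC g)ᵀ * toC Qs * rC g = toC Qs := by
    have e := congrArg rC g3
    rw [rC_mul, rC_mul, rC_transpose, rC_toR] at e
    exact e
  have gth : ((rC g)ᵀ ⊗ₖ (rC g)ᵀ) * toC Θ * (rC g ⊗ₖ rC g) = toC Θ := by
    have e : rC ((gᵀ ⊗ₖ gᵀ) * toR Θ * (g ⊗ₖ g)) = rC (toR Θ) := by rw [g4]
    rw [rC_mul, rC_mul, rC_toR] at e
    have hkm : ∀ A A' : Matrix m m ℝ, rC (A ⊗ₖ A') = rC A ⊗ₖ rC A' := by
      intro A A'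
      ext p q
      simp [rC]
    rw [hkm, hkm, rC_transpose] at e
    exact e
  have hcu1 : h1 * h1 * h1 = h1 := by
    rw [hh1]
    calc rC g * h0 * rC gi * (rC g * h0 * rC gi) * (rC g * h0 * rC gi)
        = rC g * h0 * (rC gi * rC g) * h0 * (rC gi * rC g) * h0 * rC gi := by simp only [Matrix.mul_assoc]
      _ = rC g * (h0 * h0 * h0) * rC gi := by
          rw [c2, Matrix.mul_one, Matrix.mul_one]
          simp only [Matrix.mul_assoc]
      _ = _ := by rw [hcu]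
  have hsk1 : h1ᵀ * toC Qs = -(toC Qs * h1) := by
    have e2 : toC Qs * rC g = (rC gi)ᵀ * toC Qs := by
      have e3 : (rC gi)ᵀ * (rC g)ᵀ = 1 := by rw [← Matrix.transpose_mul, c1, Matrix.transpose_one]
      calc toC Qs * rC g = ((rC gi)ᵀ * (rC g)ᵀ) * toC Qs * rC g := by rw [e3, Matrix.one_mul]
        _ = (rC gi)ᵀ * ((rC g)ᵀ * toC Qs * rC g) := by simp only [Matrix.mul_assoc]
        _ = (rC gi)ᵀ * toC Qs := by rw [giso]
    have e4 : (rC g)ᵀ * toC Qs = toC Qs * rC gi := by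
      calc (rC g)ᵀ * toC Qs = (rC g)ᵀ * toC Qs * (rC g * rC gi) := by rw [c1, Matrix.mul_one]
        _ = ((rC g)ᵀ * toC Qs * rC g) * rC gi := by simp only [Matrix.mul_assoc]
        _ = toC Qs * rC gi := by rw [giso]
    rw [hh1]
    calc (rC g * h0 * rC gi)ᵀ * toC Qs = (rC gi)ᵀ * h0ᵀ * ((rC g)ᵀ * toC Qs) := by
          rw [Matrix.transpose_mul, Matrix.transpose_mul]
          simp only [Matrix.mul_assoc]
      _ = (rC gi)ᵀ * (h0ᵀ * toC Qs) * rC gi := by rw [e4]; simp only [Matrix.mul_assoc]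
      _ = -(((rC gi)ᵀ * toC Qs) * h0 * rC gi) := by
          rw [hsk, Matrix.mul_neg, Matrix.neg_mul]
          simp only [Matrix.mul_assoc]
      _ = -(toC Qs * (rC g * h0 * rC gi)) := by rw [← e2]; simp only [Matrix.mul_assoc]
  have hinv1 := inv_conj c1 c2 gth hK
  rw [← hh1] at hinv1
  rw [hP] at g5
  obtain ⟨r2, r1⟩ := PH24_ranks hcu ht1 ht2 hn
  obtain ⟨γ, γ1, γ2, γ3⟩ := exists_tor hsyC hxx hyy hxy
  refine ⟨m, inferInstance, inferInstance, Qs, PH24 h1, ?_, ?_, ?_, ?_, γ, isGQ_of24 γ1 γ2, ?_⟩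
  · rw [← hset]
    exact g5
  · intro A hA
    refine g6 A fun p => ?_
    rw [congrFun hP p]
    exact hA p
  · rw [← congrFun hP 2, rank_conj27 c1 c2, r2]
  · rw [← congrFun hP 1, rank_conj27 c1 c2, r1]
  · rw [← hset]
    intro hγ
    have e1 := quad4 (mt_quart hcu1 hsk1 qd hinv1 γ1 hγ) x
    rw [γ3] at e1
    have e2 : (fun p : m × m => ((2 : ℂ) • x) p.1 * ((2 : ℂ) • x) p.2) = (4 : ℂ) • fun p : m × m => x p.1 * x p.2 := by
      funext p
      simp only [Pi.smul_apply, smul_eq_mul]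
      ring
    rw [e2, Matrix.mulVec_smul, dotProduct_smul, smul_dotProduct, smul_eq_mul, smul_eq_mul] at e1
    apply hΘ
    linear_combination (1 / 15 : ℂ) * e1

end C655
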