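import Pool.Agent.Helper55.C6.Str

/-!
AllGeometricGenera (MP_b8862a_ag), sharpness C6: twisted commutators as matrices.
-/

set_option linter.unusedSectionVars false

open Matrix MH
open scoped Kronecker

namespace C655

open QU55
open MH.PGN (T T_mul_T T_transpose T_map T_kron)

variable {W : Type*} [Fintype W] [DecidableEq W]

section
variable {R : Type*} [CommRing R]

theorem kron_vc (A B X : Matrix W W R) : (A ⊗ₖ B) *ᵥ vc X = vc (A * X * Bᵀ) := by
  funext p
  show _ = (A * X * Bᵀ) p.1 p.2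
  rw [Matrix.mulVec, dotProduct, Fintype.sum_prod_type, Matrix.mul_apply, Finset.sum_comm]
  refine Finset.sum_congr rfl fun d _ => ?_
  rw [Matrix.mul_apply, Finset.sum_mul]
  refine Finset.sum_congr rfl fun c _ => ?_
  rw [Matrix.kroneckerMap_apply, Matrix.transpose_apply, vc]
  ring

theorem kron_neg1 (A B : Matrix W W R) : (-A) ⊗ₖ B = -(A ⊗ₖ B) := by
  ext p q
  simp

theorem kron_neg2 (A B : Matrix W W R) : A ⊗ₖ (-B) = -(A ⊗ₖ B) := by
  ext p q
  simp

theorem kron_sub1 (A A' B : Matrix W W R) : (A - A') ⊗ₖ B = A ⊗ₖ B - A' ⊗ₖ B := by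
  ext p q
  simp [sub_mul]

theorem kron_sub2 (A B B' : Matrix W W R) : A ⊗ₖ (B - B') = A ⊗ₖ B - A ⊗ₖ B' := by
  ext p q
  simp [mul_sub]

theorem kron_smul1 (c : R) (A B : Matrix W W R) : (c • A) ⊗ₖ B = c • (A ⊗ₖ B) := Matrix.smul_kronecker c A B

theorem kron_smul2 (c : R) (A B : Matrix W W R) : A ⊗ₖ (c • B) = c • (A ⊗ₖ B) := Matrix.kronecker_smul c A B

theorem kron_map {R' : Type*} [CommRing R'] (f : R →+* R') (A B : Matrix W W R) :
    (A ⊗ₖ B).map f = A.map f ⊗ₖ B.map f := by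
  ext p q
  simp

theorem kron_tr (A B : Matrix W W R) : (A ⊗ₖ B)ᵀ = Aᵀ ⊗ₖ Bᵀ := (Matrix.kroneckerMap_transpose _ A B).symm

/-- the commutator with a matrix -/
def adk (J : Matrix W W R) : Matrix (W × W) (W × W) R := J ⊗ₖ (1 : Matrix W W R) - (1 : Matrix W W R) ⊗ₖ Jᵀ

theorem adk_vc (J X : Matrix W W R) : adk J *ᵥ vc X = vc (J * X - X * J) := by
  rw [adk, Matrix.sub_mulVec, kron_vc, kron_vc, Matrix.transpose_one, Matrix.transpose_transpose, Matrix.mul_one,
    Matrix.one_mul]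
  rfl

theorem adk_tr (J : Matrix W W R) : (adk J)ᵀ = adk Jᵀ := by
  rw [adk, adk, Matrix.transpose_sub, kron_tr, kron_tr, Matrix.transpose_one]

theorem adk_add (J J' : Matrix W W R) : adk (J + J') = adk J + adk J' := by
  rw [adk, adk, adk, Matrix.add_kronecker, Matrix.transpose_add, Matrix.kronecker_add]
  abel

theorem adk_sub (J J' : Matrix W W R) : adk (J - J') = adk J - adk J' := by
  rw [adk, adk, adk, kron_sub1, Matrix.transpose_sub, kron_sub2]
  abel

theorem adk_neg (J : Matrix W W R) : adk (-J) = -adk J := by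
  rw [adk, adk, kron_neg1, Matrix.transpose_neg, kron_neg2]
  abel

theorem adk_smul (c : R) (J : Matrix W W R) : adk (c • J) = c • adk J := by
  rw [adk, adk, kron_smul1, Matrix.transpose_smul, kron_smul2, smul_sub]

theorem adk_zero : adk (0 : Matrix W W R) = 0 := by
  rw [adk, Matrix.transpose_zero, Matrix.zero_kronecker, Matrix.kronecker_zero, sub_zero]

theorem adk_map {R' : Type*} [CommRing R'] (f : R →+* R') (J : Matrix W W R) : (adk J).map f = adk (J.map f) := by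
  rw [adk, adk, Matrix.map_sub _ (map_sub f), kron_map, kron_map, Matrix.map_one _ (map_zero f) (map_one f),
    Matrix.transpose_map]

theorem adk_comm (J J' : Matrix W W R) : adk J * adk J' - adk J' * adk J = adk (J * J' - J' * J) := by
  rw [adk_sub]
  simp only [adk, Matrix.sub_mul, Matrix.mul_sub, ← Matrix.mul_kronecker_mul, Matrix.one_mul, Matrix.mul_one,
    Matrix.transpose_mul]
  abel

/-- the twist -/
def tt (D : Matrix W W R) : Matrix (W × W) (W × W) R := (D ⊗ₖ D) * T W R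

theorem tt_vc (D X : Matrix W W R) (ht : Dᵀ = D) : tt D *ᵥ vc X = vc (D * Xᵀ * D) := by
  have e : T W R *ᵥ vc X = vc Xᵀ := by
    funext p
    show (T W R *ᵥ vc X) p = X p.2 p.1
    rw [Matrix.mulVec, dotProduct, Finset.sum_eq_single p.swap]
    · rw [T, if_pos (Prod.swap_swap p).symm, one_mul]
      rfl
    · intro q _ hq
      rw [T, if_neg, zero_mul]
      rintro rfl
      exact hq (Prod.swap_swap q).symm
    · intro h
      exact absurd (Finset.mem_univ _) h
  rw [tt, ← Matrix.mulVec_mulVec, e, kron_vc, ht]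

theorem tt_map {R' : Type*} [CommRing R'] (f : R →+* R') (D : Matrix W W R) : (tt D).map f = tt (D.map f) := by
  rw [tt, tt, Matrix.map_mul, kron_map, T_map]

variable {D : Matrix W W R} (hs : D * D = 1) (ht : Dᵀ = D)

theorem qq_comm : (D ⊗ₖ D) * T W R = T W R * (D ⊗ₖ D) := (T_kron D D).symm

include hs in
theorem qq_sq : (D ⊗ₖ D) * (D ⊗ₖ D) = 1 := by
  rw [← Matrix.mul_kronecker_mul, hs, Matrix.one_kronecker_one]

include ht in
theorem qq_tr : (D ⊗ₖ D)ᵀ = D ⊗ₖ D := by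
  rw [kron_tr, ht]

include hs in
theorem tt_sq : tt D * tt D = 1 := by
  calc tt D * tt D = (D ⊗ₖ D) * T W R * ((D ⊗ₖ D) * T W R) := rfl
    _ = (D ⊗ₖ D) * (T W R * (D ⊗ₖ D)) * T W R := by simp only [Matrix.mul_assoc]
    _ = ((D ⊗ₖ D) * (D ⊗ₖ D)) * (T W R * T W R) := by rw [← qq_comm]; simp only [Matrix.mul_assoc]
    _ = 1 := by rw [qq_sq hs, T_mul_T, Matrix.one_mul]

include ht in
theorem tt_tr : (tt D)ᵀ = tt D := by
  rw [tt, Matrix.transpose_mul, qq_tr ht, T_transpose, qq_comm]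

include hs in
theorem tt_kron (A B : Matrix W W R) : tt D * (A ⊗ₖ B) = ((D * B * D) ⊗ₖ (D * A * D)) * tt D := by
  have e : (D * B * D) ⊗ₖ (D * A * D) = (D ⊗ₖ D) * (B ⊗ₖ A) * (D ⊗ₖ D) := by
    rw [← Matrix.mul_kronecker_mul, ← Matrix.mul_kronecker_mul]
  rw [e]
  calc tt D * (A ⊗ₖ B) = (D ⊗ₖ D) * (T W R * (A ⊗ₖ B)) := by rw [tt, Matrix.mul_assoc]
    _ = (D ⊗ₖ D) * (B ⊗ₖ A) * T W R := by rw [T_kron, Matrix.mul_assoc]
    _ = (D ⊗ₖ D) * (B ⊗ₖ A) * ((D ⊗ₖ D) * (D ⊗ₖ D)) * T W R := by rw [qq_sq hs, Matrix.mul_one]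
    _ = (D ⊗ₖ D) * (B ⊗ₖ A) * (D ⊗ₖ D) * tt D := by rw [tt]; simp only [Matrix.mul_assoc]

include hs ht in
theorem tt_adk (J : Matrix W W R) : tt D * adk J = -(adk (D * Jᵀ * D) * tt D) := by
  rw [adk, Matrix.mul_sub, tt_kron hs, tt_kron hs, adk, Matrix.sub_mul, Matrix.mul_one, hs, Matrix.transpose_mul,
    Matrix.transpose_mul, Matrix.transpose_transpose, ht, ← Matrix.mul_assoc, neg_sub]

include hs in
theorem qq_tt : (D ⊗ₖ D) * tt D = T W R := by
  rw [tt, ← Matrix.mul_assoc, qq_sq hs, Matrix.one_mul]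

include hs in
theorem tt_qq : tt D * (D ⊗ₖ D) = T W R := by
  rw [tt, qq_comm, Matrix.mul_assoc, qq_sq hs, Matrix.mul_one]

include hs ht in
theorem qq_adk (J : Matrix W W R) : (D ⊗ₖ D) * adk J = adk (D * J * D) * (D ⊗ₖ D) := by
  rw [adk, adk, Matrix.mul_sub, Matrix.sub_mul, ← Matrix.mul_kronecker_mul, ← Matrix.mul_kronecker_mul,
    ← Matrix.mul_kronecker_mul, ← Matrix.mul_kronecker_mul, Matrix.transpose_mul, Matrix.transpose_mul, ht]
  simp only [Matrix.mul_assoc, hs, Matrix.mul_one, Matrix.one_mul]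

include hs ht in
theorem adk_skew {J : Matrix W W R} (h : D * Jᵀ * D = -J) : (adk J)ᵀ * (D ⊗ₖ D) = -((D ⊗ₖ D) * adk J) := by
  have e : Jᵀ = -(D * J * D) := by
    have e1 : D * (D * Jᵀ * D) * D = -(D * J * D) := by rw [h, Matrix.mul_neg, Matrix.neg_mul]
    rw [← e1]
    calc Jᵀ = (D * D) * Jᵀ * (D * D) := by rw [hs, Matrix.one_mul, Matrix.mul_one]
      _ = _ := by simp only [Matrix.mul_assoc]
  rw [adk_tr, e, adk_neg, Matrix.neg_mul, qq_adk hs ht]

include hs ht in
theorem adt_skew (J : Matrix W W R) : (adk J * tt D)ᵀ * (D ⊗ₖ D) = -((D ⊗ₖ D) * (adk J * tt D)) := by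
  rw [Matrix.transpose_mul, tt_tr ht, adk_tr, tt_adk hs ht, Matrix.neg_mul, Matrix.mul_assoc, tt_qq hs,
    Matrix.transpose_transpose, ← Matrix.mul_assoc (D ⊗ₖ D), qq_adk hs ht, Matrix.mul_assoc (adk _), qq_tt hs]

include hs ht in
theorem adk_tt {J : Matrix W W R} (h : D * Jᵀ * D = -J) : tt D * adk J = adk J * tt D := by
  rw [tt_adk hs ht, h, adk_neg, Matrix.neg_mul, neg_neg]

include hs ht in
theorem adk_tt' {J : Matrix W W R} (h : D * Jᵀ * D = J) : tt D * adk J = -(adk J * tt D) := by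
  rw [tt_adk hs ht, h]

end

/-! ### the twist over the complex numbers -/

section
variable {D : Matrix W W ℂ} (hs : D * D = 1) (ht : Dᵀ = D)

/-- the twist -/
noncomputable def Lt (D : Matrix W W ℂ) : Matrix (W × W) (W × W) ℂ :=
  (1 / 2 : ℂ) • (1 + tt D) + (Complex.I / 2) • (1 - tt D)

/-- the inverse of the twist -/
noncomputable def Lti (D : Matrix W W ℂ) : Matrix (W × W) (W × W) ℂ :=
  (1 / 2 : ℂ) • (1 + tt D) - (Complex.I / 2) • (1 - tt D)

include hs in
theorem Lt_Lti : Lt D * Lti D = 1 := by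
  have h := tt_sq hs
  have e1 : (1 + tt D) * (1 + tt D) = (2 : ℂ) • (1 + tt D) := by
    rw [add_mul, mul_add, mul_add, h, two_smul]
    simp only [one_mul, mul_one]
    abel
  have e2 : (1 - tt D) * (1 - tt D) = (2 : ℂ) • (1 - tt D) := by
    rw [sub_mul, mul_sub, mul_sub, h, two_smul]
    simp only [one_mul, mul_one]
    abel
  have e3 : (1 + tt D) * (1 - tt D) = 0 := by
    rw [add_mul, mul_sub, mul_sub, h]
    simp only [one_mul, mul_one]
    abel
  have e4 : (1 - tt D) * (1 + tt D) = 0 := by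
    rw [sub_mul, mul_add, mul_add, h]
    simp only [one_mul, mul_one]
    abel
  rw [Lt, Lti, add_mul, mul_sub, mul_sub]
  simp only [smul_mul_assoc, mul_smul_comm, e1, e2, e3, e4, smul_zero, smul_smul]
  have h1 : (1 / 2 * (1 / 2 * 2) : ℂ) = 1 / 2 := by norm_num
  have h2 : (Complex.I / 2 * (Complex.I / 2 * 2) : ℂ) = -(1 / 2) := by
    linear_combination (1 / 2 : ℂ) * Complex.I_mul_I
  rw [h1, h2]
  module

include hs in
theorem Lti_Lt : Lti D * Lt D = 1 := by
  have h := tt_sq hs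
  have e1 : (1 + tt D) * (1 + tt D) = (2 : ℂ) • (1 + tt D) := by
    rw [add_mul, mul_add, mul_add, h, two_smul]
    simp only [one_mul, mul_one]
    abel
  have e2 : (1 - tt D) * (1 - tt D) = (2 : ℂ) • (1 - tt D) := by
    rw [sub_mul, mul_sub, mul_sub, h, two_smul]
    simp only [one_mul, mul_one]
    abel
  have e3 : (1 + tt D) * (1 - tt D) = 0 := by
    rw [add_mul, mul_sub, mul_sub, h]
    simp only [one_mul, mul_one]
    abel
  have e4 : (1 - tt D) * (1 + tt D) = 0 := by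
    rw [sub_mul, mul_add, mul_add, h]
    simp only [one_mul, mul_one]
    abel
  rw [Lt, Lti, sub_mul, mul_add, mul_add]
  simp only [smul_mul_assoc, mul_smul_comm, e1, e2, e3, e4, smul_zero, smul_smul]
  have h1 : (1 / 2 * (1 / 2 * 2) : ℂ) = 1 / 2 := by norm_num
  have h2 : (Complex.I / 2 * (Complex.I / 2 * 2) : ℂ) = -(1 / 2) := by
    linear_combination (1 / 2 : ℂ) * Complex.I_mul_I
  rw [h1, h2]
  module

include ht in
theorem Lti_tr : (Lti D)ᵀ = Lti D := by
  rw [Lti, Matrix.transpose_sub, Matrix.transpose_smul, Matrix.transpose_smul, Matrix.transpose_add,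
    Matrix.transpose_sub, Matrix.transpose_one, tt_tr ht]

include hs in
/-- `L⁻¹ Q L⁻¹ = T` -/
theorem Lti_form : Lti D * (D ⊗ₖ D) * Lti D = T W ℂ := by
  have h := tt_sq hs
  have h1 : (D ⊗ₖ D) * Lti D = Lti D * (D ⊗ₖ D) := by
    rw [Lti, mul_sub, sub_mul, mul_smul_comm, mul_smul_comm, smul_mul_assoc, smul_mul_assoc, mul_add, mul_sub,
      add_mul, sub_mul, qq_tt hs, tt_qq hs]
    simp only [one_mul, mul_one]
  have e1 : (1 + tt D) * (1 + tt D) = (2 : ℂ) • (1 + tt D) := by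
    rw [add_mul, mul_add, mul_add, h, two_smul]
    simp only [one_mul, mul_one]
    abel
  have e2 : (1 - tt D) * (1 - tt D) = (2 : ℂ) • (1 - tt D) := by
    rw [sub_mul, mul_sub, mul_sub, h, two_smul]
    simp only [one_mul, mul_one]
    abel
  have e3 : (1 + tt D) * (1 - tt D) = 0 := by
    rw [add_mul, mul_sub, mul_sub, h]
    simp only [one_mul, mul_one]
    abel
  have e4 : (1 - tt D) * (1 + tt D) = 0 := by
    rw [sub_mul, mul_add, mul_add, h]
    simp only [one_mul, mul_one]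
    abel
  have h2 : Lti D * Lti D = tt D := by
    rw [Lti, sub_mul, mul_sub, mul_sub]
    simp only [smul_mul_assoc, mul_smul_comm, e1, e2, e3, e4, smul_zero, smul_smul]
    have h1 : (1 / 2 * (1 / 2 * 2) : ℂ) = 1 / 2 := by norm_num
    have h2 : (Complex.I / 2 * (Complex.I / 2 * 2) : ℂ) = -(1 / 2) := by
      linear_combination (1 / 2 : ℂ) * Complex.I_mul_I
    rw [h1, h2]
    module
  rw [mul_assoc, h1, ← mul_assoc, h2, tt_qq hs]

/-- a matrix that commutes with the twist -/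
theorem Lt_comm {A : Matrix (W × W) (W × W) ℂ} (h : tt D * A = A * tt D) : Lt D * A = A * Lt D := by
  rw [Lt, add_mul, mul_add, smul_mul_assoc, smul_mul_assoc, mul_smul_comm, mul_smul_comm, add_mul, mul_add, sub_mul,
    mul_sub, h, one_mul, mul_one]

theorem Lti_comm {A : Matrix (W × W) (W × W) ℂ} (h : tt D * A = A * tt D) : Lti D * A = A * Lti D := by
  rw [Lti, sub_mul, mul_sub, smul_mul_assoc, smul_mul_assoc, mul_smul_comm, mul_smul_comm, add_mul, mul_add, sub_mul,
    mul_sub, h, one_mul, mul_one]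

include hs in
/-- a matrix that anticommutes with the twist -/
theorem Lt_anti {A : Matrix (W × W) (W × W) ℂ} (h : tt D * A = -(A * tt D)) :
    Lt D * (A * tt D) = Complex.I • (A * Lt D) := by
  have h2 : Lt D * A = A * ((1 / 2 : ℂ) • (1 - tt D) + (Complex.I / 2) • (1 + tt D)) := by
    rw [Lt, add_mul, mul_add, smul_mul_assoc, smul_mul_assoc, mul_smul_comm, mul_smul_comm, add_mul, mul_add, sub_mul,
      mul_sub, h, one_mul, mul_one]
    congr 2 <;> abel
  have h3 : ((1 / 2 : ℂ) • (1 - tt D) + (Complex.I / 2) • (1 + tt D)) * tt D = Complex.I • Lt D := by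
    have h1 : (Complex.I * (Complex.I / 2) : ℂ) = -(1 / 2) := by
      linear_combination (1 / 2 : ℂ) * Complex.I_mul_I
    rw [add_mul, smul_mul_assoc, smul_mul_assoc, add_mul, sub_mul, tt_sq hs, one_mul, Lt, smul_add Complex.I,
      smul_smul Complex.I, smul_smul Complex.I, h1]
    module
  rw [← mul_assoc, h2, mul_assoc, h3, mul_smul_comm]

theorem Lti_vc (X : Matrix W W ℂ) (ht : Dᵀ = D) :
    Lti D *ᵥ vc X = vc ((1 / 2 : ℂ) • (X + D * Xᵀ * D) - (Complex.I / 2) • (X - D * Xᵀ * D)) := by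
  rw [Lti, Matrix.sub_mulVec, Matrix.smul_mulVec, Matrix.smul_mulVec, Matrix.add_mulVec, Matrix.sub_mulVec,
    Matrix.one_mulVec, tt_vc _ _ ht]
  rfl

end

end C655
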